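import Mathlib

/-!
# The divisor bound
-/

set_option autoImplicit false

namespace Pool.Agent.Lib.MP_dd84fd_nt.DivBound

open Finset

/-- polynomial against exponential -/
theorem exists_pow_le (k : ℕ) : ∃ B : ℕ, 1 ≤ B ∧ ∀ v : ℕ, (v + 1) ^ k ≤ B * 2 ^ v := by
  have h := tendsto_pow_const_div_const_pow_of_one_lt k (show (1 : ℝ) < 2 by norm_num)
  obtain ⟨C, hC⟩ := h.bddAbove_range
  refine ⟨⌈C⌉₊ * 2 + 1, by omega, fun v => ?_⟩
  have h1 : ((v + 1 : ℕ) : ℝ) ^ k / 2 ^ (v + 1) ≤ C := hC ⟨v + 1, rfl⟩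
  rw [div_le_iff₀ (by positivity)] at h1
  have h2 : C * 2 ^ (v + 1) ≤ (⌈C⌉₊ : ℝ) * 2 ^ (v + 1) :=
    mul_le_mul_of_nonneg_right (Nat.le_ceil C) (by positivity)
  have h3 : (((v + 1) ^ k : ℕ) : ℝ) ≤ (((⌈C⌉₊ * 2 + 1) * 2 ^ v : ℕ) : ℝ) := by
    push_cast
    push_cast at h1
    have h4 : (⌈C⌉₊ : ℝ) * 2 ^ (v + 1) = (⌈C⌉₊ * 2 : ℝ) * 2 ^ v := by rw [pow_succ]; ring
    have h5 : (0 : ℝ) ≤ 2 ^ v := by positivity
    nlinarith
  exact_mod_cast h3

/-- For every `k` the `k`-th power of the number of divisors of `m` is at most `C m`. -/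
theorem div_bound (k : ℕ) : ∃ C : ℕ, 1 ≤ C ∧ ∀ m : ℕ, m ≠ 0 → m.divisors.card ^ k ≤ C * m := by
  obtain ⟨B, hB1, hB⟩ := exists_pow_le k
  refine ⟨B ^ (2 ^ k), Nat.one_le_pow _ _ hB1, fun m hm => ?_⟩
  rw [Nat.card_divisors hm]
  have h1 : ∀ p ∈ m.primeFactors, (m.factorization p + 1) ^ k ≤
      (if p < 2 ^ k then B else 1) * p ^ (m.factorization p) := by
    intro p hp
    have hp2 := (Nat.prime_of_mem_primeFactors hp).two_le
    split_ifs with h
    · exact (hB _).trans (Nat.mul_le_mul_left _ (Nat.pow_le_pow_left hp2 _))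
    · push Not at h
      rw [one_mul]
      calc (m.factorization p + 1) ^ k ≤ (2 ^ (m.factorization p)) ^ k :=
            Nat.pow_le_pow_left (Nat.lt_two_pow_self) _
        _ = (2 ^ k) ^ (m.factorization p) := by rw [← pow_mul, ← pow_mul, mul_comm]
        _ ≤ p ^ (m.factorization p) := Nat.pow_le_pow_left h _
  rw [← Finset.prod_pow]
  refine (Finset.prod_le_prod' h1).trans ?_
  rw [Finset.prod_mul_distrib]
  have h2 : ∏ p ∈ m.primeFactors, p ^ (m.factorization p) = m :=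
    Nat.prod_factorization_pow_eq_self hm
  rw [h2]
  refine Nat.mul_le_mul_right _ ?_
  rw [Finset.prod_ite, Finset.prod_const, Finset.prod_const_one, mul_one]
  refine Nat.pow_le_pow_right hB1 ?_
  calc (m.primeFactors.filter (fun p => p < 2 ^ k)).card ≤ (Finset.range (2 ^ k)).card :=
        Finset.card_le_card fun p hp => Finset.mem_range.2 (Finset.mem_filter.1 hp).2
    _ = 2 ^ k := Finset.card_range _

end Pool.Agent.Lib.MP_dd84fd_nt.DivBound
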