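import Mathlib

set_option autoImplicit false

namespace Pool.Agent.Lib.MP_dd84fd_nt.Cheb

open Finset

/-- The primes in `(Y/4, Y]`. -/
def P4 (Y : ℕ) : Finset ℕ := (Finset.Ioc (Y / 4) Y).filter Nat.Prime

theorem theta_diff (Y : ℕ) (hY : 1 ≤ Y) :
    Chebyshev.theta Y - Chebyshev.theta ((Y : ℝ) / 4) ≤ (P4 Y).card * Real.log Y := by
  have h4 : ⌊(Y : ℝ) / 4⌋₊ = Y / 4 := by
    have := Nat.floor_div_eq_div (K := ℝ) Y 4
    simpa using this
  have h1 : Chebyshev.theta Y = ∑ p ∈ (Ioc 0 Y).filter Nat.Prime, Real.log p := by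
    unfold Chebyshev.theta
    simp
  have h2 : Chebyshev.theta ((Y : ℝ) / 4) = ∑ p ∈ (Ioc 0 (Y / 4)).filter Nat.Prime, Real.log p := by
    unfold Chebyshev.theta
    rw [h4]
  rw [h1, h2]
  have h3 : (Ioc 0 Y).filter Nat.Prime = (Ioc 0 (Y / 4)).filter Nat.Prime ∪ P4 Y := by
    ext p
    simp only [P4, mem_filter, mem_Ioc, mem_union]
    constructor
    · rintro ⟨⟨a, b⟩, c⟩
      by_cases h : p ≤ Y / 4
      · left; exact ⟨⟨a, h⟩, c⟩
      · right; exact ⟨⟨by omega, b⟩, c⟩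
    · rintro (⟨⟨a, b⟩, c⟩ | ⟨⟨a, b⟩, c⟩)
      · exact ⟨⟨a, by omega⟩, c⟩
      · exact ⟨⟨by omega, b⟩, c⟩
  have h5 : Disjoint ((Ioc 0 (Y / 4)).filter Nat.Prime) (P4 Y) := by
    rw [Finset.disjoint_left]
    intro p hp hp'
    simp only [P4, mem_filter, mem_Ioc] at hp hp'
    omega
  rw [h3, Finset.sum_union h5, add_sub_cancel_left]
  calc ∑ p ∈ P4 Y, Real.log p ≤ ∑ p ∈ P4 Y, Real.log Y := by
        refine Finset.sum_le_sum (fun p hp => ?_)
        simp only [P4, mem_filter, mem_Ioc] at hp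
        exact Real.log_le_log (by exact_mod_cast hp.2.pos) (by exact_mod_cast hp.1.2)
    _ = _ := by simp

theorem card_P4 : ∀ᶠ Y : ℕ in Filter.atTop, (Y : ℝ) / 4 ≤ (P4 Y).card * Real.log Y := by
  have hlo : (fun x : ℝ => Real.log (x + 1) + 2 * √x * Real.log x) =o[Filter.atTop] (fun x : ℝ => x) := by
    have h1 : (fun x : ℝ => Real.log x) =o[Filter.atTop] (fun x : ℝ => x ^ (1 / 2 : ℝ)) :=
      isLittleO_log_rpow_atTop (by norm_num)
    have h2 : (fun x : ℝ => 2 * √x * Real.log x) =o[Filter.atTop] (fun x : ℝ => x) := by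
      have h3 : (fun x : ℝ => 2 * √x) =O[Filter.atTop] (fun x : ℝ => x ^ (1 / 2 : ℝ)) := by
        refine Asymptotics.IsBigO.const_mul_left ?_ 2
        refine Asymptotics.IsBigO.of_bound 1 (Filter.Eventually.of_forall (fun x => ?_))
        rw [Real.sqrt_eq_rpow, one_mul]
      have h4 := h3.mul_isLittleO h1
      refine h4.congr' Filter.EventuallyEq.rfl ?_
      filter_upwards [Filter.eventually_gt_atTop 0] with x hx
      rw [← Real.rpow_add hx]; norm_num
    have h5 : (fun x : ℝ => Real.log (x + 1)) =o[Filter.atTop] (fun x : ℝ => x) := by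
      have h6 : (fun x : ℝ => Real.log (x + 1)) =o[Filter.atTop] (fun x : ℝ => x + 1) :=
        Real.isLittleO_log_id_atTop.comp_tendsto (Filter.tendsto_atTop_add_const_right _ 1 Filter.tendsto_id)
      refine h6.trans_isBigO ?_
      refine Asymptotics.IsBigO.of_bound 2 ?_
      filter_upwards [Filter.eventually_ge_atTop 1] with x hx
      rw [Real.norm_of_nonneg (by linarith), Real.norm_of_nonneg (by linarith)]
      linarith
    exact h5.add h2
  have hb := hlo.bound (c := 1 / 20) (by norm_num)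
  have hb' := tendsto_natCast_atTop_atTop.eventually hb
  filter_upwards [hb', Filter.eventually_ge_atTop 1] with Y hY hY1
  have h1 := theta_diff Y hY1
  have h2 := Chebyshev.theta_ge Y
  have h3 := Chebyshev.theta_le_log4_mul_x (x := (Y : ℝ) / 4) (by positivity)
  have h4 : Real.log 4 = 2 * Real.log 2 := by
    rw [show (4 : ℝ) = 2 ^ 2 by norm_num, Real.log_pow]; norm_num
  have h5 := Real.log_two_gt_d9
  have hYr : (1 : ℝ) ≤ Y := by exact_mod_cast hY1
  rw [Real.norm_of_nonneg (by positivity : (0 : ℝ) ≤ (Y : ℝ))] at hY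
  have h6 := (le_abs_self _).trans hY
  have h7 : Real.log (Y + 1) + 2 * √(Y : ℝ) * Real.log Y ≤ 1 / 20 * Y := h6
  rw [h4] at h3
  nlinarith

end Pool.Agent.Lib.MP_dd84fd_nt.Cheb
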