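import Mathlib

set_option autoImplicit false
set_option linter.unusedSectionVars false
set_option linter.style.haveILetI false

namespace Pool.Agent.Lib.MP_dd84fd_nt.Bohr

open MeasureTheory Finset

section Group

variable {G : Type*} [AddCommGroup G] [TopologicalSpace G] [IsTopologicalAddGroup G]
  [MeasurableSpace G] [BorelSpace G] [SecondCountableTopology G] [CompactSpace G]
  [DivisibleBy G ℤ] (μ : Measure G) [μ.IsAddHaarMeasure] [IsProbabilityMeasure μ]

include μ in
theorem negInv : μ.IsNegInvariant := by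
  have h := (Measure.measurePreserving_zsmul (G := G) μ (n := -1) (by norm_num)).map_eq
  constructor
  rw [Measure.neg]
  convert h using 2
  funext g
  simp

/-- The indicator function of `U`. -/
noncomputable def ph (U : Set G) : G → ℝ := U.indicator (fun _ => (1 : ℝ))

theorem ph_nonneg (U : Set G) (x : G) : 0 ≤ ph U x := by
  unfold ph; exact Set.indicator_nonneg (fun _ _ => zero_le_one) x

theorem ph_le_one (U : Set G) (x : G) : ph U x ≤ 1 := by
  unfold ph
  by_cases hx : x ∈ U <;> simp [hx]

theorem ph_sq (U : Set G) (x : G) : ph U x * ph U x = ph U x := by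
  unfold ph
  by_cases hx : x ∈ U <;> simp [hx]

theorem ph_ne_zero {U : Set G} {x : G} (h : ph U x ≠ 0) : x ∈ U := by
  unfold ph at h
  by_contra hx
  simp [hx] at h

theorem ph_meas {U : Set G} (hU : MeasurableSet U) : Measurable (ph U) :=
  measurable_const.indicator hU

theorem ph_int {U : Set G} (hU : MeasurableSet U) : ∫ x, ph U x ∂μ = μ.real U := by
  unfold ph
  rw [integral_indicator hU]
  simp

/-- bounded measurable functions are integrable -/
theorem bddInt {Ω : Type*} [MeasurableSpace Ω] (ν : Measure Ω) [IsFiniteMeasure ν] {f : Ω → ℝ}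
    (hf : Measurable f) {C : ℝ} (hC : ∀ x, |f x| ≤ C) : Integrable f ν :=
  Integrable.of_bound hf.aestronglyMeasurable C (Filter.Eventually.of_forall hC)

/-- The counting function: number of `p ∈ S` with `p • α - θ ∈ U`. -/
noncomputable def F (S : Finset ℕ) (U : Set G) (α θ : G) : ℝ := ∑ p ∈ S, ph U (p • α - θ)

/-- Its variance in `θ`. -/
noncomputable def V (S : Finset ℕ) (U : Set G) (α : G) : ℝ :=
  ∫ θ, (F S U α θ - S.card * μ.real U) ^ 2 ∂μ

/-- The self-convolution of the indicator function. -/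
noncomputable def kap (U : Set G) (t : G) : ℝ := ∫ x, ph U x * ph U (t - x) ∂μ

theorem kap_nonneg (U : Set G) (t : G) : 0 ≤ kap μ U t :=
  integral_nonneg (fun x => mul_nonneg (ph_nonneg U x) (ph_nonneg U _))

open Pointwise in
theorem kap_ne_zero {U : Set G} {t : G} (h : kap μ U t ≠ 0) : t ∈ U + U := by
  by_contra hx
  apply h
  unfold kap
  have : ∀ x, ph U x * ph U (t - x) = 0 := by
    intro x
    by_contra h1
    have h2 := ph_ne_zero (left_ne_zero_of_mul h1)
    have h3 := ph_ne_zero (right_ne_zero_of_mul h1)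
    exact hx ⟨x, h2, t - x, h3, add_sub_cancel x t⟩
  simp [this]

theorem ph_pair_int {U : Set G} (hU : MeasurableSet U) {f g : G → G} (hf : Measurable f)
    (hg : Measurable g) : Integrable (fun θ => ph U (f θ) * ph U (g θ)) μ := by
  refine bddInt μ (((ph_meas hU).comp hf).mul ((ph_meas hU).comp hg)) (C := 1) ?_
  intro x
  rw [abs_mul, abs_of_nonneg (ph_nonneg U _), abs_of_nonneg (ph_nonneg U _)]
  exact mul_le_one₀ (ph_le_one U _) (ph_nonneg U _) (ph_le_one U _)

theorem ph_one_int {U : Set G} (hU : MeasurableSet U) {f : G → G} (hf : Measurable f) :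
    Integrable (fun θ => ph U (f θ)) μ := by
  refine bddInt μ ((ph_meas hU).comp hf) (C := 1) ?_
  intro x
  rw [abs_of_nonneg (ph_nonneg U _)]
  exact ph_le_one U _

theorem F_meas {U : Set G} (hU : MeasurableSet U) (S : Finset ℕ) (α : G) :
    Measurable (F S U α) := by
  unfold F
  refine Finset.measurable_sum _ (fun p _ => ?_)
  exact (ph_meas hU).comp (measurable_const.sub measurable_id)

theorem F_abs (S : Finset ℕ) (U : Set G) (α θ : G) : |F S U α θ| ≤ S.card := by
  unfold F
  refine (Finset.abs_sum_le_sum_abs _ _).trans ?_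
  calc ∑ p ∈ S, |ph U (p • α - θ)| ≤ ∑ p ∈ S, (1 : ℝ) := by
        refine Finset.sum_le_sum (fun p _ => ?_)
        rw [abs_of_nonneg (ph_nonneg U _)]
        exact ph_le_one U _
    _ = S.card := by simp

theorem F_int {U : Set G} (hU : MeasurableSet U) (S : Finset ℕ) (α : G) :
    Integrable (F S U α) μ := bddInt μ (F_meas hU S α) (F_abs S U α)

theorem F_mean {U : Set G} (hU : MeasurableSet U) (S : Finset ℕ) (α : G) :
    ∫ θ, F S U α θ ∂μ = S.card * μ.real U := by
  haveI := negInv μ
  unfold F
  rw [integral_finsetSum]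
  · have : ∀ p ∈ S, ∫ θ, ph U (p • α - θ) ∂μ = μ.real U := by
      intro p _
      rw [integral_sub_left_eq_self (fun x => ph U x) μ (p • α), ph_int μ hU]
    rw [Finset.sum_congr rfl this]
    simp
  · intro p _
    exact ph_one_int μ hU (measurable_const.sub measurable_id)

/-- correlation identity -/
theorem corr_eq {U : Set G} (hU : MeasurableSet U) (S : Finset ℕ) (α β : G) :
    ∫ θ, F S U α θ * F S U α (β - θ) ∂μ = ∑ p ∈ S, ∑ q ∈ S, kap μ U ((p + q) • α - β) := by
  haveI := negInv μ
  unfold F
  simp_rw [Finset.sum_mul_sum]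
  rw [integral_finsetSum]
  · refine Finset.sum_congr rfl (fun p _ => ?_)
    rw [integral_finsetSum]
    · refine Finset.sum_congr rfl (fun q _ => ?_)
      unfold kap
      rw [← integral_sub_left_eq_self (fun x => ph U x * ph U ((p + q) • α - β - x)) μ (p • α)]
      refine integral_congr_ae (Filter.Eventually.of_forall (fun θ => ?_))
      simp only
      congr 2
      rw [add_smul]; abel
    · intro q _
      exact ph_pair_int μ hU (measurable_const.sub measurable_id)
        (measurable_const.sub (measurable_const.sub measurable_id))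
  · intro p _
    refine integrable_finsetSum _ (fun q _ => ?_)
    exact ph_pair_int μ hU (measurable_const.sub measurable_id)
        (measurable_const.sub (measurable_const.sub measurable_id))

theorem V_nonneg (S : Finset ℕ) (U : Set G) (α : G) : 0 ≤ V μ S U α :=
  integral_nonneg (fun _ => sq_nonneg _)

theorem sq_int {U : Set G} (hU : MeasurableSet U) (S : Finset ℕ) (α : G) (c : ℝ) :
    Integrable (fun θ => (F S U α θ - c) ^ 2) μ := by
  refine bddInt μ (((F_meas hU S α).sub measurable_const).pow_const 2) (C := (S.card + |c|) ^ 2) ?_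
  intro x
  rw [abs_pow]
  refine pow_le_pow_left₀ (abs_nonneg _) ?_ 2
  exact (abs_sub _ _).trans (add_le_add (F_abs S U α x) le_rfl)

theorem prod_int {U : Set G} (hU : MeasurableSet U) (S : Finset ℕ) (α β : G) :
    Integrable (fun θ => F S U α θ * F S U α (β - θ)) μ := by
  refine bddInt μ ((F_meas hU S α).mul ((F_meas hU S α).comp (measurable_const.sub measurable_id)))
    (C := S.card * S.card) ?_
  intro x
  rw [abs_mul]
  exact mul_le_mul (F_abs _ _ _ _) (F_abs _ _ _ _) (abs_nonneg _) (Nat.cast_nonneg _)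

/-- lower bound for the correlation -/
theorem corr_ge {U : Set G} (hU : MeasurableSet U) (S : Finset ℕ) (α β : G) :
    (S.card * μ.real U) ^ 2 - V μ S U α ≤ ∫ θ, F S U α θ * F S U α (β - θ) ∂μ := by
  haveI := negInv μ
  set m : ℝ := S.card * μ.real U with hm
  have h1 : ∫ θ, F S U α (β - θ) ∂μ = m := by
    rw [integral_sub_left_eq_self (fun x => F S U α x) μ β, F_mean μ hU]
  have h2 : ∫ θ, (F S U α (β - θ) - m) ^ 2 ∂μ = V μ S U α := by
    rw [integral_sub_left_eq_self (fun x => (F S U α x - m) ^ 2) μ β, V]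
  have h3 : ∫ θ, F S U α θ ∂μ = m := F_mean μ hU S α
  have hi1 : Integrable (fun θ => F S U α (β - θ)) μ :=
    bddInt μ ((F_meas hU S α).comp (measurable_const.sub measurable_id)) (fun x => F_abs _ _ _ _)
  have hi2 : Integrable (fun θ => (F S U α (β - θ) - m) ^ 2) μ := by
    have := sq_int μ hU S α m
    refine bddInt μ ((((F_meas hU S α).comp (measurable_const.sub measurable_id)).sub
      measurable_const).pow_const 2) (C := (S.card + |m|) ^ 2) ?_
    intro x
    rw [abs_pow]
    refine pow_le_pow_left₀ (abs_nonneg _) ?_ 2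
    exact (abs_sub _ _).trans (add_le_add (F_abs S U α _) le_rfl)
  -- F F' ≥ m F + m F' - m^2 - ((F-m)^2 + (F'-m)^2)/2
  have hle : ∫ θ, (m * F S U α θ + m * F S U α (β - θ) - m ^ 2
      - ((F S U α θ - m) ^ 2 + (F S U α (β - θ) - m) ^ 2) / 2) ∂μ
      ≤ ∫ θ, F S U α θ * F S U α (β - θ) ∂μ := by
    refine integral_mono ?_ (prod_int μ hU S α β) ?_
    · exact ((((F_int μ hU S α).const_mul m).add (hi1.const_mul m)).sub
        (integrable_const _)).sub ((((sq_int μ hU S α m)).add hi2).div_const 2)
    · intro θ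
      simp only
      nlinarith [sq_nonneg (F S U α θ - m + (F S U α (β - θ) - m))]
  refine le_trans (le_of_eq ?_) hle
  rw [integral_sub, integral_sub, integral_add, integral_div, integral_add, integral_const_mul,
    integral_const_mul, h1, h2, h3]
  · simp only [integral_const, probReal_univ, smul_eq_mul, one_mul]
    change m ^ 2 - V μ S U α = m * m + m * m - m ^ 2 - (V μ S U α + V μ S U α) / 2
    ring
  · exact sq_int μ hU S α m
  · exact hi2
  · exact (F_int μ hU S α).const_mul m
  · exact hi1.const_mul m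
  · exact ((F_int μ hU S α).const_mul m).add (hi1.const_mul m)
  · exact integrable_const _
  · exact (((F_int μ hU S α).const_mul m).add (hi1.const_mul m)).sub (integrable_const _)
  · exact ((sq_int μ hU S α m).add hi2).div_const 2

/-- upper bound for the correlation -/
theorem corr_le {U : Set G} (hU : MeasurableSet U) (S : Finset ℕ) (α β : G) :
    ∫ θ, F S U α θ * F S U α (β - θ) ∂μ ≤ (S.card * μ.real U) ^ 2 + V μ S U α := by
  haveI := negInv μ
  set m : ℝ := S.card * μ.real U with hm
  have h1 : ∫ θ, F S U α (β - θ) ∂μ = m := by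
    rw [integral_sub_left_eq_self (fun x => F S U α x) μ β, F_mean μ hU]
  have h2 : ∫ θ, (F S U α (β - θ) - m) ^ 2 ∂μ = V μ S U α := by
    rw [integral_sub_left_eq_self (fun x => (F S U α x - m) ^ 2) μ β, V]
  have h3 : ∫ θ, F S U α θ ∂μ = m := F_mean μ hU S α
  have hi1 : Integrable (fun θ => F S U α (β - θ)) μ :=
    bddInt μ ((F_meas hU S α).comp (measurable_const.sub measurable_id)) (fun x => F_abs _ _ _ _)
  have hi2 : Integrable (fun θ => (F S U α (β - θ) - m) ^ 2) μ := by
    refine bddInt μ ((((F_meas hU S α).comp (measurable_const.sub measurable_id)).sub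
      measurable_const).pow_const 2) (C := (S.card + |m|) ^ 2) ?_
    intro x
    rw [abs_pow]
    refine pow_le_pow_left₀ (abs_nonneg _) ?_ 2
    exact (abs_sub _ _).trans (add_le_add (F_abs S U α _) le_rfl)
  have hle : ∫ θ, F S U α θ * F S U α (β - θ) ∂μ ≤ ∫ θ, (m * F S U α θ + m * F S U α (β - θ) - m ^ 2
      + ((F S U α θ - m) ^ 2 + (F S U α (β - θ) - m) ^ 2) / 2) ∂μ := by
    refine integral_mono (prod_int μ hU S α β) ?_ ?_
    · exact ((((F_int μ hU S α).const_mul m).add (hi1.const_mul m)).sub
        (integrable_const _)).add ((((sq_int μ hU S α m)).add hi2).div_const 2)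
    · intro θ
      simp only
      nlinarith [sq_nonneg (F S U α θ - m - (F S U α (β - θ) - m))]
  refine le_trans hle (le_of_eq ?_)
  rw [integral_add, integral_sub, integral_add, integral_div, integral_add, integral_const_mul,
    integral_const_mul, h1, h2, h3]
  · simp only [integral_const, probReal_univ, smul_eq_mul, one_mul]
    change m * m + m * m - m ^ 2 + (V μ S U α + V μ S U α) / 2 = m ^ 2 + V μ S U α
    ring
  · exact sq_int μ hU S α m
  · exact hi2
  · exact (F_int μ hU S α).const_mul m
  · exact hi1.const_mul m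
  · exact ((F_int μ hU S α).const_mul m).add (hi1.const_mul m)
  · exact integrable_const _
  · exact (((F_int μ hU S α).const_mul m).add (hi1.const_mul m)).sub (integrable_const _)
  · exact ((sq_int μ hU S α m).add hi2).div_const 2

/-- pair independence -/
theorem pair_eq {U : Set G} (hU : MeasurableSet U) {p q : ℕ} (hpq : p ≠ q) :
    ∫ α, ∫ θ, ph U (p • α - θ) * ph U (q • α - θ) ∂μ ∂μ = μ.real U * μ.real U := by
  haveI := negInv μ
  have h1 : ∀ α : G, ∫ θ, ph U (p • α - θ) * ph U (q • α - θ) ∂μ
      = ∫ θ, ph U θ * ph U (((q : ℤ) - p) • α + θ) ∂μ := by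
    intro α
    rw [← integral_sub_left_eq_self (fun x => ph U x * ph U (((q : ℤ) - p) • α + x)) μ (p • α)]
    refine integral_congr_ae (Filter.Eventually.of_forall (fun θ => ?_))
    simp only
    congr 2
    rw [sub_smul, natCast_zsmul, natCast_zsmul]; abel
  simp_rw [h1]
  have hmeas : Measurable (fun z : G × G => ph U z.2 * ph U (((q : ℤ) - p) • z.1 + z.2)) := by
    refine ((ph_meas hU).comp measurable_snd).mul ((ph_meas hU).comp ?_)
    have : Continuous (fun z : G × G => ((q : ℤ) - p) • z.1 + z.2) := by fun_prop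
    exact this.measurable
  rw [integral_integral_swap]
  · have h2 : ∀ θ : G, ∫ α, ph U θ * ph U (((q : ℤ) - p) • α + θ) ∂μ = ph U θ * μ.real U := by
      intro θ
      rw [integral_const_mul]
      congr 1
      have hmp := Measure.measurePreserving_zsmul (G := G) μ (n := (q : ℤ) - p)
        (by
          intro h
          apply hpq
          have : (q : ℤ) = p := by linarith
          exact_mod_cast this.symm)
      have h3 : ∫ α, ph U (((q : ℤ) - p) • α + θ) ∂μ = ∫ x, ph U (x + θ) ∂μ := by
        have h4 : ∫ x, ph U (x + θ) ∂μ = ∫ x, ph U (x + θ) ∂(Measure.map (fun g => ((q : ℤ) - p) • g) μ) := by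
          rw [hmp.map_eq]
        rw [h4, integral_map hmp.measurable.aemeasurable]
        exact ((ph_meas hU).comp (measurable_id.add measurable_const)).aestronglyMeasurable
      rw [h3, integral_add_right_eq_self (fun x => ph U x) θ, ph_int μ hU]
    simp_rw [h2]
    rw [integral_mul_const, ph_int μ hU]
  · refine bddInt (μ.prod μ) hmeas (C := 1) ?_
    rintro ⟨a, b⟩
    simp only [Function.uncurry]
    rw [abs_mul, abs_of_nonneg (ph_nonneg U _), abs_of_nonneg (ph_nonneg U _)]
    exact mul_le_one₀ (ph_le_one U _) (ph_nonneg U _) (ph_le_one U _)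

theorem pair_meas {U : Set G} (hU : MeasurableSet U) (p q : ℕ) :
    Measurable (fun z : G × G => ph U (p • z.1 - z.2) * ph U (q • z.1 - z.2)) := by
  refine ((ph_meas hU).comp ?_).mul ((ph_meas hU).comp ?_)
  · have : Continuous (fun z : G × G => p • z.1 - z.2) := by fun_prop
    exact this.measurable
  · have : Continuous (fun z : G × G => q • z.1 - z.2) := by fun_prop
    exact this.measurable

theorem pair_int2 {U : Set G} (hU : MeasurableSet U) (p q : ℕ) :
    Integrable (fun z : G × G => ph U (p • z.1 - z.2) * ph U (q • z.1 - z.2)) (μ.prod μ) := by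
  refine bddInt (μ.prod μ) (pair_meas hU p q) (C := 1) ?_
  rintro ⟨a, b⟩
  rw [abs_mul, abs_of_nonneg (ph_nonneg U _), abs_of_nonneg (ph_nonneg U _)]
  exact mul_le_one₀ (ph_le_one U _) (ph_nonneg U _) (ph_le_one U _)

theorem pair_self {U : Set G} (hU : MeasurableSet U) (p : ℕ) :
    ∫ α, ∫ θ, ph U (p • α - θ) * ph U (p • α - θ) ∂μ ∂μ = μ.real U := by
  haveI := negInv μ
  have h1 : ∀ α : G, ∫ θ, ph U (p • α - θ) * ph U (p • α - θ) ∂μ = μ.real U := by
    intro α
    simp_rw [ph_sq]
    rw [integral_sub_left_eq_self (fun x => ph U x) μ (p • α), ph_int μ hU]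
  simp_rw [h1]
  simp

/-- The variance as a double sum. -/
theorem V_eq {U : Set G} (hU : MeasurableSet U) (S : Finset ℕ) (α : G) :
    V μ S U α = (∑ p ∈ S, ∑ q ∈ S, ∫ θ, ph U (p • α - θ) * ph U (q • α - θ) ∂μ)
      - (S.card * μ.real U) ^ 2 := by
  set m : ℝ := S.card * μ.real U with hm
  unfold V
  rw [← hm]
  have h1 : ∀ θ, (F S U α θ - m) ^ 2 = F S U α θ * F S U α θ - 2 * m * F S U α θ + m ^ 2 := by
    intro θ; ring
  simp_rw [h1]
  have hi : Integrable (fun θ => F S U α θ * F S U α θ) μ := by
    refine bddInt μ ((F_meas hU S α).mul (F_meas hU S α)) (C := S.card * S.card) ?_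
    intro x
    rw [abs_mul]
    exact mul_le_mul (F_abs _ _ _ _) (F_abs _ _ _ _) (abs_nonneg _) (Nat.cast_nonneg _)
  have hj : Integrable (fun θ => 2 * m * F S U α θ) μ := (F_int μ hU S α).const_mul _
  have hk : Integrable (fun θ => F S U α θ * F S U α θ - 2 * m * F S U α θ) μ := hi.sub hj
  rw [integral_add hk (integrable_const _),
    integral_sub hi hj, integral_const_mul, F_mean μ hU, ← hm]
  have h2 : ∫ θ, F S U α θ * F S U α θ ∂μ
      = ∑ p ∈ S, ∑ q ∈ S, ∫ θ, ph U (p • α - θ) * ph U (q • α - θ) ∂μ := by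
    unfold F
    simp_rw [Finset.sum_mul_sum]
    rw [integral_finsetSum]
    · refine Finset.sum_congr rfl (fun p _ => ?_)
      rw [integral_finsetSum]
      intro q _
      exact ph_pair_int μ hU (measurable_const.sub measurable_id)
          (measurable_const.sub measurable_id)
    · intro p _
      refine integrable_finsetSum _ (fun q _ => ?_)
      exact ph_pair_int μ hU (measurable_const.sub measurable_id)
          (measurable_const.sub measurable_id)
  rw [h2]
  simp only [integral_const, probReal_univ, smul_eq_mul, one_mul]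
  ring

theorem inner_int {U : Set G} (hU : MeasurableSet U) (p q : ℕ) :
    Integrable (fun α => ∫ θ, ph U (p • α - θ) * ph U (q • α - θ) ∂μ) μ :=
  (pair_int2 μ hU p q).integral_prod_left

theorem V_int {U : Set G} (hU : MeasurableSet U) (S : Finset ℕ) :
    Integrable (fun α => V μ S U α) μ := by
  simp_rw [V_eq μ hU]
  refine Integrable.sub ?_ (integrable_const _)
  refine integrable_finsetSum _ (fun p _ => integrable_finsetSum _ (fun q _ => ?_))
  exact inner_int μ hU p q

theorem V_mean {U : Set G} (hU : MeasurableSet U) (S : Finset ℕ) :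
    ∫ α, V μ S U α ∂μ ≤ S.card * μ.real U := by
  simp_rw [V_eq μ hU]
  rw [integral_sub (integrable_finsetSum _ (fun p _ => integrable_finsetSum _
    (fun q _ => inner_int μ hU p q))) (integrable_const _)]
  rw [integral_finsetSum _ (fun p _ => integrable_finsetSum _ (fun q _ => inner_int μ hU p q))]
  have h1 : ∀ p ∈ S, ∫ α, ∑ q ∈ S, ∫ θ, ph U (p • α - θ) * ph U (q • α - θ) ∂μ ∂μ
      = ∑ q ∈ S, (μ.real U * μ.real U) + (μ.real U - μ.real U * μ.real U) := by
    intro p hp
    rw [integral_finsetSum _ (fun q _ => inner_int μ hU p q)]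
    rw [← Finset.sum_erase_add _ _ hp, ← Finset.sum_erase_add S (fun _ => μ.real U * μ.real U) hp]
    rw [pair_self μ hU]
    have h2 : ∑ q ∈ S.erase p, ∫ α, ∫ θ, ph U (p • α - θ) * ph U (q • α - θ) ∂μ ∂μ
        = ∑ q ∈ S.erase p, μ.real U * μ.real U := by
      refine Finset.sum_congr rfl (fun q hq => ?_)
      exact pair_eq μ hU (Finset.ne_of_mem_erase hq).symm
    rw [h2]; ring
  rw [Finset.sum_congr rfl h1]
  simp only [sum_const, nsmul_eq_mul, integral_const, probReal_univ, smul_eq_mul, one_mul]
  have h3 : 0 ≤ (S.card : ℝ) * (μ.real U * μ.real U) := by positivity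
  nlinarith

theorem V_markov {U : Set G} (hU : MeasurableSet U) (S : Finset ℕ) (c : ℝ) :
    c * μ.real {α | c ≤ V μ S U α} ≤ S.card * μ.real U :=
  (mul_meas_ge_le_integral_of_nonneg (Filter.Eventually.of_forall (fun α => V_nonneg μ S U α))
    (V_int μ hU S) c).trans (V_mean μ hU S)

/-- Number of ordered representations of `n` as a sum of two primes. -/
def gb (n : ℕ) : ℕ := ((Finset.range (n + 1)).filter (fun p => Nat.Prime p ∧ Nat.Prime (n - p))).card

theorem rep_le (S : Finset ℕ) (hS : ∀ p ∈ S, p.Prime) (n : ℕ) :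
    ((S ×ˢ S).filter (fun x => x.1 + x.2 = n)).card ≤ gb n := by
  unfold gb
  refine Finset.card_le_card_of_injOn (fun x => x.1) ?_ ?_
  · intro x hx
    simp only [coe_filter, mem_product, Set.mem_ofPred_eq] at hx
    simp only [coe_filter, mem_range, Set.mem_ofPred_eq]
    refine ⟨by omega, hS _ hx.1.1, ?_⟩
    have : n - x.1 = x.2 := by omega
    rw [this]
    exact hS _ hx.1.2
  · intro x hx y hy hxy
    simp only [coe_filter, mem_product, Set.mem_ofPred_eq] at hx hy
    simp only at hxy
    ext
    · exact hxy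
    · omega

theorem det_lemma {U : Set G} (hU : MeasurableSet U) (hpos : 0 < μ.real U) (Y : ℕ) (hY : 8 ≤ Y)
    (S : Finset ℕ) (hS : ∀ p ∈ S, p.Prime ∧ Y / 4 < p ∧ p ≤ Y) (α : G)
    (hV1 : V μ S U α < (S.card * μ.real U) ^ 2 / 2)
    (hV2 : V μ (range (2 * Y + 1)) U α < ((2 * Y + 1) * μ.real U) ^ 2) (β : G)
    (M : ℝ) (hM0 : 0 ≤ M)
    (hM : ∀ n : ℕ, Even n → 2 < n → n ≤ 2 * Y → Y < 2 * n → (∃ u ∈ U, ∃ v ∈ U, n • α = β + u + v) →
      (gb n : ℝ) ≤ M) (hMc : M * 72 * Y ≤ (S.card : ℝ) ^ 2) : False := by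
  set N : Finset ℕ := (range (2 * Y + 1)).filter (fun n => Y < 2 * n) with hN
  -- upper bound for the prime correlation
  have h1 : ∫ θ, F S U α θ * F S U α (β - θ) ∂μ ≤ M * ∑ n ∈ N, kap μ U (n • α - β) := by
    rw [corr_eq μ hU, ← Finset.sum_product']
    have hmaps : ∀ x ∈ S ×ˢ S, x.1 + x.2 ∈ N := by
      intro x hx
      rw [mem_product] at hx
      obtain ⟨_, h2, h3⟩ := hS _ hx.1
      obtain ⟨_, h5, h6⟩ := hS _ hx.2
      rw [hN, mem_filter, mem_range]
      omega
    rw [← Finset.sum_fiberwise_of_maps_to hmaps, Finset.mul_sum]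
    refine Finset.sum_le_sum (fun n hn => ?_)
    have h2 : ∑ x ∈ (S ×ˢ S).filter (fun x => x.1 + x.2 = n), kap μ U ((x.1 + x.2) • α - β)
        = ((S ×ˢ S).filter (fun x => x.1 + x.2 = n)).card * kap μ U (n • α - β) := by
      rw [← nsmul_eq_mul, ← Finset.sum_const]
      refine Finset.sum_congr rfl (fun x hx => ?_)
      rw [mem_filter] at hx
      rw [hx.2]
    rw [h2]
    by_cases hk : kap μ U (n • α - β) = 0
    · simp [hk]
    · refine mul_le_mul_of_nonneg_right ?_ (kap_nonneg μ U _)
      obtain ⟨u, hu, v, hv, huv⟩ := kap_ne_zero μ hk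
      by_cases hc : ((S ×ˢ S).filter (fun x => x.1 + x.2 = n)).card = 0
      · rw [hc]; simpa using hM0
      · have : ((S ×ˢ S).filter (fun x => x.1 + x.2 = n)).Nonempty := by
          rw [← Finset.card_pos]; omega
        obtain ⟨x, hx⟩ := this
        rw [mem_filter, mem_product] at hx
        obtain ⟨p1, p2, p3⟩ := hS _ hx.1.1
        obtain ⟨q1, q2, q3⟩ := hS _ hx.1.2
        have hp : Odd x.1 := p1.odd_of_ne_two (by omega)
        have hq : Odd x.2 := q1.odd_of_ne_two (by omega)
        have hev : Even n := by rw [← hx.2]; exact hp.add_odd hq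
        refine (Nat.cast_le.mpr (rep_le S (fun p hp => (hS p hp).1) n)).trans ?_
        refine hM n hev (by omega) (by omega) (by omega) ⟨u, hu, v, hv, ?_⟩
        have huv' : u + v = n • α - β := huv
        rw [add_assoc, huv']; abel
  -- lower bound for the integer correlation
  have h2 : (Y / 2 : ℝ) * ∑ n ∈ N, kap μ U (n • α - β)
      ≤ ∫ θ, F (range (2 * Y + 1)) U α θ * F (range (2 * Y + 1)) U α (β - θ) ∂μ := by
    rw [corr_eq μ hU, ← Finset.sum_product']
    have hsub : N.biUnion (fun n => antidiagonal n) ⊆ (range (2 * Y + 1)) ×ˢ (range (2 * Y + 1)) := by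
      intro x hx
      rw [mem_biUnion] at hx
      obtain ⟨n, hn, hx⟩ := hx
      rw [HasAntidiagonal.mem_antidiagonal] at hx
      rw [hN, mem_filter, mem_range] at hn
      rw [mem_product, mem_range, mem_range]
      omega
    refine le_trans ?_ (Finset.sum_le_sum_of_subset_of_nonneg hsub
      (fun x _ _ => kap_nonneg μ U _))
    rw [Finset.sum_biUnion]
    · rw [Finset.mul_sum]
      refine Finset.sum_le_sum (fun n hn => ?_)
      have h3 : ∑ x ∈ antidiagonal n, kap μ U ((x.1 + x.2) • α - β)
          = (n + 1 : ℕ) * kap μ U (n • α - β) := by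
        rw [← nsmul_eq_mul, ← Finset.Nat.card_antidiagonal, ← Finset.sum_const]
        refine Finset.sum_congr rfl (fun x hx => ?_)
        rw [HasAntidiagonal.mem_antidiagonal] at hx
        rw [hx]
      rw [h3]
      refine mul_le_mul_of_nonneg_right ?_ (kap_nonneg μ U _)
      rw [hN, mem_filter, mem_range] at hn
      have : (Y : ℝ) < 2 * n := by exact_mod_cast hn.2
      push_cast
      linarith
    · intro a _ b _ hab
      rw [Function.onFun, Finset.disjoint_left]
      intro x hx hy
      rw [HasAntidiagonal.mem_antidiagonal] at hx hy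
      exact hab (hx.symm.trans hy)
  have h3 := corr_ge μ hU S α β
  have h4 := corr_le μ hU (range (2 * Y + 1)) α β
  rw [card_range] at h4
  set K : ℝ := ∑ n ∈ N, kap μ U (n • α - β) with hK
  have hK0 : 0 ≤ K := Finset.sum_nonneg (fun n _ => kap_nonneg μ U _)
  push_cast at h4
  set m : ℝ := μ.real U with hm
  have hYr : (8 : ℝ) ≤ Y := by exact_mod_cast hY
  have h5 : (Y / 2 : ℝ) * K < 2 * ((2 * Y + 1) * m) ^ 2 := by linarith
  have h6 : (S.card * m) ^ 2 / 2 < M * K := by linarith
  -- combine
  have h7 : (2 * (Y : ℝ) + 1) ^ 2 ≤ 9 * Y ^ 2 := by nlinarith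
  have h8 : (Y : ℝ) * K < 36 * Y ^ 2 * m ^ 2 := by
    have : 2 * ((2 * (Y : ℝ) + 1) * m) ^ 2 ≤ 2 * (9 * Y ^ 2 * m ^ 2) := by
      rw [mul_pow]
      have := mul_le_mul_of_nonneg_right h7 (sq_nonneg m)
      linarith
    linarith
  have h9 : K < 36 * Y * m ^ 2 := by
    have : (Y : ℝ) * K < Y * (36 * Y * m ^ 2) := by
      calc (Y : ℝ) * K < 36 * Y ^ 2 * m ^ 2 := h8
        _ = Y * (36 * Y * m ^ 2) := by ring
    exact lt_of_mul_lt_mul_left this (by positivity)
  have h10 : M * K ≤ M * (36 * Y * m ^ 2) := mul_le_mul_of_nonneg_left h9.le hM0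
  have h11 : M * (36 * Y * m ^ 2) ≤ (S.card : ℝ) ^ 2 * m ^ 2 / 2 := by
    have := mul_le_mul_of_nonneg_right hMc (sq_nonneg m)
    nlinarith
  have h12 : (S.card * m) ^ 2 / 2 = (S.card : ℝ) ^ 2 * m ^ 2 / 2 := by ring
  linarith

end Group

end Pool.Agent.Lib.MP_dd84fd_nt.Bohr
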