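import Mathlib

/-!
# Random linear images of arbitrary sets: a second moment argument

`A ⊆ ℤ/q` arbitrary, `S ⊆ (ℤ/q)^k` arbitrary. For all but few `l ∈ (ℤ/q)^k`, every translate of
`{l·s : s ∈ S}` receives about the expected number of sums `p₁ + p₂`, `p₁, p₂ ∈ A`.
-/

set_option autoImplicit false

namespace Pool.Agent.Lib.MP_dd84fd_nt.Dilates

open Finset

variable {q : ℕ} [Fact q.Prime] {k : ℕ}

/-- scalar product -/
def dot (l s : Fin k → ZMod q) : ZMod q := ∑ i, l i * s i

theorem dot_sub (l s t : Fin k → ZMod q) : dot l (s - t) = dot l s - dot l t := by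
  simp [dot, mul_sub, Finset.sum_sub_distrib]

theorem card_pi : Fintype.card (Fin k → ZMod q) = q ^ k := by
  simp [ZMod.card]

/-- The values of a nonzero linear form are equidistributed. -/
theorem fiber (u : Fin k → ZMod q) (hu : u ≠ 0) (z : ZMod q) :
    (q : ℝ) * ((univ.filter (fun l : Fin k → ZMod q => dot l u = z)).card : ℝ) = (q : ℝ) ^ k := by
  classical
  obtain ⟨i, hi⟩ : ∃ i, u i ≠ 0 := by
    by_contra h
    push Not at h
    exact hu (funext h)
  have hval : ∀ (l : Fin k → ZMod q) (t : ZMod q),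
      dot (l + Pi.single i (t / u i)) u = dot l u + t := by
    intro l t
    simp only [dot, Pi.add_apply, add_mul, Finset.sum_add_distrib]
    congr 1
    rw [Finset.sum_eq_single i]
    · rw [Pi.single_eq_same, div_mul_cancel₀ _ hi]
    · intro j _ hj
      rw [Pi.single_eq_of_ne hj, zero_mul]
    · simp
  have hfib : ∀ z' : ZMod q, (univ.filter (fun l : Fin k → ZMod q => dot l u = z')).card =
      (univ.filter (fun l : Fin k → ZMod q => dot l u = z)).card := by
    intro z'
    refine Finset.card_bij (fun l _ => l + Pi.single i ((z - z') / u i)) ?_ ?_ ?_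
    · intro l hl
      simp only [mem_filter, mem_univ, true_and] at hl ⊢
      rw [hval, hl]; ring
    · intro a _ b _ h
      exact add_right_cancel h
    · intro l hl
      simp only [mem_filter, mem_univ, true_and] at hl
      refine ⟨l + Pi.single i ((z' - z) / u i), ?_, ?_⟩
      · simp only [mem_filter, mem_univ, true_and]
        rw [hval, hl]; ring
      · rw [add_assoc, ← Pi.single_add, ← add_div]
        simp
  have htot : ∑ z' : ZMod q, (univ.filter (fun l : Fin k → ZMod q => dot l u = z')).card =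
      q ^ k := by
    rw [← card_pi (q := q) (k := k), ← Finset.card_univ]
    exact (Finset.card_eq_sum_card_fiberwise (fun l _ => mem_univ (dot l u))).symm
  rw [Finset.sum_congr rfl (fun z' _ => hfib z'), Finset.sum_const, Finset.card_univ, ZMod.card,
    smul_eq_mul] at htot
  exact_mod_cast htot

/-- number of representations `x = p₁ + p₂` in `A` -/
def rep (A : Finset (ZMod q)) (x : ZMod q) : ℝ := ∑ p ∈ A, if x - p ∈ A then 1 else 0

/-- number of `(s, p)` with `p - l·s = y` -/
def cc (A : Finset (ZMod q)) (S : Finset (Fin k → ZMod q)) (l : Fin k → ZMod q) (y : ZMod q) : ℝ :=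
  ∑ s ∈ S, if y + dot l s ∈ A then 1 else 0

theorem sum_cc (A : Finset (ZMod q)) (S : Finset (Fin k → ZMod q)) (l : Fin k → ZMod q) :
    ∑ y, cc A S l y = S.card * A.card := by
  classical
  unfold cc
  rw [Finset.sum_comm]
  have : ∀ s ∈ S, ∑ y : ZMod q, (if y + dot l s ∈ A then (1 : ℝ) else 0) = A.card := by
    intro s _
    rw [Fintype.sum_equiv (Equiv.addRight (dot l s)) (fun y => if y + dot l s ∈ A then (1 : ℝ) else 0)
      (fun y => if y ∈ A then (1 : ℝ) else 0) (fun y => rfl)]
    simp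
  rw [Finset.sum_congr rfl this, Finset.sum_const, nsmul_eq_mul]

theorem rep_sum (A : Finset (ZMod q)) (S : Finset (Fin k → ZMod q)) (l : Fin k → ZMod q)
    (b : ZMod q) : ∑ s ∈ S, rep A (b + dot l s) = ∑ p ∈ A, cc A S l (b - p) := by
  unfold rep cc
  rw [Finset.sum_comm]
  refine Finset.sum_congr rfl fun p _ => Finset.sum_congr rfl fun s _ => ?_
  congr 2
  ring

/-- the variance -/
noncomputable def VV (A : Finset (ZMod q)) (S : Finset (Fin k → ZMod q)) (l : Fin k → ZMod q) : ℝ :=
  ∑ y, (cc A S l y - S.card * A.card / q) ^ 2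

theorem VV_eq (A : Finset (ZMod q)) (S : Finset (Fin k → ZMod q)) (l : Fin k → ZMod q) :
    VV A S l = ∑ y, cc A S l y ^ 2 - (S.card * A.card) ^ 2 / q := by
  have hq : (q : ℝ) ≠ 0 := by
    exact_mod_cast (Fact.out : q.Prime).ne_zero
  unfold VV
  have h : ∀ y, (cc A S l y - S.card * A.card / q) ^ 2 = cc A S l y ^ 2
      - 2 * (S.card * A.card / q) * cc A S l y + (S.card * A.card / q) ^ 2 := by
    intro y; ring
  rw [Finset.sum_congr rfl (fun y _ => h y), Finset.sum_add_distrib, Finset.sum_sub_distrib,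
    ← Finset.mul_sum, sum_cc, Finset.sum_const, Finset.card_univ, ZMod.card, nsmul_eq_mul]
  field_simp
  ring

/-- For every translate, the deviation is controlled by the variance. -/
theorem dev (A : Finset (ZMod q)) (S : Finset (Fin k → ZMod q)) (l : Fin k → ZMod q)
    (b : ZMod q) :
    (∑ s ∈ S, rep A (b + dot l s) - S.card * A.card ^ 2 / q) ^ 2 ≤ A.card * VV A S l := by
  have h1 : ∑ s ∈ S, rep A (b + dot l s) - S.card * A.card ^ 2 / q =
      ∑ p ∈ A, (cc A S l (b - p) - S.card * A.card / q) := by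
    rw [rep_sum, Finset.sum_sub_distrib, Finset.sum_const, nsmul_eq_mul]
    ring
  rw [h1]
  refine (sq_sum_le_card_mul_sum_sq (s := A)).trans ?_
  refine mul_le_mul_of_nonneg_left ?_ (Nat.cast_nonneg _)
  unfold VV
  rw [← Fintype.sum_equiv (Equiv.subLeft b)
    (fun p => (cc A S l (b - p) - S.card * A.card / q) ^ 2) _ (fun p => rfl)]
  exact Finset.sum_le_univ_sum_of_nonneg (fun _ => sq_nonneg _)

theorem sum_sq_cc (A : Finset (ZMod q)) (S : Finset (Fin k → ZMod q)) (l : Fin k → ZMod q) :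
    ∑ y, cc A S l y ^ 2 = ∑ s ∈ S, ∑ t ∈ S, ∑ y,
      (if y + dot l s ∈ A then (1 : ℝ) else 0) * (if y + dot l t ∈ A then 1 else 0) := by
  unfold cc
  have : ∀ y : ZMod q, (∑ s ∈ S, if y + dot l s ∈ A then (1 : ℝ) else 0) ^ 2 =
      ∑ s ∈ S, ∑ t ∈ S, (if y + dot l s ∈ A then (1 : ℝ) else 0) *
        (if y + dot l t ∈ A then 1 else 0) := by
    intro y
    rw [sq, Finset.sum_mul_sum]
  rw [Finset.sum_congr rfl (fun y _ => this y), Finset.sum_comm]
  refine Finset.sum_congr rfl fun s _ => ?_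
  rw [Finset.sum_comm]

/-- number of pairs in `A` with difference `x` -/
def dif (A : Finset (ZMod q)) (x : ZMod q) : ℝ := ∑ p ∈ A, if p + x ∈ A then 1 else 0

theorem pair_sum (A : Finset (ZMod q)) (l s t : Fin k → ZMod q) :
    ∑ y, (if y + dot l s ∈ A then (1 : ℝ) else 0) * (if y + dot l t ∈ A then 1 else 0) =
      dif A (dot l (t - s)) := by
  classical
  rw [Fintype.sum_equiv (Equiv.addRight (dot l s))
    (fun y => (if y + dot l s ∈ A then (1 : ℝ) else 0) * (if y + dot l t ∈ A then 1 else 0))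
    (fun y => if y ∈ A then (if y + dot l (t - s) ∈ A then (1 : ℝ) else 0) else 0)
    (fun y => by
      show _ = (if y + dot l s ∈ A then (if y + dot l s + dot l (t - s) ∈ A then (1 : ℝ) else 0)
        else 0)
      rw [dot_sub, show y + dot l s + (dot l t - dot l s) = y + dot l t by ring]
      split_ifs <;> simp)]
  unfold dif
  rw [← Finset.sum_filter]
  refine Finset.sum_congr ?_ fun _ _ => rfl
  ext; simp

theorem sum_dif (A : Finset (ZMod q)) : ∑ x, dif A x = (A.card : ℝ) ^ 2 := by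
  classical
  unfold dif
  rw [Finset.sum_comm]
  have : ∀ p ∈ A, ∑ x : ZMod q, (if p + x ∈ A then (1 : ℝ) else 0) = A.card := by
    intro p _
    rw [Fintype.sum_equiv (Equiv.addLeft p) (fun x => if p + x ∈ A then (1 : ℝ) else 0)
      (fun x => if x ∈ A then (1 : ℝ) else 0) (fun _ => rfl)]
    simp
  rw [Finset.sum_congr rfl this, Finset.sum_const, nsmul_eq_mul, sq]

theorem dif_nonneg (A : Finset (ZMod q)) (x : ZMod q) : 0 ≤ dif A x :=
  Finset.sum_nonneg fun _ _ => by split_ifs <;> norm_num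

theorem dif_zero (A : Finset (ZMod q)) : dif A 0 = A.card := by
  unfold dif
  simp

/-- averaging over `l` -/
theorem avg_dif (A : Finset (ZMod q)) (u : Fin k → ZMod q) (hu : u ≠ 0) :
    (q : ℝ) * ∑ l : Fin k → ZMod q, dif A (dot l u) = (q : ℝ) ^ k * (A.card : ℝ) ^ 2 := by
  classical
  have h1 : ∑ l : Fin k → ZMod q, dif A (dot l u) =
      ∑ z : ZMod q, ((univ.filter (fun l : Fin k → ZMod q => dot l u = z)).card : ℝ) * dif A z := by
    rw [← Finset.sum_fiberwise (s := univ) (g := fun l : Fin k → ZMod q => dot l u)]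
    refine Finset.sum_congr rfl fun z _ => ?_
    rw [Finset.sum_congr rfl (g := fun _ => dif A z) (fun l hl => by
      rw [(mem_filter.1 hl).2]), Finset.sum_const, nsmul_eq_mul]
  rw [h1, Finset.mul_sum]
  have h2 : ∀ z : ZMod q, (q : ℝ) *
      (((univ.filter (fun l : Fin k → ZMod q => dot l u = z)).card : ℝ) * dif A z) =
      (q : ℝ) ^ k * dif A z := by
    intro z
    rw [← mul_assoc, fiber u hu z]
  rw [Finset.sum_congr rfl (fun z _ => h2 z), ← Finset.mul_sum, sum_dif]

/-- the mean of the variance -/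
theorem sum_VV (A : Finset (ZMod q)) (S : Finset (Fin k → ZMod q)) :
    ∑ l, VV A S l ≤ (q : ℝ) ^ k * (S.card * A.card) := by
  classical
  have hq : (0 : ℝ) < q := by
    exact_mod_cast (Fact.out : q.Prime).pos
  have h1 : ∀ l : Fin k → ZMod q, VV A S l =
      ∑ s ∈ S, ∑ t ∈ S, dif A (dot l (t - s)) - (S.card * A.card) ^ 2 / q := by
    intro l
    rw [VV_eq, sum_sq_cc]
    congr 1
    exact Finset.sum_congr rfl fun s _ => Finset.sum_congr rfl fun t _ => pair_sum A l s t
  rw [Finset.sum_congr rfl (fun l _ => h1 l), Finset.sum_sub_distrib, Finset.sum_comm,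
    Finset.sum_const, Finset.card_univ, card_pi, nsmul_eq_mul]
  push_cast
  have h2 : ∀ s ∈ S, ∑ l : Fin k → ZMod q, ∑ t ∈ S, dif A (dot l (t - s)) ≤
      (q : ℝ) ^ k * A.card + (q : ℝ) ^ k * (S.card * (A.card : ℝ) ^ 2) / q := by
    intro s hs
    rw [Finset.sum_comm]
    have h3 : ∀ t ∈ S, ∑ l : Fin k → ZMod q, dif A (dot l (t - s)) ≤
        (if t = s then (q : ℝ) ^ k * A.card else 0) + (q : ℝ) ^ k * (A.card : ℝ) ^ 2 / q := by
      intro t _
      by_cases hts : t = s
      · subst hts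
        rw [if_pos rfl, sub_self]
        have : ∀ l : Fin k → ZMod q, dif A (dot l 0) = A.card := by
          intro l
          rw [show dot l (0 : Fin k → ZMod q) = 0 by simp [dot], dif_zero]
        rw [Finset.sum_congr rfl (fun l _ => this l), Finset.sum_const, Finset.card_univ, card_pi,
          nsmul_eq_mul]
        push_cast
        have : (0 : ℝ) ≤ (q : ℝ) ^ k * (A.card : ℝ) ^ 2 / q := by positivity
        linarith
      · rw [if_neg hts, zero_add, le_div_iff₀ hq, mul_comm]
        exact (avg_dif A (t - s) (sub_ne_zero.2 hts)).le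
    refine (Finset.sum_le_sum h3).trans ?_
    rw [Finset.sum_add_distrib, Finset.sum_const, nsmul_eq_mul, Finset.sum_ite_eq', if_pos hs]
    exact le_of_eq (by ring)
  have h4 := Finset.sum_le_sum h2
  rw [Finset.sum_const, nsmul_eq_mul] at h4
  have h5 : (S.card : ℝ) * ((q : ℝ) ^ k * A.card + (q : ℝ) ^ k * (S.card * (A.card : ℝ) ^ 2) / q) -
      (q : ℝ) ^ k * ((S.card * A.card) ^ 2 / q) = (q : ℝ) ^ k * (S.card * A.card) := by
    field_simp
    ring
  linarith

/-- **Random linear images.** -/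
theorem few_bad (A : Finset (ZMod q)) (hA : A.Nonempty) (S : Finset (Fin k → ZMod q))
    (hS : S.Nonempty) :
    ((univ.filter (fun l : Fin k → ZMod q => ∃ b : ZMod q,
      ∑ s ∈ S, rep A (b + dot l s) < S.card * (A.card : ℝ) ^ 2 / q / 2)).card : ℝ) *
      (S.card * (A.card : ℝ) ^ 2) ≤ 4 * (q : ℝ) ^ (k + 2) := by
  classical
  have hq : (0 : ℝ) < q := by
    exact_mod_cast (Fact.out : q.Prime).pos
  have ha : (0 : ℝ) < A.card := by exact_mod_cast hA.card_pos
  have hs : (0 : ℝ) < S.card := by exact_mod_cast hS.card_pos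
  set B := univ.filter (fun l : Fin k → ZMod q => ∃ b : ZMod q,
      ∑ s ∈ S, rep A (b + dot l s) < S.card * (A.card : ℝ) ^ 2 / q / 2) with hB
  have hV : ∀ l ∈ B, (S.card * (A.card : ℝ) ^ 2 / q / 2) ^ 2 / A.card ≤ VV A S l := by
    intro l hl
    obtain ⟨b, hb⟩ := (mem_filter.1 hl).2
    rw [div_le_iff₀ ha, mul_comm (VV A S l)]
    refine le_trans ?_ (dev A S l b)
    have h0 : 0 < S.card * (A.card : ℝ) ^ 2 / q / 2 := by positivity
    have h1 : S.card * (A.card : ℝ) ^ 2 / q / 2 ≤
        S.card * (A.card : ℝ) ^ 2 / q - ∑ s ∈ S, rep A (b + dot l s) := by linarith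
    rw [← neg_sub (S.card * (A.card : ℝ) ^ 2 / q), neg_sq]
    exact pow_le_pow_left₀ h0.le h1 2
  have h1 := Finset.sum_le_sum hV
  rw [Finset.sum_const, nsmul_eq_mul] at h1
  have h2 : ∑ l ∈ B, VV A S l ≤ ∑ l, VV A S l :=
    Finset.sum_le_univ_sum_of_nonneg (fun l => Finset.sum_nonneg fun _ _ => sq_nonneg _)
  have h3 := h1.trans (h2.trans (sum_VV A S))
  have e1 : (B.card : ℝ) * ((S.card * (A.card : ℝ) ^ 2 / q / 2) ^ 2 / A.card) =
      ((B.card : ℝ) * (S.card * (A.card : ℝ) ^ 2)) * (S.card * A.card / (4 * q ^ 2)) := by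
    field_simp
    ring
  rw [e1] at h3
  have e2 : (q : ℝ) ^ k * (S.card * A.card) =
      (4 * (q : ℝ) ^ (k + 2)) * (S.card * A.card / (4 * q ^ 2)) := by
    rw [pow_add]
    field_simp
  rw [e2] at h3
  exact le_of_mul_le_mul_right h3 (by positivity)

end Pool.Agent.Lib.MP_dd84fd_nt.Dilates
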