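import Mathlib

set_option autoImplicit false

namespace Pool.Agent.Lib.MP_dd84fd_nt.LargeSieve

open Finset MeasureTheory intervalIntegral

/-- cosine part -/
noncomputable def Cc (A : Finset ℕ) (a : ℕ → ℝ) (x : ℝ) : ℝ :=
  ∑ n ∈ A, a n * Real.cos (2 * Real.pi * n * x)

/-- sine part -/
noncomputable def Ds (A : Finset ℕ) (a : ℕ → ℝ) (x : ℝ) : ℝ :=
  ∑ n ∈ A, a n * Real.sin (2 * Real.pi * n * x)

/-- square modulus of the exponential sum -/
noncomputable def Fs (A : Finset ℕ) (a : ℕ → ℝ) (x : ℝ) : ℝ := Cc A a x ^ 2 + Ds A a x ^ 2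

theorem Fs_nonneg (A : Finset ℕ) (a : ℕ → ℝ) (x : ℝ) : 0 ≤ Fs A a x := by
  unfold Fs; positivity

theorem Fs_eq (A : Finset ℕ) (a : ℕ → ℝ) (x : ℝ) :
    Fs A a x = ∑ m ∈ A, ∑ n ∈ A, a m * a n * Real.cos (2 * Real.pi * ((m : ℝ) - n) * x) := by
  unfold Fs Cc Ds
  rw [sq, sq, Finset.sum_mul_sum, Finset.sum_mul_sum, ← Finset.sum_add_distrib]
  refine Finset.sum_congr rfl (fun m _ => ?_)
  rw [← Finset.sum_add_distrib]
  refine Finset.sum_congr rfl (fun n _ => ?_)
  rw [show 2 * Real.pi * ((m : ℝ) - n) * x = 2 * Real.pi * m * x - 2 * Real.pi * n * x by ring,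
    Real.cos_sub]
  ring

theorem int_cos (k : ℤ) (hk : k ≠ 0) : ∫ x in (0 : ℝ)..1, Real.cos (2 * Real.pi * k * x) = 0 := by
  have hc : (2 * Real.pi * (k : ℝ)) ≠ 0 := by
    have : (k : ℝ) ≠ 0 := by exact_mod_cast hk
    have := Real.pi_pos
    positivity
  rw [intervalIntegral.integral_comp_mul_left (fun x => Real.cos x) hc]
  simp only [mul_zero, mul_one, integral_cos, Real.sin_zero, sub_zero, smul_eq_mul]
  have : Real.sin (2 * Real.pi * k) = 0 := by
    rw [show 2 * Real.pi * (k : ℝ) = ((2 * k : ℤ) : ℝ) * Real.pi by push_cast; ring]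
    exact Real.sin_int_mul_pi _
  rw [this, mul_zero]

theorem int_Fs (A : Finset ℕ) (a : ℕ → ℝ) : ∫ x in (0 : ℝ)..1, Fs A a x = ∑ n ∈ A, a n ^ 2 := by
  simp_rw [Fs_eq]
  rw [intervalIntegral.integral_finsetSum]
  · refine Finset.sum_congr rfl (fun m hm => ?_)
    rw [intervalIntegral.integral_finsetSum]
    · rw [Finset.sum_eq_single_of_mem m hm]
      · simp [sq]
      · intro n _ hnm
        rw [intervalIntegral.integral_const_mul]
        have h := int_cos ((m : ℤ) - n) (by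
          intro h
          apply hnm
          have : (m : ℤ) = n := by linarith
          exact_mod_cast this.symm)
        push_cast at h
        rw [h, mul_zero]
    · intro n _
      exact (by fun_prop : Continuous _).intervalIntegrable _ _
  · intro m _
    exact (by fun_prop : Continuous _).intervalIntegrable _ _

theorem Cc_cont (A : Finset ℕ) (a : ℕ → ℝ) : Continuous (Cc A a) := by unfold Cc; fun_prop
theorem Ds_cont (A : Finset ℕ) (a : ℕ → ℝ) : Continuous (Ds A a) := by unfold Ds; fun_prop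
theorem Fs_cont (A : Finset ℕ) (a : ℕ → ℝ) : Continuous (Fs A a) := by
  unfold Fs; exact ((Cc_cont A a).pow 2).add ((Ds_cont A a).pow 2)

/-- the derivative of `Fs` -/
noncomputable def Fd (A : Finset ℕ) (a : ℕ → ℝ) (x : ℝ) : ℝ :=
  2 * (Cc A a x * -(Ds A (fun n => 2 * Real.pi * n * a n) x)
    + Ds A a x * Cc A (fun n => 2 * Real.pi * n * a n) x)

theorem Fd_cont (A : Finset ℕ) (a : ℕ → ℝ) : Continuous (Fd A a) := by
  unfold Fd
  have := Cc_cont A a
  have := Ds_cont A a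
  have := Cc_cont A (fun n => 2 * Real.pi * n * a n)
  have := Ds_cont A (fun n => 2 * Real.pi * n * a n)
  fun_prop

theorem Cc_deriv (A : Finset ℕ) (a : ℕ → ℝ) (x : ℝ) :
    HasDerivAt (Cc A a) (-(Ds A (fun n => 2 * Real.pi * n * a n) x)) x := by
  unfold Cc Ds
  rw [← Finset.sum_neg_distrib]
  refine HasDerivAt.fun_sum (fun n _ => ?_)
  have h1 : HasDerivAt (fun x : ℝ => 2 * Real.pi * n * x) (2 * Real.pi * n) x := by
    simpa using (hasDerivAt_id x).const_mul (2 * Real.pi * n)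
  have h2 := (h1.cos).const_mul (a n)
  refine h2.congr_deriv ?_
  ring

theorem Ds_deriv (A : Finset ℕ) (a : ℕ → ℝ) (x : ℝ) :
    HasDerivAt (Ds A a) (Cc A (fun n => 2 * Real.pi * n * a n) x) x := by
  unfold Cc Ds
  refine HasDerivAt.fun_sum (fun n _ => ?_)
  have h1 : HasDerivAt (fun x : ℝ => 2 * Real.pi * n * x) (2 * Real.pi * n) x := by
    simpa using (hasDerivAt_id x).const_mul (2 * Real.pi * n)
  have h2 := (h1.sin).const_mul (a n)
  refine h2.congr_deriv ?_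
  ring

theorem Fs_deriv (A : Finset ℕ) (a : ℕ → ℝ) (x : ℝ) : HasDerivAt (Fs A a) (Fd A a x) x := by
  have h1 := ((Cc_deriv A a x).pow 2).add ((Ds_deriv A a x).pow 2)
  have h2 : Fs A a = Cc A a ^ 2 + Ds A a ^ 2 := by funext y; simp [Fs]
  rw [← h2] at h1
  refine h1.congr_deriv ?_
  unfold Fd
  simp
  ring

/-- `∫|F'| ≤ 4 π N ∑ a²`. -/
theorem int_Fd (A : Finset ℕ) (a : ℕ → ℝ) (N : ℝ) (hN : 0 < N) (hA : ∀ n ∈ A, (n : ℝ) ≤ N) :
    ∫ x in (0 : ℝ)..1, |Fd A a x| ≤ 4 * Real.pi * N * ∑ n ∈ A, a n ^ 2 := by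
  set b : ℕ → ℝ := fun n => 2 * Real.pi * n * a n with hb
  set L : ℝ := 2 * Real.pi * N with hL
  have hpi := Real.pi_pos
  have hL0 : 0 < L := by positivity
  have h1 : ∀ x, |Fd A a x| ≤ L * Fs A a x + L⁻¹ * Fs A b x := by
    intro x
    unfold Fd Fs
    rw [← hb]
    set c := Cc A a x
    set d := Ds A a x
    set c' := Cc A b x
    set d' := Ds A b x
    have h2 : L⁻¹ * L = 1 := inv_mul_cancel₀ hL0.ne'
    have hLi : 0 < L⁻¹ := inv_pos.mpr hL0
    rw [abs_le]
    constructor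
    · have := mul_nonneg hLi.le (add_nonneg (sq_nonneg (L * c - d')) (sq_nonneg (L * d + c')))
      have e : L⁻¹ * ((L * c - d') ^ 2 + (L * d + c') ^ 2)
        = (L⁻¹ * L) * (L * (c ^ 2 + d ^ 2)) + (L⁻¹ * L) * (2 * (c * -d' + d * c')) + L⁻¹ * (c' ^ 2 + d' ^ 2) := by
          ring
      rw [e, h2] at this
      linarith
    · have := mul_nonneg hLi.le (add_nonneg (sq_nonneg (L * c + d')) (sq_nonneg (L * d - c')))
      have e : L⁻¹ * ((L * c + d') ^ 2 + (L * d - c') ^ 2)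
        = (L⁻¹ * L) * (L * (c ^ 2 + d ^ 2)) - (L⁻¹ * L) * (2 * (c * -d' + d * c')) + L⁻¹ * (c' ^ 2 + d' ^ 2) := by
          ring
      rw [e, h2] at this
      linarith
  have hi1 : IntervalIntegrable (fun x => |Fd A a x|) volume 0 1 :=
    ((Fd_cont A a).abs).intervalIntegrable _ _
  have hi2 : IntervalIntegrable (fun x => L * Fs A a x) volume 0 1 :=
    ((Fs_cont A a).const_mul L).intervalIntegrable _ _
  have hi3 : IntervalIntegrable (fun x => L⁻¹ * Fs A b x) volume 0 1 :=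
    ((Fs_cont A b).const_mul _).intervalIntegrable _ _
  have h3 : ∫ x in (0 : ℝ)..1, |Fd A a x| ≤ ∫ x in (0 : ℝ)..1, (L * Fs A a x + L⁻¹ * Fs A b x) :=
    intervalIntegral.integral_mono (by norm_num) hi1 (hi2.add hi3) h1
  refine h3.trans ?_
  rw [intervalIntegral.integral_add hi2 hi3, intervalIntegral.integral_const_mul,
    intervalIntegral.integral_const_mul, int_Fs, int_Fs]
  have h4 : ∑ n ∈ A, b n ^ 2 ≤ L ^ 2 * ∑ n ∈ A, a n ^ 2 := by
    rw [Finset.mul_sum]
    refine Finset.sum_le_sum (fun n hn => ?_)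
    have h5 : (n : ℝ) ≤ N := hA n hn
    have h6 : (0 : ℝ) ≤ n := Nat.cast_nonneg n
    have h7 : (n : ℝ) ^ 2 ≤ N ^ 2 := pow_le_pow_left₀ h6 h5 2
    calc b n ^ 2 = (2 * Real.pi) ^ 2 * (n : ℝ) ^ 2 * a n ^ 2 := by rw [hb]; ring
      _ ≤ (2 * Real.pi) ^ 2 * N ^ 2 * a n ^ 2 := by
          refine mul_le_mul_of_nonneg_right ?_ (sq_nonneg _)
          exact mul_le_mul_of_nonneg_left h7 (by positivity)
      _ = L ^ 2 * a n ^ 2 := by rw [hL]; ring
  calc L * ∑ n ∈ A, a n ^ 2 + L⁻¹ * ∑ n ∈ A, b n ^ 2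
      ≤ L * ∑ n ∈ A, a n ^ 2 + L⁻¹ * (L ^ 2 * ∑ n ∈ A, a n ^ 2) := by
        have := mul_le_mul_of_nonneg_left h4 (inv_nonneg.mpr hL0.le)
        linarith
    _ = 4 * Real.pi * N * ∑ n ∈ A, a n ^ 2 := by
        rw [hL]; field_simp; ring

/-- Gallagher's lemma (weak form). -/
theorem gallagher (F F' : ℝ → ℝ) (hF : Continuous F) (hF' : Continuous F')
    (hd : ∀ x, HasDerivAt F (F' x) x) (x δ : ℝ) (hδ : 0 < δ) :
    F x ≤ δ⁻¹ * (∫ y in (x - δ / 2)..(x + δ / 2), F y) + ∫ y in (x - δ / 2)..(x + δ / 2), |F' y| := by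
  have hle : x - δ / 2 ≤ x + δ / 2 := by linarith
  obtain ⟨y, hy, hmin⟩ := isCompact_Icc.exists_isMinOn (Set.nonempty_Icc.mpr hle)
    (hF.continuousOn (s := Set.Icc (x - δ / 2) (x + δ / 2)))
  have h1 : δ * F y ≤ ∫ y in (x - δ / 2)..(x + δ / 2), F y := by
    have h2 : ∫ z in (x - δ / 2)..(x + δ / 2), F y ≤ ∫ z in (x - δ / 2)..(x + δ / 2), F z := by
      refine intervalIntegral.integral_mono_on hle (by simp) (hF.intervalIntegrable _ _) ?_
      intro z hz
      exact hmin hz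
    rw [intervalIntegral.integral_const] at h2
    simp only [smul_eq_mul] at h2
    calc δ * F y = (x + δ / 2 - (x - δ / 2)) * F y := by ring
      _ ≤ _ := h2
  have h3 : F x - F y = ∫ z in y..x, F' z := by
    rw [intervalIntegral.integral_eq_sub_of_hasDerivAt (fun z _ => hd z)
      (hF'.intervalIntegrable _ _)]
  have h4 : |∫ z in y..x, F' z| ≤ ∫ y in (x - δ / 2)..(x + δ / 2), |F' y| := by
    have hno := intervalIntegral.norm_integral_le_abs_integral_norm (f := F') (a := y) (b := x)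
      (μ := volume)
    simp only [Real.norm_eq_abs] at hno
    refine hno.trans ?_
    have hnn : 0 ≤ ∫ y in (x - δ / 2)..(x + δ / 2), |F' y| :=
      intervalIntegral.integral_nonneg hle (fun _ _ => abs_nonneg _)
    rw [← abs_of_nonneg hnn]
    refine intervalIntegral.abs_integral_mono_interval ?_ ?_ ?_
    · rw [Set.uIoc_of_le hle]
      intro z hz
      rw [Set.mem_uIoc] at hz
      rw [Set.mem_Ioc]
      rcases hz with hz | hz
      · exact ⟨by linarith [hy.1], by linarith [hz.2]⟩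
      · exact ⟨by linarith [hz.1], by linarith [hy.2]⟩
    · exact Filter.Eventually.of_forall (fun _ => abs_nonneg _)
    · exact (hF'.abs).intervalIntegrable _ _
  have h5 : F x ≤ F y + |∫ z in y..x, F' z| := by
    have := le_abs_self (∫ z in y..x, F' z)
    linarith
  have h6 : F y ≤ δ⁻¹ * ∫ y in (x - δ / 2)..(x + δ / 2), F y := by
    rw [← div_eq_inv_mul, le_div_iff₀ hδ]; linarith
  linarith

/-- The large sieve inequality for well spaced points of `(0,1)`. -/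
theorem large_sieve {ι : Type*} [DecidableEq ι] (I : Finset ι) (x : ι → ℝ) (δ : ℝ) (hδ : 0 < δ)
    (h0 : ∀ i ∈ I, δ / 2 ≤ x i) (h1 : ∀ i ∈ I, x i ≤ 1 - δ / 2)
    (hsp : ∀ i ∈ I, ∀ j ∈ I, i ≠ j → δ ≤ |x i - x j|)
    (A : Finset ℕ) (a : ℕ → ℝ) (N : ℝ) (hN : 0 < N) (hA : ∀ n ∈ A, (n : ℝ) ≤ N) :
    ∑ i ∈ I, Fs A a (x i) ≤ (δ⁻¹ + 4 * Real.pi * N) * ∑ n ∈ A, a n ^ 2 := by
  -- sums over disjoint intervals
  have hdisj : ∀ H : ℝ → ℝ, Continuous H → (∀ y, 0 ≤ H y) →
      ∑ i ∈ I, ∫ y in (x i - δ / 2)..(x i + δ / 2), H y ≤ ∫ y in (0 : ℝ)..1, H y := by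
    intro H hH hH0
    have e1 : ∀ i ∈ I, ∫ y in (x i - δ / 2)..(x i + δ / 2), H y
        = ∫ y in Set.Ioc (x i - δ / 2) (x i + δ / 2), H y := by
      intro i _
      rw [intervalIntegral.integral_of_le (by linarith)]
    rw [Finset.sum_congr rfl e1, intervalIntegral.integral_of_le (by norm_num),
      ← MeasureTheory.integral_biUnion_finset]
    · refine MeasureTheory.setIntegral_mono_set ?_ ?_ ?_
      · exact (hH.integrableOn_Icc).mono_set Set.Ioc_subset_Icc_self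
      · exact Filter.Eventually.of_forall hH0
      · refine LE.le.eventuallyLE ?_
        intro y hy
        simp only [Set.mem_iUnion] at hy
        obtain ⟨i, hi, hy⟩ := hy
        exact ⟨by linarith [hy.1, h0 i hi], by linarith [hy.2, h1 i hi]⟩
    · intro i _; exact measurableSet_Ioc
    · intro i hi j hj hij
      rw [Function.onFun, Set.disjoint_left]
      intro y hy hy'
      have := hsp i hi j hj hij
      rw [le_abs] at this
      rcases this with h | h
      · linarith [hy.1, hy.2, hy'.1, hy'.2]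
      · linarith [hy.1, hy.2, hy'.1, hy'.2]
    · intro i _
      exact (hH.integrableOn_Icc).mono_set Set.Ioc_subset_Icc_self
  calc ∑ i ∈ I, Fs A a (x i)
      ≤ ∑ i ∈ I, (δ⁻¹ * (∫ y in (x i - δ / 2)..(x i + δ / 2), Fs A a y)
        + ∫ y in (x i - δ / 2)..(x i + δ / 2), |Fd A a y|) :=
        Finset.sum_le_sum (fun i _ => gallagher (Fs A a) (Fd A a) (Fs_cont A a) (Fd_cont A a)
          (Fs_deriv A a) (x i) δ hδ)
    _ = δ⁻¹ * ∑ i ∈ I, (∫ y in (x i - δ / 2)..(x i + δ / 2), Fs A a y)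
        + ∑ i ∈ I, ∫ y in (x i - δ / 2)..(x i + δ / 2), |Fd A a y| := by
        rw [Finset.sum_add_distrib, Finset.mul_sum]
    _ ≤ δ⁻¹ * (∫ y in (0 : ℝ)..1, Fs A a y) + ∫ y in (0 : ℝ)..1, |Fd A a y| := by
        refine add_le_add ?_ ?_
        · exact mul_le_mul_of_nonneg_left (hdisj _ (Fs_cont A a) (Fs_nonneg A a))
            (inv_nonneg.mpr hδ.le)
        · exact hdisj _ (Fd_cont A a).abs (fun _ => abs_nonneg _)
    _ ≤ δ⁻¹ * ∑ n ∈ A, a n ^ 2 + 4 * Real.pi * N * ∑ n ∈ A, a n ^ 2 := by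
        rw [int_Fs]
        exact add_le_add le_rfl (int_Fd A a N hN hA)
    _ = _ := by ring

end Pool.Agent.Lib.MP_dd84fd_nt.LargeSieve
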