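import Mathlib
import Pool.Agent.Lib.MP_dd84fd_nt.LargeSieve

set_option autoImplicit false

namespace Pool.Agent.Lib.MP_dd84fd_nt.Farey

open Finset Pool.Agent.Lib.MP_dd84fd_nt.LargeSieve

/-- `F(x) = |∑_{n ∈ A} e(n x)|²`. -/
noncomputable def F1 (A : Finset ℕ) (x : ℝ) : ℝ := Fs A (fun _ => 1) x

theorem F1_nonneg (A : Finset ℕ) (x : ℝ) : 0 ≤ F1 A x := Fs_nonneg _ _ _

theorem F1_eq (A : Finset ℕ) (x : ℝ) :
    F1 A x = ∑ m ∈ A, ∑ n ∈ A, Real.cos (2 * Real.pi * ((m : ℝ) - n) * x) := by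
  unfold F1
  rw [Fs_eq]
  simp

theorem F1_zero (A : Finset ℕ) : F1 A 0 = (A.card : ℝ) ^ 2 := by
  rw [F1_eq]; simp [sq]

/-- orthogonality -/
theorem cos_sum (q : ℕ) (hq : 0 < q) (k : ℤ) :
    ∑ a ∈ range q, Real.cos (2 * Real.pi * k * ((a : ℝ) / q)) = if (q : ℤ) ∣ k then (q : ℝ) else 0 := by
  have hq' : (q : ℝ) ≠ 0 := by positivity
  have hqc : (q : ℂ) ≠ 0 := by exact_mod_cast hq.ne'
  split_ifs with h
  · obtain ⟨j, hj⟩ := h
    have : ∀ a ∈ range q, Real.cos (2 * Real.pi * k * ((a : ℝ) / q)) = 1 := by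
      intro a _
      rw [hj]
      have : 2 * Real.pi * ((q * j : ℤ) : ℝ) * ((a : ℝ) / q) = ((j * a : ℤ) : ℝ) * (2 * Real.pi) := by
        push_cast; field_simp
      rw [this, Real.cos_int_mul_two_pi]
    rw [Finset.sum_congr rfl this]
    simp
  · set ζ : ℂ := Complex.exp (2 * Real.pi * Complex.I * (k / q)) with hζ
    have h1 : ∀ a : ℕ, Real.cos (2 * Real.pi * k * ((a : ℝ) / q)) = (ζ ^ a).re := by
      intro a
      rw [hζ, ← Complex.exp_nat_mul]
      have : (a : ℂ) * (2 * Real.pi * Complex.I * (k / q))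
          = ((2 * Real.pi * k * ((a : ℝ) / q) : ℝ) : ℂ) * Complex.I := by
        push_cast; ring
      rw [this, Complex.exp_ofReal_mul_I_re]
    simp_rw [h1]
    rw [← Complex.re_sum]
    have hne : ζ ≠ 1 := by
      intro h2
      rw [hζ, Complex.exp_eq_one_iff] at h2
      obtain ⟨n, hn⟩ := h2
      apply h
      have hpi : (2 * Real.pi * Complex.I : ℂ) ≠ 0 := by
        simp [Real.pi_ne_zero, Complex.I_ne_zero]
      have h3 : (k : ℂ) / q = n := by
        have : (2 * Real.pi * Complex.I : ℂ) * (k / q) = (2 * Real.pi * Complex.I) * n := by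
          rw [hn]; ring
        exact mul_left_cancel₀ hpi this
      rw [div_eq_iff hqc] at h3
      refine ⟨n, ?_⟩
      have : (k : ℂ) = ((q * n : ℤ) : ℂ) := by rw [h3]; push_cast; ring
      exact_mod_cast this
    have hpow : ζ ^ q = 1 := by
      rw [hζ, ← Complex.exp_nat_mul]
      have : (q : ℂ) * (2 * Real.pi * Complex.I * (k / q)) = k * (2 * Real.pi * Complex.I) := by
        field_simp
      rw [this, Complex.exp_int_mul_two_pi_mul_I]
    rw [geom_sum_eq hne, hpow]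
    simp

/-- number of congruent pairs -/
def Eq' (A : Finset ℕ) (q : ℕ) : ℕ := ((A ×ˢ A).filter (fun x => (q : ℤ) ∣ (x.1 : ℤ) - x.2)).card

theorem sum_F1 (A : Finset ℕ) (q : ℕ) (hq : 0 < q) :
    ∑ a ∈ range q, F1 A ((a : ℝ) / q) = q * Eq' A q := by
  simp_rw [F1_eq]
  rw [Finset.sum_comm]
  simp_rw [Finset.sum_comm (s := range q)]
  have h1 : ∀ m ∈ A, ∀ n ∈ A, ∑ a ∈ range q, Real.cos (2 * Real.pi * ((m : ℝ) - n) * ((a : ℝ) / q))
      = if (q : ℤ) ∣ (m : ℤ) - n then (q : ℝ) else 0 := by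
    intro m _ n _
    have := cos_sum q hq ((m : ℤ) - n)
    push_cast at this
    exact this
  rw [Finset.sum_congr rfl (fun m hm => Finset.sum_congr rfl (h1 m hm)), ← Finset.sum_product']
  unfold Eq'
  rw [← Finset.sum_filter, Finset.sum_const, nsmul_eq_mul, mul_comm]

/-- Farey pairs with denominator in `(z, k]`. -/
def Far (z k : ℕ) : Finset (ℕ × ℕ) :=
  ((Ioc z k) ×ˢ (range k)).filter (fun x => 1 ≤ x.2 ∧ x.2 < x.1 ∧ Nat.Coprime x.2 x.1)

theorem far_sieve (A : Finset ℕ) (N : ℝ) (hN : 0 < N) (hA : ∀ n ∈ A, (n : ℝ) ≤ N) (z k : ℕ) :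
    ∑ x ∈ Far z k, F1 A ((x.2 : ℝ) / x.1) ≤ ((k : ℝ) ^ 2 + 4 * Real.pi * N) * A.card := by
  rcases Nat.eq_zero_or_pos k with rfl | hk
  · have : Far z 0 = ∅ := by
      unfold Far; simp
    rw [this]
    simp only [sum_empty]
    have := Real.pi_pos
    positivity
  have hkr : (1 : ℝ) ≤ k := by exact_mod_cast hk
  have hkr0 : (0 : ℝ) < k := by linarith
  have hδ : 0 < ((k : ℝ) ^ 2)⁻¹ := by positivity
  have key := large_sieve (Far z k) (fun x => (x.2 : ℝ) / x.1) ((k : ℝ) ^ 2)⁻¹ hδ ?_ ?_ ?_ A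
    (fun _ => 1) N hN hA
  · simpa [F1] using key
  · intro x hx
    simp only [Far, mem_filter, mem_product, mem_Ioc, mem_range] at hx
    obtain ⟨⟨⟨_, h2⟩, _⟩, h4, h5, _⟩ := hx
    have h6 : (0 : ℝ) < x.1 := by exact_mod_cast (by omega : 0 < x.1)
    have h7 : (x.1 : ℝ) ≤ k := by exact_mod_cast h2
    have h8 : (1 : ℝ) ≤ x.2 := by exact_mod_cast h4
    have h9 : (1 : ℝ) / k ≤ (x.2 : ℝ) / x.1 := div_le_div₀ (by linarith) h8 h6 h7
    have h10 : ((k : ℝ) ^ 2)⁻¹ ≤ 1 / k := by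
      rw [← one_div]
      exact one_div_le_one_div_of_le hkr0 (by nlinarith)
    linarith
  · intro x hx
    simp only [Far, mem_filter, mem_product, mem_Ioc, mem_range] at hx
    obtain ⟨⟨⟨_, h2⟩, _⟩, h4, h5, _⟩ := hx
    have h6 : (0 : ℝ) < x.1 := by exact_mod_cast (by omega : 0 < x.1)
    have h7 : (x.1 : ℝ) ≤ k := by exact_mod_cast h2
    have h8 : (x.2 : ℝ) + 1 ≤ x.1 := by exact_mod_cast h5
    have h9 : (x.2 : ℝ) / x.1 ≤ 1 - 1 / k := by
      have h10 : (x.2 : ℝ) / x.1 ≤ 1 - 1 / x.1 := by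
        rw [div_le_iff₀ h6, sub_mul, one_div, inv_mul_cancel₀ h6.ne']; linarith
      have h11 : (1 : ℝ) / k ≤ 1 / x.1 := one_div_le_one_div_of_le h6 h7
      linarith
    have h10 : ((k : ℝ) ^ 2)⁻¹ ≤ 1 / k := by
      rw [← one_div]
      exact one_div_le_one_div_of_le hkr0 (by nlinarith)
    have : 0 < ((k : ℝ) ^ 2)⁻¹ := by positivity
    linarith
  · intro x hx y hy hxy
    simp only [Far, mem_filter, mem_product, mem_Ioc, mem_range] at hx hy
    obtain ⟨⟨⟨_, h2⟩, _⟩, h4, h5, h6⟩ := hx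
    obtain ⟨⟨⟨_, g2⟩, _⟩, g4, g5, g6⟩ := hy
    have hx1 : (0 : ℝ) < x.1 := by exact_mod_cast (by omega : 0 < x.1)
    have hy1 : (0 : ℝ) < y.1 := by exact_mod_cast (by omega : 0 < y.1)
    have hx2 : (x.1 : ℝ) ≤ k := by exact_mod_cast h2
    have hy2 : (y.1 : ℝ) ≤ k := by exact_mod_cast g2
    have e : (x.2 : ℝ) / x.1 - (y.2 : ℝ) / y.1 = ((x.2 : ℝ) * y.1 - x.1 * y.2) / (x.1 * y.1) := by
      rw [div_sub_div _ _ hx1.ne' hy1.ne']
    rw [e, abs_div, abs_of_pos (mul_pos hx1 hy1), le_div_iff₀ (mul_pos hx1 hy1)]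
    have hne : (x.2 : ℤ) * y.1 - x.1 * y.2 ≠ 0 := by
      intro h
      apply hxy
      have h7 : x.2 * y.1 = x.1 * y.2 := by
        have : (x.2 : ℤ) * y.1 = x.1 * y.2 := by linarith
        exact_mod_cast this
      have h8 : x.1 ∣ y.1 := by
        have : x.1 ∣ x.2 * y.1 := ⟨y.2, h7⟩
        exact (Nat.Coprime.dvd_of_dvd_mul_left h6.symm this)
      have h9 : y.1 ∣ x.1 := by
        have : y.1 ∣ y.2 * x.1 := ⟨x.2, by rw [mul_comm y.2, ← h7, mul_comm]⟩
        exact (Nat.Coprime.dvd_of_dvd_mul_left g6.symm this)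
      have h10 : x.1 = y.1 := Nat.dvd_antisymm h8 h9
      have h11 : x.2 = y.2 := by
        rw [h10, mul_comm] at h7
        exact Nat.eq_of_mul_eq_mul_left (by omega) h7
      exact Prod.ext h10 h11
    have h1 : (1 : ℝ) ≤ |(x.2 : ℝ) * y.1 - x.1 * y.2| := by
      have := Int.one_le_abs hne
      exact_mod_cast this
    have h12 : (x.1 : ℝ) * y.1 ≤ (k : ℝ) ^ 2 := by nlinarith
    calc ((k : ℝ) ^ 2)⁻¹ * (x.1 * y.1) ≤ ((k : ℝ) ^ 2)⁻¹ * (k : ℝ) ^ 2 :=
          mul_le_mul_of_nonneg_left h12 hδ.le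
      _ = 1 := inv_mul_cancel₀ (by positivity)
      _ ≤ _ := h1

/-- sum over reduced fractions with denominator `r` -/
noncomputable def T (A : Finset ℕ) (r : ℕ) : ℝ :=
  ∑ b ∈ (range r).filter (fun b => 1 ≤ b ∧ Nat.Coprime b r), F1 A ((b : ℝ) / r)

theorem T_nonneg (A : Finset ℕ) (r : ℕ) : 0 ≤ T A r := Finset.sum_nonneg (fun _ _ => F1_nonneg _ _)

theorem sum_far (A : Finset ℕ) (z k : ℕ) (w : ℕ → ℝ) :
    ∑ x ∈ Far z k, w x.1 * F1 A ((x.2 : ℝ) / x.1) = ∑ r ∈ Ioc z k, w r * T A r := by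
  unfold Far T
  rw [Finset.sum_filter, Finset.sum_product]
  refine Finset.sum_congr rfl (fun r hr => ?_)
  rw [mem_Ioc] at hr
  rw [← Finset.sum_filter, Finset.mul_sum]
  refine Finset.sum_congr ?_ (fun _ _ => rfl)
  ext b
  simp only [mem_filter, mem_range]
  constructor
  · rintro ⟨_, h2, h3, h4⟩; exact ⟨h3, h2, h4⟩
  · rintro ⟨h1, h2, h3⟩; exact ⟨by omega, h2, h1, h3⟩

theorem sum_T (A : Finset ℕ) (N : ℝ) (hN : 0 < N) (hA : ∀ n ∈ A, (n : ℝ) ≤ N) (z k : ℕ) :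
    ∑ r ∈ Ioc z k, T A r ≤ ((k : ℝ) ^ 2 + 4 * Real.pi * N) * A.card := by
  have h := sum_far A z k (fun _ => 1)
  simp only [one_mul] at h
  rw [← h]
  exact far_sieve A N hN hA z k

theorem abel (A : Finset ℕ) (N : ℝ) (hN : 0 < N) (hA : ∀ n ∈ A, (n : ℝ) ≤ N) (z : ℕ) (hz : 1 ≤ z)
    (K : ℕ) (hK : z ≤ K) :
    ∑ r ∈ Ioc z K, T A r / r ≤ (∑ r ∈ Ioc z K, T A r) / K
      + A.card * (((K : ℝ) - z) + 4 * Real.pi * N * (1 / z - 1 / K)) := by
  induction K, hK using Nat.le_induction with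
  | base => simp
  | succ K hK ih =>
    have hK1 : z < K + 1 := by omega
    rw [← Finset.insert_Ioc_right_eq_Ioc_add_one hK, Finset.sum_insert (by simp),
      Finset.sum_insert (by simp)]
    set G : ℝ := ∑ r ∈ Ioc z K, T A r with hG
    have hGle : G ≤ ((K : ℝ) ^ 2 + 4 * Real.pi * N) * A.card := sum_T A N hN hA z K
    have hzr : (1 : ℝ) ≤ z := by exact_mod_cast hz
    have hKr : (1 : ℝ) ≤ K := by exact_mod_cast (hz.trans hK)
    push_cast
    have e1 : (T A (K + 1) + G) / ((K : ℝ) + 1) = T A (K + 1) / (K + 1) + G / (K + 1) := by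
      rw [add_div]
    rw [e1]
    have e2 : G / K = G / (K + 1) + G / (K * (K + 1)) := by
      field_simp
    have hpi := Real.pi_pos
    have e3 : G / (K * (K + 1)) ≤ A.card * (1 + 4 * Real.pi * N * (1 / K - 1 / (K + 1))) := by
      rw [div_le_iff₀ (by positivity)]
      have e4 : A.card * (1 + 4 * Real.pi * N * (1 / (K : ℝ) - 1 / (K + 1))) * (K * (K + 1))
          = A.card * (K * (K + 1) + 4 * Real.pi * N) := by
        field_simp
        ring
      rw [e4]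
      have : (0 : ℝ) ≤ A.card := Nat.cast_nonneg _
      nlinarith
    calc T A (K + 1) / ((K : ℝ) + 1) + ∑ r ∈ Ioc z K, T A r / r
        ≤ T A (K + 1) / ((K : ℝ) + 1) + (G / K
          + A.card * (((K : ℝ) - z) + 4 * Real.pi * N * (1 / z - 1 / K))) := by linarith
      _ ≤ _ := by
        rw [e2]
        have e5 : (A.card : ℝ) * ((K : ℝ) + 1 - z + 4 * Real.pi * N * (1 / z - 1 / (K + 1)))
          = A.card * (((K : ℝ) - z) + 4 * Real.pi * N * (1 / z - 1 / K))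
            + A.card * (1 + 4 * Real.pi * N * (1 / K - 1 / (K + 1))) := by ring
        rw [e5]
        linarith

theorem abel' (A : Finset ℕ) (N : ℝ) (hN : 0 < N) (hA : ∀ n ∈ A, (n : ℝ) ≤ N) (z : ℕ) (hz : 1 ≤ z)
    (K : ℕ) (hK : z ≤ K) :
    ∑ r ∈ Ioc z K, T A r / r ≤ A.card * (2 * K + 8 * Real.pi * N / z) := by
  have h1 := abel A N hN hA z hz K hK
  have h2 := sum_T A N hN hA z K
  have hzr : (1 : ℝ) ≤ z := by exact_mod_cast hz
  have hKr : (z : ℝ) ≤ K := by exact_mod_cast hK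
  have hK1 : (0 : ℝ) < K := by linarith
  have hpi := Real.pi_pos
  have h3 : (∑ r ∈ Ioc z K, T A r) / K ≤ A.card * (K + 4 * Real.pi * N / K) := by
    rw [div_le_iff₀ hK1]
    have : A.card * (K + 4 * Real.pi * N / K) * K = ((K : ℝ) ^ 2 + 4 * Real.pi * N) * A.card := by
      field_simp
    rw [this]; exact h2
  have h4 : 4 * Real.pi * N / K ≤ 4 * Real.pi * N / z :=
    div_le_div_of_nonneg_left (by positivity) (by linarith) hKr
  have hc : (0 : ℝ) ≤ A.card := Nat.cast_nonneg _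
  have h5 : 4 * Real.pi * N * (1 / (z : ℝ) - 1 / K) ≤ 4 * Real.pi * N / z := by
    have : 0 ≤ 4 * Real.pi * N * (1 / (K : ℝ)) := by positivity
    have e : 4 * Real.pi * N / z = 4 * Real.pi * N * (1 / z) := by ring
    rw [e, mul_sub]; linarith
  have e6 : 8 * Real.pi * N / (z : ℝ) = 4 * Real.pi * N / z + 4 * Real.pi * N / z := by ring
  calc _ ≤ _ := h1
    _ ≤ A.card * (K + 4 * Real.pi * N / K) + A.card * (((K : ℝ) - z) + 4 * Real.pi * N * (1 / z - 1 / K)) := by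
        linarith
    _ = A.card * ((K + 4 * Real.pi * N / K) + (((K : ℝ) - z) + 4 * Real.pi * N * (1 / z - 1 / K))) := by
        ring
    _ ≤ _ := by
        refine mul_le_mul_of_nonneg_left ?_ hc
        rw [e6]; linarith

/-- the sum over all non-zero fractions with rough denominators -/
theorem rough_sum (A : Finset ℕ) (N : ℝ) (hN : 0 < N) (hA : ∀ n ∈ A, (n : ℝ) ≤ N) (z : ℕ)
    (hz : 1 ≤ z) (Q : ℕ) (hQ : z ≤ Q) (R : Finset ℕ)
    (hR : ∀ q ∈ R, 2 ≤ q ∧ q ≤ Q ∧ ∀ p : ℕ, p.Prime → p ∣ q → z < p) :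
    ∑ q ∈ R, ∑ a ∈ Ico 1 q, F1 A ((a : ℝ) / q) ≤ Q * (A.card * (2 * Q + 8 * Real.pi * N / z)) := by
  rw [Finset.sum_sigma']
  set P := R.sigma (fun q => Ico 1 q) with hP
  set φ : (Σ _ : ℕ, ℕ) → ℕ × ℕ := fun x => (x.1 / Nat.gcd x.2 x.1, x.2 / Nat.gcd x.2 x.1) with hφ
  have hmaps : ∀ x ∈ P, φ x ∈ Far z Q := by
    rintro ⟨q, a⟩ hx
    rw [hP, mem_sigma] at hx
    obtain ⟨hq, ha⟩ := hx
    rw [mem_Ico] at ha
    simp only at ha
    obtain ⟨hq2, hqQ, hqp⟩ := hR q hq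
    have hg : 0 < Nat.gcd a q := Nat.gcd_pos_of_pos_left _ (by omega)
    have hga : Nat.gcd a q ≤ a := Nat.le_of_dvd (by omega) (Nat.gcd_dvd_left a q)
    have h1 : q / Nat.gcd a q * Nat.gcd a q = q := Nat.div_mul_cancel (Nat.gcd_dvd_right a q)
    have h2 : a / Nat.gcd a q * Nat.gcd a q = a := Nat.div_mul_cancel (Nat.gcd_dvd_left a q)
    have h3 : 1 < q / Nat.gcd a q := by
      by_contra h
      push Not at h
      have : q / Nat.gcd a q * Nat.gcd a q ≤ 1 * Nat.gcd a q := Nat.mul_le_mul_right _ h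
      omega
    have h4 : z < q / Nat.gcd a q := by
      obtain ⟨p, hp, hpd⟩ := Nat.exists_prime_and_dvd h3.ne'
      have h5 := hqp p hp (hpd.trans (Nat.div_dvd_of_dvd (Nat.gcd_dvd_right a q)))
      exact lt_of_lt_of_le h5 (Nat.le_of_dvd (by omega) hpd)
    have h6 : q / Nat.gcd a q ≤ q := Nat.div_le_self _ _
    have h7 : 1 ≤ a / Nat.gcd a q := Nat.div_pos hga hg
    have h8 : a / Nat.gcd a q < q / Nat.gcd a q := by
      by_contra h
      push Not at h
      have : q / Nat.gcd a q * Nat.gcd a q ≤ a / Nat.gcd a q * Nat.gcd a q :=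
        Nat.mul_le_mul_right _ h
      omega
    simp only [hφ, Far, mem_filter, mem_product, mem_Ioc, mem_range]
    exact ⟨⟨⟨h4, by omega⟩, by omega⟩, h7, h8, Nat.coprime_div_gcd_div_gcd hg⟩
  rw [← Finset.sum_fiberwise_of_maps_to hmaps]
  have hfib : ∀ y ∈ Far z Q, ∑ x ∈ P.filter (fun x => φ x = y), F1 A ((x.2 : ℝ) / x.1)
      ≤ (Q : ℝ) / y.1 * F1 A ((y.2 : ℝ) / y.1) := by
    intro y hy
    simp only [Far, mem_filter, mem_product, mem_Ioc, mem_range] at hy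
    obtain ⟨⟨⟨hy0, hyQ⟩, _⟩, hy1, hy2, _⟩ := hy
    have hval : ∀ x ∈ P.filter (fun x => φ x = y), F1 A ((x.2 : ℝ) / x.1) = F1 A ((y.2 : ℝ) / y.1) := by
      rintro ⟨q, a⟩ hx
      rw [mem_filter, hP, mem_sigma] at hx
      obtain ⟨⟨hq, ha⟩, hxy⟩ := hx
      rw [mem_Ico] at ha
      simp only at ha
      rw [hφ] at hxy
      simp only at hxy
      have hg : 0 < Nat.gcd a q := Nat.gcd_pos_of_pos_left _ (by omega)
      have h1 : q / Nat.gcd a q * Nat.gcd a q = q := Nat.div_mul_cancel (Nat.gcd_dvd_right a q)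
      have h2 : a / Nat.gcd a q * Nat.gcd a q = a := Nat.div_mul_cancel (Nat.gcd_dvd_left a q)
      have h3 : y.1 = q / Nat.gcd a q := by rw [← hxy]
      have h4 : y.2 = a / Nat.gcd a q := by rw [← hxy]
      congr 1
      have hg' : (0 : ℝ) < Nat.gcd a q := by exact_mod_cast hg
      have hy1' : (0 : ℝ) < y.1 := by exact_mod_cast (by omega : 0 < y.1)
      simp only
      have h5 : (q : ℝ) = y.1 * Nat.gcd a q := by rw [h3]; exact_mod_cast h1.symm
      have h6 : (a : ℝ) = y.2 * Nat.gcd a q := by rw [h4]; exact_mod_cast h2.symm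
      rw [h5, h6]
      field_simp
    rw [Finset.sum_congr rfl hval, Finset.sum_const, nsmul_eq_mul]
    refine mul_le_mul_of_nonneg_right ?_ (F1_nonneg _ _)
    have hcard : (P.filter (fun x => φ x = y)).card ≤ (Icc 1 (Q / y.1)).card := by
      refine Finset.card_le_card_of_injOn (fun x => Nat.gcd x.2 x.1) ?_ ?_
      · rintro ⟨q, a⟩ hx
        rw [mem_coe, mem_filter, hP, mem_sigma] at hx
        obtain ⟨⟨hq, ha⟩, hxy⟩ := hx
        rw [mem_Ico] at ha
        simp only at ha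
        rw [hφ] at hxy
        simp only at hxy
        have hg : 0 < Nat.gcd a q := Nat.gcd_pos_of_pos_left _ (by omega)
        have h1 : q / Nat.gcd a q * Nat.gcd a q = q := Nat.div_mul_cancel (Nat.gcd_dvd_right a q)
        have h3 : y.1 = q / Nat.gcd a q := by rw [← hxy]
        rw [mem_coe, mem_Icc]
        refine ⟨hg, ?_⟩
        simp only
        rw [Nat.le_div_iff_mul_le (by omega), h3, mul_comm, h1]
        exact (hR q hq).2.1
      · rintro ⟨q, a⟩ hx ⟨q', a'⟩ hx' hxx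
        rw [mem_coe, mem_filter, hP, mem_sigma] at hx hx'
        obtain ⟨_, hxy⟩ := hx
        obtain ⟨_, hxy'⟩ := hx'
        rw [hφ] at hxy hxy'
        simp only at hxy hxy' hxx
        have h1 : q / Nat.gcd a q * Nat.gcd a q = q := Nat.div_mul_cancel (Nat.gcd_dvd_right a q)
        have h2 : a / Nat.gcd a q * Nat.gcd a q = a := Nat.div_mul_cancel (Nat.gcd_dvd_left a q)
        have h1' : q' / Nat.gcd a' q' * Nat.gcd a' q' = q' := Nat.div_mul_cancel (Nat.gcd_dvd_right a' q')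
        have h2' : a' / Nat.gcd a' q' * Nat.gcd a' q' = a' := Nat.div_mul_cancel (Nat.gcd_dvd_left a' q')
        have e1 : q / Nat.gcd a q = q' / Nat.gcd a' q' := by
          have := congrArg Prod.fst (hxy.trans hxy'.symm); simpa using this
        have e2 : a / Nat.gcd a q = a' / Nat.gcd a' q' := by
          have := congrArg Prod.snd (hxy.trans hxy'.symm); simpa using this
        have e3 : q = q' := by rw [← h1, ← h1', e1, hxx]
        have e4 : a = a' := by rw [← h2, ← h2', e2, hxx]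
        rw [e3, e4]
    rw [Nat.card_Icc, Nat.add_sub_cancel] at hcard
    calc ((P.filter (fun x => φ x = y)).card : ℝ) ≤ ((Q / y.1 : ℕ) : ℝ) := by exact_mod_cast hcard
      _ ≤ (Q : ℝ) / y.1 := Nat.cast_div_le
  calc _ ≤ ∑ y ∈ Far z Q, (Q : ℝ) / y.1 * F1 A ((y.2 : ℝ) / y.1) := Finset.sum_le_sum hfib
    _ = ∑ r ∈ Ioc z Q, (Q : ℝ) / r * T A r := sum_far A z Q (fun r => (Q : ℝ) / r)
    _ = Q * ∑ r ∈ Ioc z Q, T A r / r := by
        rw [Finset.mul_sum]
        refine Finset.sum_congr rfl (fun r _ => ?_)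
        ring
    _ ≤ _ := mul_le_mul_of_nonneg_left (abel' A N hN hA z hz Q hQ) (Nat.cast_nonneg _)

/-- lower bound for the number of pairs in a residue class by the number of congruent pairs -/
theorem pairs_lower (A : Finset ℕ) (q : ℕ) [NeZero q] (b : ZMod q) :
    2 * (A.card : ℝ) ^ 2 / q - Eq' A q
      ≤ ((A ×ˢ A).filter (fun x => ((x.1 : ZMod q) + (x.2 : ZMod q) = b))).card := by
  have hq : (0 : ℝ) < q := by exact_mod_cast Nat.pos_of_ne_zero (NeZero.ne q)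
  set Z : ZMod q → ℝ := fun h => ∑ p ∈ A, if (p : ZMod q) = h then 1 else 0 with hZ
  have hsum : ∀ W : ZMod q → ℝ, ∑ h, Z h * W h = ∑ p ∈ A, W p := by
    intro W
    simp only [hZ, Finset.sum_mul]
    rw [Finset.sum_comm]
    refine Finset.sum_congr rfl (fun p _ => ?_)
    simp [ite_mul]
  have h1 : ∑ h, Z h = A.card := by
    have := hsum (fun _ => 1)
    simpa using this
  have h2 : ∑ h, Z h * Z h = Eq' A q := by
    rw [hsum]
    unfold Eq'
    rw [Finset.card_filter, Finset.sum_product]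
    push_cast
    refine Finset.sum_congr rfl (fun p _ => ?_)
    simp only [hZ]
    refine Finset.sum_congr rfl (fun p' _ => ?_)
    have : ((p' : ZMod q) = (p : ZMod q)) ↔ ((q : ℤ) ∣ (p : ℤ) - p') := by
      rw [← ZMod.intCast_zmod_eq_zero_iff_dvd]
      push_cast
      rw [sub_eq_zero, eq_comm]
    by_cases h : (q : ℤ) ∣ (p : ℤ) - p'
    · rw [if_pos (this.mpr h), if_pos h]
    · rw [if_neg (fun h' => h (this.mp h')), if_neg h]
  have h3 : ∑ h, Z h * Z (b - h)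
      = ((A ×ˢ A).filter (fun x => ((x.1 : ZMod q) + (x.2 : ZMod q) = b))).card := by
    rw [hsum (fun h => Z (b - h))]
    rw [Finset.card_filter, Finset.sum_product]
    push_cast
    refine Finset.sum_congr rfl (fun p _ => ?_)
    simp only [hZ]
    refine Finset.sum_congr rfl (fun p' _ => ?_)
    have : ((p' : ZMod q) = b - (p : ZMod q)) ↔ ((p : ZMod q) + (p' : ZMod q) = b) := by
      rw [eq_sub_iff_add_eq, add_comm]
    by_cases h : (p : ZMod q) + (p' : ZMod q) = b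
    · rw [if_pos (this.mpr h), if_pos h]
    · rw [if_neg (fun h' => h (this.mp h')), if_neg h]
  have hrefl : ∀ W : ZMod q → ℝ, ∑ h, W (b - h) = ∑ h, W h := by
    intro W
    exact Fintype.sum_equiv (Equiv.subLeft b) _ _ (fun _ => rfl)
  have h4 : ∑ h, Z (b - h) * Z (b - h) = Eq' A q := by
    rw [hrefl (fun h => Z h * Z h), h2]
  have h5 : ∑ h, Z (b - h) = A.card := by rw [hrefl, h1]
  have h6 : 0 ≤ ∑ h : ZMod q, (Z h + Z (b - h) - 2 * A.card / q) ^ 2 :=
    Finset.sum_nonneg (fun _ _ => sq_nonneg _)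
  have h7 : ∑ h : ZMod q, (Z h + Z (b - h) - 2 * A.card / q) ^ 2
      = ∑ h, Z h * Z h + ∑ h, Z (b - h) * Z (b - h) + 2 * ∑ h, Z h * Z (b - h)
        - 4 * A.card / q * ∑ h, Z h - 4 * A.card / q * ∑ h, Z (b - h)
        + q * (2 * A.card / q) ^ 2 := by
    have hcardq : (q : ℝ) * (2 * A.card / q) ^ 2 = ∑ _h : ZMod q, (2 * (A.card : ℝ) / q) ^ 2 := by
      rw [Finset.sum_const, Finset.card_univ, ZMod.card, nsmul_eq_mul]
    rw [hcardq, Finset.mul_sum, Finset.mul_sum, Finset.mul_sum, ← Finset.sum_add_distrib,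
      ← Finset.sum_add_distrib, ← Finset.sum_sub_distrib, ← Finset.sum_sub_distrib,
      ← Finset.sum_add_distrib]
    refine Finset.sum_congr rfl (fun h _ => ?_)
    ring
  rw [h7, h1, h2, h3, h4, h5] at h6
  have h8 : 4 * (A.card : ℝ) / q * A.card + 4 * (A.card : ℝ) / q * A.card
      - q * (2 * A.card / q) ^ 2 = 2 * (2 * (A.card : ℝ) ^ 2 / q) := by
    field_simp; ring
  linarith

end Pool.Agent.Lib.MP_dd84fd_nt.Farey
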