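import Mathlib

/-!
# Sums of two elements of given sets along a pseudorandom sequence modulo `q`
-/

set_option autoImplicit false

namespace Pool.Agent.Lib.MP_dd84fd_nt.Fourier

open Finset

variable {q : ℕ} [NeZero q]

/-- number of representations `x = a + b` with `a ∈ A`, `b ∈ B` -/
def rep2 (A B : Finset (ZMod q)) (x : ZMod q) : ℝ := ∑ p ∈ A, if x - p ∈ B then 1 else 0

theorem sum_e (t : ZMod q) : ∑ h : ZMod q, (ZMod.stdAddChar (h * t) : ℂ) =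
    if t = 0 then (q : ℂ) else 0 := by
  rw [AddChar.sum_mulShift t (ZMod.isPrimitive_stdAddChar q), ZMod.card]
  split_ifs <;> simp

theorem norm_e (x : ZMod q) : ‖(ZMod.stdAddChar x : ℂ)‖ = 1 := by
  rw [ZMod.stdAddChar_apply]; exact Circle.norm_coe _

theorem conj_e (x : ZMod q) : (starRingEnd ℂ) (ZMod.stdAddChar x : ℂ) = ZMod.stdAddChar (-x) := by
  rw [AddChar.map_neg_eq_inv, ← Complex.inv_eq_conj (norm_e x)]

/-- Parseval for a set -/
theorem parseval (A : Finset (ZMod q)) :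
    ∑ h : ZMod q, ‖∑ a ∈ A, (ZMod.stdAddChar (h * -a) : ℂ)‖ ^ 2 = q * A.card := by
  have h1 : ∀ h : ZMod q, ((‖∑ a ∈ A, (ZMod.stdAddChar (h * -a) : ℂ)‖ ^ 2 : ℝ) : ℂ) =
      ∑ a ∈ A, ∑ b ∈ A, (ZMod.stdAddChar (h * (b - a)) : ℂ) := by
    intro h
    rw [← Complex.normSq_eq_norm_sq, ← Complex.mul_conj, map_sum, sum_mul_sum]
    refine sum_congr rfl fun a _ => sum_congr rfl fun b _ => ?_
    rw [conj_e, ← AddChar.map_add_eq_mul]
    congr 1
    ring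
  have h2 : ((∑ h : ZMod q, ‖∑ a ∈ A, (ZMod.stdAddChar (h * -a) : ℂ)‖ ^ 2 : ℝ) : ℂ) =
      (q : ℂ) * A.card := by
    rw [Complex.ofReal_sum, sum_congr rfl fun h _ => h1 h]
    rw [sum_comm]
    have h3 : ∀ a ∈ A, ∑ h : ZMod q, ∑ b ∈ A, (ZMod.stdAddChar (h * (b - a)) : ℂ) = q := by
      intro a ha
      rw [sum_comm]
      simp_rw [sum_e, sub_eq_zero]
      rw [sum_ite_eq' A a, if_pos ha]
    rw [sum_congr rfl h3, sum_const, nsmul_eq_mul, mul_comm]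
  exact_mod_cast h2

/-- The representation count as a sum over characters. -/
theorem rep2_eq {ι : Type*} (S : Finset ι) (f : ι → ZMod q) (A B : Finset (ZMod q)) :
    (q : ℂ) * ((∑ s ∈ S, rep2 A B (f s) : ℝ) : ℂ) =
      ∑ h : ZMod q, (∑ s ∈ S, (ZMod.stdAddChar (h * f s) : ℂ)) *
        ((∑ a ∈ A, (ZMod.stdAddChar (h * -a) : ℂ)) *
          (∑ b ∈ B, (ZMod.stdAddChar (h * -b) : ℂ))) := by
  have h1 : ∀ x : ZMod q, (q : ℂ) * ((if x ∈ B then (1 : ℝ) else 0 : ℝ) : ℂ) =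
      ∑ b ∈ B, ∑ h : ZMod q, (ZMod.stdAddChar (h * (x - b)) : ℂ) := by
    intro x
    simp_rw [sum_e, sub_eq_zero]
    rw [sum_ite_eq B x]
    split_ifs <;> simp
  unfold rep2
  rw [Complex.ofReal_sum, mul_sum]
  have h2 : ∀ s ∈ S, (q : ℂ) * ((∑ p ∈ A, (if f s - p ∈ B then (1 : ℝ) else 0) : ℝ) : ℂ) =
      ∑ h : ZMod q, (ZMod.stdAddChar (h * f s) : ℂ) *
        ((∑ a ∈ A, (ZMod.stdAddChar (h * -a) : ℂ)) *
          (∑ b ∈ B, (ZMod.stdAddChar (h * -b) : ℂ))) := by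
    intro s _
    rw [Complex.ofReal_sum, mul_sum]
    have h3 : ∀ p ∈ A, (q : ℂ) * ((if f s - p ∈ B then (1 : ℝ) else 0 : ℝ) : ℂ) =
        ∑ b ∈ B, ∑ h : ZMod q, (ZMod.stdAddChar (h * (f s - p - b)) : ℂ) := by
      intro p _
      exact h1 _
    rw [sum_congr rfl h3]
    simp_rw [sum_mul_sum, mul_sum]
    rw [sum_congr rfl fun p _ => sum_comm, sum_comm]
    refine sum_congr rfl fun h _ => sum_congr rfl fun p _ => sum_congr rfl fun b _ => ?_
    rw [← AddChar.map_add_eq_mul, ← AddChar.map_add_eq_mul]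
    congr 1
    ring
  rw [sum_congr rfl h2, sum_comm]
  exact sum_congr rfl fun h _ => (sum_mul _ _ _).symm

/-- If all nontrivial exponential sums over a sequence are at most `M`, then the number of
representations of its terms as `a + b` is as expected up to `M (|A| + |B|) / 2`. -/
theorem rep2_dev {ι : Type*} (S : Finset ι) (f : ι → ZMod q) (A B : Finset (ZMod q)) (M : ℝ)
    (hM : ∀ h : ZMod q, h ≠ 0 → ‖∑ s ∈ S, (ZMod.stdAddChar (h * f s) : ℂ)‖ ≤ M) (hM0 : 0 ≤ M) :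
    |∑ s ∈ S, rep2 A B (f s) - S.card * A.card * B.card / q| ≤ M * ((A.card + B.card) / 2) := by
  classical
  have hq : (0 : ℝ) < q := by exact_mod_cast Nat.pos_of_ne_zero (NeZero.ne q)
  have h1 := rep2_eq S f A B
  rw [← add_sum_erase univ _ (mem_univ (0 : ZMod q))] at h1
  have h0 : (∑ s ∈ S, (ZMod.stdAddChar (0 * f s) : ℂ)) *
        ((∑ a ∈ A, (ZMod.stdAddChar (0 * -a) : ℂ)) *
          (∑ b ∈ B, (ZMod.stdAddChar (0 * -b) : ℂ))) = (S.card : ℂ) * (A.card * B.card) := by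
    simp
  rw [h0] at h1
  have h2 : ‖∑ h ∈ univ.erase (0 : ZMod q), (∑ s ∈ S, (ZMod.stdAddChar (h * f s) : ℂ)) *
        ((∑ a ∈ A, (ZMod.stdAddChar (h * -a) : ℂ)) *
          (∑ b ∈ B, (ZMod.stdAddChar (h * -b) : ℂ)))‖ ≤ M * (q * ((A.card + B.card) / 2)) := by
    refine (norm_sum_le _ _).trans ?_
    have h3 : ∀ h ∈ univ.erase (0 : ZMod q), ‖(∑ s ∈ S, (ZMod.stdAddChar (h * f s) : ℂ)) *
        ((∑ a ∈ A, (ZMod.stdAddChar (h * -a) : ℂ)) *
          (∑ b ∈ B, (ZMod.stdAddChar (h * -b) : ℂ)))‖ ≤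
        M * ((‖∑ a ∈ A, (ZMod.stdAddChar (h * -a) : ℂ)‖ ^ 2 +
          ‖∑ b ∈ B, (ZMod.stdAddChar (h * -b) : ℂ)‖ ^ 2) / 2) := by
      intro h hh
      rw [norm_mul, norm_mul]
      refine mul_le_mul (hM h (ne_of_mem_erase hh)) ?_ (by positivity) hM0
      nlinarith [sq_nonneg (‖∑ a ∈ A, (ZMod.stdAddChar (h * -a) : ℂ)‖ -
        ‖∑ b ∈ B, (ZMod.stdAddChar (h * -b) : ℂ)‖)]
    refine (sum_le_sum h3).trans ?_
    rw [← mul_sum]
    refine mul_le_mul_of_nonneg_left ?_ hM0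
    refine (sum_le_univ_sum_of_nonneg fun _ => by positivity).trans ?_
    rw [← sum_div, sum_add_distrib, parseval, parseval]
    exact le_of_eq (by ring)
  have h4 : (q : ℂ) * (((∑ s ∈ S, rep2 A B (f s) - S.card * A.card * B.card / q : ℝ)) : ℂ) =
      ∑ h ∈ univ.erase (0 : ZMod q), (∑ s ∈ S, (ZMod.stdAddChar (h * f s) : ℂ)) *
        ((∑ a ∈ A, (ZMod.stdAddChar (h * -a) : ℂ)) *
          (∑ b ∈ B, (ZMod.stdAddChar (h * -b) : ℂ))) := by
    have hq' : (q : ℂ) ≠ 0 := by exact_mod_cast hq.ne'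
    rw [Complex.ofReal_sub, mul_sub, h1]
    push_cast
    field_simp
    ring
  rw [← h4, norm_mul, Complex.norm_natCast, Complex.norm_real, Real.norm_eq_abs] at h2
  have h5 : M * (q * (((A.card : ℝ) + B.card) / 2)) = q * (M * ((A.card + B.card) / 2)) := by ring
  rw [h5] at h2
  exact le_of_mul_le_mul_left h2 hq

end Pool.Agent.Lib.MP_dd84fd_nt.Fourier
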