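import Pool.Agent.Lib.MP_dd84fd_nt.Weyl
import Pool.Agent.Lib.MP_dd84fd_nt.DivBound

/-!
# Power saving in Weyl sums modulo a prime over short intervals
-/

set_option autoImplicit false

namespace Pool.Agent.Lib.MP_dd84fd_nt.WeylSave

open Finset Pool.Agent.Lib.MP_dd84fd_nt.Weyl Pool.Agent.Lib.MP_dd84fd_nt.DivBound

/-- logarithms against powers -/
theorem log_small (a C : ℝ) (ha : 0 < a) :
    ∀ᶠ q : ℕ in Filter.atTop, C * (3 + Real.log q) * (q : ℝ) ^ (-a) ≤ 1 := by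
  have h1 : (fun x : ℝ => C * (3 + Real.log x)) =o[Filter.atTop] fun x => x ^ a := by
    refine Asymptotics.IsLittleO.const_mul_left ?_ C
    refine Asymptotics.IsLittleO.add ?_ (isLittleO_log_rpow_atTop ha)
    exact Asymptotics.isLittleO_const_left.2 (Or.inr
      (Filter.tendsto_abs_atTop_atTop.comp (tendsto_rpow_atTop ha)))
  have h2 := (h1.bound (show (0 : ℝ) < 1 by norm_num))
  have h3 := (tendsto_natCast_atTop_atTop (R := ℝ)).eventually h2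
  filter_upwards [h3, Filter.eventually_gt_atTop 0] with q hq hq0
  have hq' : (0 : ℝ) < q := by exact_mod_cast hq0
  rw [one_mul, Real.norm_of_nonneg (Real.rpow_nonneg hq'.le a)] at hq
  rw [Real.rpow_neg hq'.le, ← div_eq_mul_inv, div_le_one (Real.rpow_pos_of_pos hq' a)]
  exact (le_abs_self _).trans hq

/-- **Power saving.** For `k ≥ 1` and `ε > 0` there is `c > 0` with: for all large primes `q`, all
polynomials of degree `k + 1` modulo `q` and `q^(1/(k+1)+ε) ≤ L ≤ q`, the exponential sum over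
`x < L` is at most `L q^(-c)`. -/
theorem power_saving (k : ℕ) (hk : 1 ≤ k) (ε : ℝ) (hε : 0 < ε) : ∃ c : ℝ, 0 < c ∧
    ∀ᶠ q : ℕ in Filter.atTop, ∀ [Fact q.Prime] (P : Polynomial (ZMod q)),
      P.natDegree = k + 1 → ∀ L : ℕ, (q : ℝ) ^ (1 / ((k : ℝ) + 1) + ε) ≤ L → L ≤ q →
      T (fun x => P.eval (x : ZMod q)) L ≤ L * (q : ℝ) ^ (-c) := by
  obtain ⟨κ, hκ⟩ := exists_nat_gt (2 * (k : ℝ) ^ 2 / ε)
  have hk0 : (0 : ℝ) < k := by exact_mod_cast hk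
  have hκ0 : (0 : ℝ) < κ := lt_trans (by positivity) hκ
  have hκ0' : κ ≠ 0 := by intro h; rw [h] at hκ0; simp at hκ0
  obtain ⟨C, hC1, hC⟩ := div_bound κ
  have hCr : (1 : ℝ) ≤ C := by exact_mod_cast hC1
  set A : ℝ := (C : ℝ) ^ ((k : ℝ) / κ) with hA
  have hA0 : 0 < A := Real.rpow_pos_of_pos (by linarith) _
  set c : ℝ := ε / 4 / 2 ^ k with hc
  have hc0 : 0 < c := by positivity
  refine ⟨c, hc0, ?_⟩
  have hM : ∀ᶠ q : ℕ in Filter.atTop,
      (2 ^ (2 ^ k) * (k + 2 * A)) * (3 + Real.log q) * (q : ℝ) ^ (-(ε / 4)) ≤ 1 :=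
    log_small (ε / 4) _ (by positivity)
  filter_upwards [hM, Filter.eventually_gt_atTop (k + 1), Filter.eventually_ge_atTop 3] with
    q hq1 hqk hq3 _ P hP L hL hLq
  have hprime : q.Prime := Fact.out
  have : NeZero q := ⟨hprime.ne_zero⟩
  have hq : (1 : ℝ) < q := by exact_mod_cast (show 1 < q by omega)
  have hq0 : (0 : ℝ) < q := by linarith
  have hlog : 0 ≤ Real.log q := Real.log_nonneg hq.le
  have hLr : (L : ℝ) ≤ q := by exact_mod_cast hLq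
  have hLε : (q : ℝ) ^ ε ≤ L := by
    refine le_trans (Real.rpow_le_rpow_of_exponent_le hq.le ?_) hL
    have : (0 : ℝ) ≤ 1 / ((k : ℝ) + 1) := by positivity
    linarith
  have hL0 : (0 : ℝ) < L := lt_of_lt_of_le (Real.rpow_pos_of_pos hq0 _) hLε
  have hLk : (q : ℝ) * (q : ℝ) ^ ε ≤ (L : ℝ) ^ (k + 1) := by
    have h1 : ((q : ℝ) ^ (1 / ((k : ℝ) + 1) + ε)) ^ (k + 1) ≤ (L : ℝ) ^ (k + 1) :=
      pow_le_pow_left₀ (Real.rpow_nonneg hq0.le _) hL _
    refine le_trans ?_ h1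
    rw [← Real.rpow_natCast, ← Real.rpow_mul hq0.le]
    have h2 : (q : ℝ) * (q : ℝ) ^ ε = (q : ℝ) ^ (1 + ε) := by
      rw [Real.rpow_add hq0, Real.rpow_one]
    rw [h2]
    refine Real.rpow_le_rpow_of_exponent_le hq.le ?_
    push_cast
    have h3 : (1 / ((k : ℝ) + 1) + ε) * ((k : ℝ) + 1) = 1 + ε * (k + 1) := by
      field_simp
    rw [h3]
    nlinarith
  -- the divisor bound
  set D : ℕ := ⌊((C : ℝ) * (q : ℝ) ^ k) ^ ((1 : ℝ) / κ)⌋₊ with hD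
  have hDle : ∀ m, m ≠ 0 → m ≤ L ^ k → m.divisors.card ≤ D := by
    intro m hm hmL
    rw [hD]
    refine Nat.le_floor ?_
    have h1 : ((m.divisors.card : ℝ)) ^ κ ≤ (C : ℝ) * (q : ℝ) ^ k := by
      have h2 := hC m hm
      have h3 : C * m ≤ C * q ^ k :=
        Nat.mul_le_mul_left _ (hmL.trans (Nat.pow_le_pow_left hLq k))
      exact_mod_cast h2.trans h3
    calc (m.divisors.card : ℝ) = (((m.divisors.card : ℝ)) ^ κ) ^ ((1 : ℝ) / κ) := by
          rw [← Real.rpow_natCast, ← Real.rpow_mul (Nat.cast_nonneg _), mul_one_div_cancel hκ0.ne',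
            Real.rpow_one]
      _ ≤ _ := Real.rpow_le_rpow (by positivity) h1 (by positivity)
  have hDk : (D : ℝ) ^ k ≤ A * (q : ℝ) ^ (ε / 2) := by
    have h1 : (D : ℝ) ≤ ((C : ℝ) * (q : ℝ) ^ k) ^ ((1 : ℝ) / κ) := Nat.floor_le (by positivity)
    have h2 : (D : ℝ) ^ k ≤ (((C : ℝ) * (q : ℝ) ^ k) ^ ((1 : ℝ) / κ)) ^ k :=
      pow_le_pow_left₀ (Nat.cast_nonneg _) h1 k
    refine h2.trans ?_
    rw [← Real.rpow_natCast (((C : ℝ) * (q : ℝ) ^ k) ^ ((1 : ℝ) / κ)) k,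
      ← Real.rpow_mul (by positivity), Real.mul_rpow (by positivity) (by positivity),
      ← Real.rpow_natCast (q : ℝ) k, ← Real.rpow_mul hq0.le]
    have e1 : (1 : ℝ) / κ * k = (k : ℝ) / κ := by ring
    rw [e1, ← hA]
    refine mul_le_mul_of_nonneg_left (Real.rpow_le_rpow_of_exponent_le hq.le ?_) hA0.le
    have h3 : (k : ℝ) * ((k : ℝ) / κ) = (k : ℝ) ^ 2 / κ := by ring
    rw [h3, div_le_div_iff₀ hκ0 (by norm_num)]
    rw [div_lt_iff₀ hε] at hκ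
    linarith
  -- Weyl
  have hb : ((k + 1).factorial : ZMod q) * P.coeff (k + 1) ≠ 0 := by
    refine mul_ne_zero ?_ ?_
    · rw [Ne, ZMod.natCast_eq_zero_iff, hprime.dvd_factorial]
      omega
    · have h0 : P ≠ 0 := by
        intro h; rw [h] at hP; simp at hP
      rw [← hP]
      exact Polynomial.leadingCoeff_ne_zero.2 h0
  have hW := weyl_bound L k D P hP.le hb hDle
  set T0 := T (fun x => P.eval (x : ZMod q)) L with hT0
  have hT00 : 0 ≤ T0 := T_nonneg _ _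
  -- estimate of the bracket
  have hqε : (0 : ℝ) < (q : ℝ) ^ ε := Real.rpow_pos_of_pos hq0 _
  have hbr : (k : ℝ) * (L : ℝ) ^ k + (D : ℝ) ^ k * (((L : ℝ) ^ k / q + 1) *
      (L + q * (1 + Real.log q))) ≤
      (L : ℝ) ^ (k + 1) * ((k + 2 * A) * (3 + Real.log q) * (q : ℝ) ^ (-(ε / 2))) := by
    have h1 : (L : ℝ) ^ k ≤ (L : ℝ) ^ (k + 1) * (q : ℝ) ^ (-ε) := by
      rw [Real.rpow_neg hq0.le, pow_succ, mul_assoc]
      have : 1 ≤ (L : ℝ) * ((q : ℝ) ^ ε)⁻¹ := by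
        rw [← div_eq_mul_inv, one_le_div hqε]
        exact hLε
      exact le_mul_of_one_le_right (by positivity) this
    have h2 : (q : ℝ) ≤ (L : ℝ) ^ (k + 1) * (q : ℝ) ^ (-ε) := by
      rw [Real.rpow_neg hq0.le, ← div_eq_mul_inv, le_div_iff₀ hqε]
      exact hLk
    have h3 : ((L : ℝ) ^ k / q + 1) * (L + q * (1 + Real.log q)) ≤
        2 * (3 + Real.log q) * ((L : ℝ) ^ (k + 1) * (q : ℝ) ^ (-ε)) := by
      have h4 : (L : ℝ) + q * (1 + Real.log q) ≤ q * (3 + Real.log q) := by nlinarith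
      calc ((L : ℝ) ^ k / q + 1) * (L + q * (1 + Real.log q))
          ≤ ((L : ℝ) ^ k / q + 1) * (q * (3 + Real.log q)) :=
            mul_le_mul_of_nonneg_left h4 (by positivity)
        _ = ((L : ℝ) ^ k + q) * (3 + Real.log q) := by field_simp
        _ ≤ ((L : ℝ) ^ (k + 1) * (q : ℝ) ^ (-ε) + (L : ℝ) ^ (k + 1) * (q : ℝ) ^ (-ε)) *
            (3 + Real.log q) := mul_le_mul_of_nonneg_right (by linarith) (by linarith)
        _ = _ := by ring
    have h5 : (q : ℝ) ^ (-ε) ≤ (q : ℝ) ^ (-(ε / 2)) :=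
      Real.rpow_le_rpow_of_exponent_le hq.le (by linarith)
    have h6 : (q : ℝ) ^ (ε / 2) * (q : ℝ) ^ (-ε) = (q : ℝ) ^ (-(ε / 2)) := by
      rw [← Real.rpow_add hq0]; congr 1; ring
    have h7 : (k : ℝ) * (L : ℝ) ^ k ≤ (L : ℝ) ^ (k + 1) *
        (k * (3 + Real.log q) * (q : ℝ) ^ (-(ε / 2))) := by
      calc (k : ℝ) * (L : ℝ) ^ k ≤ k * ((L : ℝ) ^ (k + 1) * (q : ℝ) ^ (-(ε / 2))) :=
            mul_le_mul_of_nonneg_left (h1.trans (mul_le_mul_of_nonneg_left h5 (by positivity)))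
              hk0.le
        _ = ((L : ℝ) ^ (k + 1) * (k * (q : ℝ) ^ (-(ε / 2)))) * 1 := by ring
        _ ≤ ((L : ℝ) ^ (k + 1) * (k * (q : ℝ) ^ (-(ε / 2)))) * (3 + Real.log q) :=
            mul_le_mul_of_nonneg_left (by linarith) (by positivity)
        _ = _ := by ring
    have h8 : (D : ℝ) ^ k * (((L : ℝ) ^ k / q + 1) * (L + q * (1 + Real.log q))) ≤
        (L : ℝ) ^ (k + 1) * (2 * A * (3 + Real.log q) * (q : ℝ) ^ (-(ε / 2))) := by
      calc (D : ℝ) ^ k * (((L : ℝ) ^ k / q + 1) * (L + q * (1 + Real.log q)))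
          ≤ (A * (q : ℝ) ^ (ε / 2)) * (2 * (3 + Real.log q) *
            ((L : ℝ) ^ (k + 1) * (q : ℝ) ^ (-ε))) :=
            mul_le_mul hDk h3 (by positivity) (by positivity)
        _ = (L : ℝ) ^ (k + 1) * (2 * A * (3 + Real.log q) *
            ((q : ℝ) ^ (ε / 2) * (q : ℝ) ^ (-ε))) := by ring
        _ = _ := by rw [h6]
    calc _ ≤ _ := add_le_add h7 h8
      _ = _ := by ring
  have hfin : T0 ^ (2 ^ k) ≤ (L * (q : ℝ) ^ (-c)) ^ (2 ^ k) := by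
    have e0 : 2 ^ k - k - 1 + (k + 1) = 2 ^ k := by have := two_pow_ge k; omega
    have e1 : (L * (q : ℝ) ^ (-c)) ^ (2 ^ k) = (L : ℝ) ^ (2 ^ k) * (q : ℝ) ^ (-(ε / 4)) := by
      rw [mul_pow, ← Real.rpow_natCast ((q : ℝ) ^ (-c)), ← Real.rpow_mul hq0.le]
      congr 2
      rw [hc]; push_cast; field_simp
    have e2 : (q : ℝ) ^ (-(ε / 2)) = (q : ℝ) ^ (-(ε / 4)) * (q : ℝ) ^ (-(ε / 4)) := by
      rw [← Real.rpow_add hq0]; congr 1; ring
    rw [e1]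
    refine hW.trans ?_
    have h1 : (2 * (L : ℝ)) ^ (2 ^ k - k - 1) * (2 ^ k * (k * (L : ℝ) ^ k +
        (D : ℝ) ^ k * (((L : ℝ) ^ k / q + 1) * (L + q * (1 + Real.log q))))) ≤
        (2 * (L : ℝ)) ^ (2 ^ k - k - 1) * (2 ^ k *
        ((L : ℝ) ^ (k + 1) * ((k + 2 * A) * (3 + Real.log q) * (q : ℝ) ^ (-(ε / 2))))) :=
      mul_le_mul_of_nonneg_left (mul_le_mul_of_nonneg_left hbr (by positivity)) (by positivity)
    refine h1.trans ?_
    have e3 : (2 * (L : ℝ)) ^ (2 ^ k - k - 1) * (2 ^ k *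
        ((L : ℝ) ^ (k + 1) * ((k + 2 * A) * (3 + Real.log q) * (q : ℝ) ^ (-(ε / 2))))) =
        ((2 : ℝ) ^ (2 ^ k - k - 1) * 2 ^ k) * (L : ℝ) ^ (2 ^ k) *
          ((k + 2 * A) * (3 + Real.log q) * (q : ℝ) ^ (-(ε / 4))) * (q : ℝ) ^ (-(ε / 4)) := by
      rw [e2, mul_pow]
      have : (L : ℝ) ^ (2 ^ k) = (L : ℝ) ^ (2 ^ k - k - 1) * (L : ℝ) ^ (k + 1) := by
        rw [← pow_add, e0]
      rw [this]; ring
    rw [e3]
    refine mul_le_mul_of_nonneg_right ?_ (Real.rpow_nonneg hq0.le _)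
    have h2 : ((2 : ℝ) ^ (2 ^ k - k - 1) * 2 ^ k) ≤ 2 ^ (2 ^ k) := by
      rw [← pow_add]
      exact pow_le_pow_right₀ (by norm_num) (by have := two_pow_ge k; omega)
    have h3 : (0 : ℝ) ≤ (k + 2 * A) * (3 + Real.log q) * (q : ℝ) ^ (-(ε / 4)) := by positivity
    calc ((2 : ℝ) ^ (2 ^ k - k - 1) * 2 ^ k) * (L : ℝ) ^ (2 ^ k) *
          ((k + 2 * A) * (3 + Real.log q) * (q : ℝ) ^ (-(ε / 4)))
        ≤ (2 ^ (2 ^ k)) * (L : ℝ) ^ (2 ^ k) *
          ((k + 2 * A) * (3 + Real.log q) * (q : ℝ) ^ (-(ε / 4))) :=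
          mul_le_mul_of_nonneg_right (mul_le_mul_of_nonneg_right h2 (by positivity)) h3
      _ = (L : ℝ) ^ (2 ^ k) * ((2 ^ (2 ^ k) * (k + 2 * A)) * (3 + Real.log q) *
          (q : ℝ) ^ (-(ε / 4))) := by ring
      _ ≤ (L : ℝ) ^ (2 ^ k) * 1 := mul_le_mul_of_nonneg_left hq1 (by positivity)
      _ = _ := mul_one _
  exact le_of_pow_le_pow_left₀ (by positivity) (by positivity) hfin

end Pool.Agent.Lib.MP_dd84fd_nt.WeylSave
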