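import Pool.Agent.Lib.MP_dd84fd_nt.PrimesMod
import Pool.Agent.Lib.MP_dd84fd_nt.Fourier
import Pool.Agent.Lib.MP_dd84fd_nt.WeylSave

/-!
# Goldbach numbers along pseudorandom sequences modulo a prime
-/

set_option autoImplicit false

namespace Pool.Agent.Lib.MP_dd84fd_nt.Orbit

open Finset Pool.Agent.Lib.MP_dd84fd_nt.Cheb Pool.Agent.Lib.MP_dd84fd_nt.Dilates
  Pool.Agent.Lib.MP_dd84fd_nt.PrimesMod Pool.Agent.Lib.MP_dd84fd_nt.Fourier
  Pool.Agent.Lib.MP_dd84fd_nt.Weyl Pool.Agent.Lib.MP_dd84fd_nt.WeylSave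

theorem rep_eq_rep2 {q : ℕ} [Fact q.Prime] (A : Finset (ZMod q)) (x : ZMod q) :
    rep A x = rep2 A A x := rfl

/-- **Pseudorandom sequences.** -/
theorem pseudo {q : ℕ} [Fact q.Prime] (hL : Large q) {ι : Type*} (S : Finset ι)
    (f : ι → ZMod q)
    (hM : ∀ h : ZMod q, h ≠ 0 → ‖∑ s ∈ S, (ZMod.stdAddChar (h * f s) : ℂ)‖ ≤
      S.card / (20 * Real.log q)) :
    (S.card : ℝ) / (40 * Real.log q) ≤
      (({s ∈ (S : Set ι) | Good (1 / 1600) (f s).val} : Set ι).ncard : ℝ) := by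
  apply many_good S f hL
  obtain ⟨hq100, hcard⟩ := hL
  have hq0 : (100 : ℝ) ≤ q := by exact_mod_cast hq100
  have hlogq : 0 < Real.log q := Real.log_pos (by linarith)
  rw [← card_AA (q := q)] at hcard
  have hcard0 : 0 < (q : ℝ) / (10 * Real.log q) := by positivity
  have hdev := rep2_dev S f (AA q) (AA q) _ hM (by positivity)
  have h1 := (abs_le.1 hdev).1
  have h2 : (S.card : ℝ) / (20 * Real.log q) * (((AA q).card + (AA q).card) / 2) ≤
      S.card * (AA q).card ^ 2 / q / 2 := by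
    have h3 : 1 / (20 * Real.log q) ≤ ((AA q).card : ℝ) / q / 2 := by
      calc 1 / (20 * Real.log q) = (q : ℝ) / (10 * Real.log q) / q / 2 := by
            field_simp; norm_num
        _ ≤ _ := by gcongr
    calc (S.card : ℝ) / (20 * Real.log q) * (((AA q).card + (AA q).card) / 2)
        = (S.card * (AA q).card) * (1 / (20 * Real.log q)) := by ring
      _ ≤ (S.card * (AA q).card) * (((AA q).card : ℝ) / q / 2) :=
          mul_le_mul_of_nonneg_left h3 (by positivity)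
      _ = _ := by ring
  have h4 : ∑ s ∈ S, rep (AA q) (f s) = ∑ s ∈ S, rep2 (AA q) (AA q) (f s) :=
    sum_congr rfl fun s _ => rep_eq_rep2 _ _
  have h5 : (S.card : ℝ) * (AA q).card * (AA q).card / q = S.card * (AA q).card ^ 2 / q := by ring
  have h6 : (S.card : ℝ) * (AA q).card ^ 2 / q / 2 + S.card * (AA q).card ^ 2 / q / 2 =
      S.card * (AA q).card ^ 2 / q := by ring
  rw [h4]
  rw [h5] at h1
  linarith

/-- **Polynomial orbits**, one block. -/
theorem block (k : ℕ) (hk : 1 ≤ k) (ε : ℝ) (hε : 0 < ε) :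
    ∀ᶠ q : ℕ in Filter.atTop, ∀ [Fact q.Prime] (P : Polynomial (ZMod q)),
      P.natDegree = k + 1 → ∀ L : ℕ, (q : ℝ) ^ (1 / ((k : ℝ) + 1) + ε) ≤ L → L ≤ q →
      (L : ℝ) / (40 * Real.log q) ≤
        (({x ∈ ((range L : Finset ℕ) : Set ℕ) | Good (1 / 1600) (P.eval (x : ZMod q)).val} :
          Set ℕ).ncard : ℝ) := by
  obtain ⟨c, hc, hps⟩ := power_saving k hk ε hε
  filter_upwards [hps, log_small c 20 hc, eventually_large] with q h1 h2 h3 _ P hP L hL hLq
  have hlarge : Large q := h3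
  obtain ⟨hq100, hcard⟩ := h3
  have hq0 : (100 : ℝ) ≤ q := by exact_mod_cast hq100
  have hlogq : 0 < Real.log q := Real.log_pos (by linarith)
  have h4 := pseudo hlarge (range L) (fun x => P.eval (x : ZMod q)) ?_
  · rw [card_range] at h4
    exact h4
  intro h hh
  rw [card_range]
  have hd : (Polynomial.C h * P).natDegree = k + 1 := by
    rw [Polynomial.natDegree_C_mul hh, hP]
  have h5 := h1 (Polynomial.C h * P) hd L hL hLq
  have h6 : T (fun x => (Polynomial.C h * P).eval (x : ZMod q)) L =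
      ‖∑ s ∈ range L, (ZMod.stdAddChar (h * P.eval (s : ZMod q)) : ℂ)‖ := by
    unfold T
    congr 1
    refine sum_congr rfl fun x _ => ?_
    show (ZMod.stdAddChar ((Polynomial.C h * P).eval (x : ZMod q)) : ℂ) = _
    rw [Polynomial.eval_mul, Polynomial.eval_C]
  rw [h6] at h5
  refine h5.trans ?_
  rw [div_eq_mul_inv]
  refine mul_le_mul_of_nonneg_left ?_ (Nat.cast_nonneg _)
  rw [inv_eq_one_div, le_div_iff₀ (by positivity)]
  have h7 : 0 ≤ (q : ℝ) ^ (-c) := by positivity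
  nlinarith

/-- **Polynomial orbits**, arbitrary intervals. -/
theorem orbit (k : ℕ) (hk : 1 ≤ k) (ε : ℝ) (hε : 0 < ε) :
    ∀ᶠ q : ℕ in Filter.atTop, ∀ [Fact q.Prime] (P : Polynomial (ZMod q)),
      P.natDegree = k + 1 → ∀ a L : ℕ, (q : ℝ) ^ (1 / ((k : ℝ) + 1) + ε) ≤ L →
      (L : ℝ) / (80 * Real.log q) ≤
        (({x | (a ≤ x ∧ x < a + L) ∧ Good (1 / 1600) (P.eval (x : ZMod q)).val} :
          Set ℕ).ncard : ℝ) := by
  -- reduce to a small exponent
  set ε' : ℝ := min ε (1 / 4) with hε'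
  have hε'0 : 0 < ε' := lt_min hε (by norm_num)
  have hk1 : (1 : ℝ) ≤ k := by exact_mod_cast hk
  set θ : ℝ := 1 / ((k : ℝ) + 1) + ε' with hθ
  have hθ1 : θ ≤ 3 / 4 := by
    have h1 : 1 / ((k : ℝ) + 1) ≤ 1 / 2 := one_div_le_one_div_of_le (by norm_num) (by linarith)
    have h2 : ε' ≤ 1 / 4 := min_le_right _ _
    linarith
  have hθ0 : 0 ≤ θ := by positivity
  filter_upwards [block k hk ε' hε'0, Filter.eventually_ge_atTop 100] with q hb hq100 _ P hP a L hL
  have hq0 : (100 : ℝ) ≤ q := by exact_mod_cast hq100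
  have hlogq : 0 < Real.log q := Real.log_pos (by linarith)
  set N : ℕ := ⌈(q : ℝ) ^ θ⌉₊ with hN
  have hN1 : (q : ℝ) ^ θ ≤ N := Nat.le_ceil _
  have hpow : (q : ℝ) ^ θ + 1 ≤ q := by
    have h1 : (q : ℝ) ^ θ ≤ (q : ℝ) ^ (3 / 4 : ℝ) :=
      Real.rpow_le_rpow_of_exponent_le (by linarith) hθ1
    have h2 : (q : ℝ) ^ (3 / 4 : ℝ) * (q : ℝ) ^ (1 / 4 : ℝ) = q := by
      rw [← Real.rpow_add (by linarith)]; norm_num
    have h3 : (2 : ℝ) ≤ (q : ℝ) ^ (1 / 4 : ℝ) := by
      have h4 : (2 : ℝ) = (16 : ℝ) ^ (1 / 4 : ℝ) := by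
        rw [show (16 : ℝ) = 2 ^ (4 : ℝ) by norm_num, ← Real.rpow_mul (by norm_num)]; norm_num
      rw [h4]
      exact Real.rpow_le_rpow (by norm_num) (by linarith) (by norm_num)
    have h5 : (1 : ℝ) ≤ (q : ℝ) ^ (3 / 4 : ℝ) := Real.one_le_rpow (by linarith) (by norm_num)
    nlinarith
  have hNq : N ≤ q := by
    rw [hN]
    refine Nat.ceil_le.2 ?_
    linarith
  have hN0 : 0 < N := by
    have : (0 : ℝ) < N := lt_of_lt_of_le (by positivity) hN1
    exact_mod_cast this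
  have hNL : N ≤ L := by
    rw [hN]
    refine Nat.ceil_le.2 (le_trans (Real.rpow_le_rpow_of_exponent_le (by linarith) ?_) hL)
    have : ε' ≤ ε := min_le_left _ _
    linarith
  -- blocks
  have hblock : ∀ j : ℕ, (N : ℝ) / (40 * Real.log q) ≤
      (({x | (a + N * j ≤ x ∧ x < a + N * (j + 1)) ∧
        Good (1 / 1600) (P.eval (x : ZMod q)).val} : Set ℕ).ncard : ℝ) := by
    intro j
    set Q : Polynomial (ZMod q) := P.comp (Polynomial.X + Polynomial.C ((a + N * j : ℕ) : ZMod q))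
      with hQ
    have hQd : Q.natDegree = k + 1 := by
      rw [hQ, Polynomial.natDegree_comp, Polynomial.natDegree_X_add_C, mul_one, hP]
    have h1 := hb Q hQd N hN1 hNq
    refine h1.trans ?_
    have h2 : ({x ∈ ((range N : Finset ℕ) : Set ℕ) | Good (1 / 1600) (Q.eval (x : ZMod q)).val} :
        Set ℕ).ncard ≤ ({x | (a + N * j ≤ x ∧ x < a + N * (j + 1)) ∧
        Good (1 / 1600) (P.eval (x : ZMod q)).val} : Set ℕ).ncard := by
      refine Set.ncard_le_ncard_of_injOn (fun x => x + (a + N * j)) ?_ ?_ ?_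
      · rintro x ⟨hx, hg⟩
        have hx' := mem_range.1 (mem_coe.1 hx)
        refine ⟨⟨by omega, by rw [Nat.mul_succ]; omega⟩, ?_⟩
        rw [hQ, Polynomial.eval_comp] at hg
        simp only [Polynomial.eval_add, Polynomial.eval_X, Polynomial.eval_C] at hg
        push_cast at hg ⊢
        exact hg
      · intro x _ y _ hxy
        exact Nat.add_right_cancel hxy
      · exact (Set.finite_Ico (a + N * j) (a + N * (j + 1))).subset fun x hx => hx.1
    exact_mod_cast h2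
  have hsum : ∀ J : ℕ, (J : ℝ) * ((N : ℝ) / (40 * Real.log q)) ≤
      (({x | (a ≤ x ∧ x < a + N * J) ∧ Good (1 / 1600) (P.eval (x : ZMod q)).val} :
        Set ℕ).ncard : ℝ) := by
    intro J
    induction J with
    | zero => simp
    | succ J ih =>
      have h1 := hblock J
      have h2 : ({x | (a ≤ x ∧ x < a + N * J) ∧ Good (1 / 1600) (P.eval (x : ZMod q)).val} :
          Set ℕ).ncard + ({x | (a + N * J ≤ x ∧ x < a + N * (J + 1)) ∧
          Good (1 / 1600) (P.eval (x : ZMod q)).val} : Set ℕ).ncard ≤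
          ({x | (a ≤ x ∧ x < a + N * (J + 1)) ∧
          Good (1 / 1600) (P.eval (x : ZMod q)).val} : Set ℕ).ncard := by
        rw [← Set.ncard_union_eq ?_ ((Set.finite_Ico a (a + N * J)).subset fun x hx => hx.1)
          ((Set.finite_Ico (a + N * J) (a + N * (J + 1))).subset fun x hx => hx.1)]
        · refine Set.ncard_le_ncard ?_
            ((Set.finite_Ico a (a + N * (J + 1))).subset fun x hx => hx.1)
          rintro x (⟨hx, hg⟩ | ⟨hx, hg⟩)
          · exact ⟨⟨hx.1, by rw [Nat.mul_succ]; omega⟩, hg⟩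
          · exact ⟨⟨by omega, hx.2⟩, hg⟩
        · rw [Set.disjoint_left]
          rintro x ⟨hx, _⟩ ⟨hy, _⟩
          omega
      have h3 : ((({x | (a ≤ x ∧ x < a + N * J) ∧ Good (1 / 1600) (P.eval (x : ZMod q)).val} :
          Set ℕ).ncard : ℕ) : ℝ) + ((({x | (a + N * J ≤ x ∧ x < a + N * (J + 1)) ∧
          Good (1 / 1600) (P.eval (x : ZMod q)).val} : Set ℕ).ncard : ℕ) : ℝ) ≤
          ((({x | (a ≤ x ∧ x < a + N * (J + 1)) ∧
          Good (1 / 1600) (P.eval (x : ZMod q)).val} : Set ℕ).ncard : ℕ) : ℝ) := by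
        exact_mod_cast h2
      push_cast
      linarith
  have h1 := hsum (L / N)
  have h2 : ({x | (a ≤ x ∧ x < a + N * (L / N)) ∧ Good (1 / 1600) (P.eval (x : ZMod q)).val} :
        Set ℕ).ncard ≤ ({x | (a ≤ x ∧ x < a + L) ∧
          Good (1 / 1600) (P.eval (x : ZMod q)).val} : Set ℕ).ncard := by
    refine Set.ncard_le_ncard ?_ ((Set.finite_Ico a (a + L)).subset fun x hx => hx.1)
    rintro x ⟨hx, hg⟩
    have := Nat.mul_div_le L N
    exact ⟨⟨hx.1, by omega⟩, hg⟩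
  have h3 : (L : ℝ) ≤ 2 * (((L / N : ℕ) : ℝ) * N) := by
    have h4 : L < N * (L / N + 1) := Nat.lt_mul_div_succ L hN0
    have h5 : 1 ≤ L / N := (Nat.one_le_div_iff hN0).2 hNL
    have h6 : N * (L / N + 1) ≤ 2 * ((L / N) * N) := by
      nlinarith
    exact_mod_cast (h4.trans_le h6).le
  calc (L : ℝ) / (80 * Real.log q) ≤ (2 * (((L / N : ℕ) : ℝ) * N)) / (80 * Real.log q) :=
        div_le_div_of_nonneg_right h3 (by positivity)
    _ = ((L / N : ℕ) : ℝ) * ((N : ℝ) / (40 * Real.log q)) := by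
        field_simp; ring
    _ ≤ _ := h1
    _ ≤ _ := by exact_mod_cast h2

end Pool.Agent.Lib.MP_dd84fd_nt.Orbit
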