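import Pool.Agent.Lib.MP_dd84fd_nt.Cheb
import Pool.Agent.Lib.MP_dd84fd_nt.Dilates

/-!
# The primes up to `q / 2` as residues modulo the prime `q`
-/

set_option autoImplicit false

namespace Pool.Agent.Lib.MP_dd84fd_nt.PrimesMod

open Finset Pool.Agent.Lib.MP_dd84fd_nt.Cheb Pool.Agent.Lib.MP_dd84fd_nt.Dilates

/-- number of ordered pairs of primes with sum `n` -/
def g (n : ℕ) : ℕ :=
  ((Finset.range (n + 1)).filter (fun p => Nat.Prime p ∧ Nat.Prime (n - p))).card

/-- The even number `n > 2` satisfies the inequality of Q1 with the constant `δ`. -/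
def Good (δ : ℝ) (n : ℕ) : Prop :=
  Even n ∧ 2 < n ∧ δ * (n : ℝ) / (Real.log (n : ℝ)) ^ 2 ≤ (g n : ℝ)

/-- the residues of the primes in `(Y/4, Y]`, `Y = (q-1)/2` -/
def AA (q : ℕ) : Finset (ZMod q) := (P4 ((q - 1) / 2)).image (fun p : ℕ => (p : ZMod q))

theorem mem_P4 {Y p : ℕ} : p ∈ P4 Y ↔ (Y / 4 < p ∧ p ≤ Y) ∧ p.Prime := by
  simp [P4, and_assoc]

variable {q : ℕ} [Fact q.Prime]

theorem card_AA : (AA q).card = (P4 ((q - 1) / 2)).card := by
  have hq : 0 < q := (Fact.out : q.Prime).pos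
  unfold AA
  rw [Finset.card_image_of_injOn]
  intro a ha b hb hab
  have ha' := (mem_P4.1 (Finset.mem_coe.1 ha)).1
  have hb' := (mem_P4.1 (Finset.mem_coe.1 hb)).1
  have h : (a : ZMod q).val = (b : ZMod q).val := congrArg ZMod.val hab
  rwa [ZMod.val_natCast_of_lt (by omega), ZMod.val_natCast_of_lt (by omega)] at h

theorem rep_le_card (A : Finset (ZMod q)) (x : ZMod q) : rep A x ≤ A.card := by
  unfold rep
  calc ∑ p ∈ A, (if x - p ∈ A then (1 : ℝ) else 0) ≤ ∑ p ∈ A, 1 :=
        Finset.sum_le_sum fun p _ => by split_ifs <;> norm_num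
    _ = A.card := by simp

theorem rep_nonneg (A : Finset (ZMod q)) (x : ZMod q) : 0 ≤ rep A x :=
  Finset.sum_nonneg fun _ _ => by split_ifs <;> norm_num

/-- A residue with a representation is represented by an even integer with at least as many
representations as a sum of two primes. -/
theorem rep_g (h8 : 17 ≤ q) (x : ZMod q) (hx : 0 < rep (AA q) x) :
    Even x.val ∧ 2 < x.val ∧ (q - 1) / 2 < 2 * x.val ∧ rep (AA q) x ≤ (g x.val : ℝ) := by
  classical
  have hq : 0 < q := (Fact.out : q.Prime).pos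
  have : NeZero q := ⟨hq.ne'⟩
  set Y := (q - 1) / 2 with hY
  have hY8 : 8 ≤ Y := by omega
  -- natural representatives
  have key : ∀ p ∈ AA q, x - p ∈ AA q →
      p.val ∈ P4 Y ∧ (x - p).val ∈ P4 Y ∧ x.val = p.val + (x - p).val := by
    intro p hp hp'
    obtain ⟨P, hP, rfl⟩ := Finset.mem_image.1 hp
    obtain ⟨P', hP', hPP⟩ := Finset.mem_image.1 hp'
    have h1 := (mem_P4.1 hP).1
    have h2 := (mem_P4.1 hP').1
    have h3 : x = ((P + P' : ℕ) : ZMod q) := by
      push_cast
      rw [hPP]; ring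
    rw [← hPP]
    rw [ZMod.val_natCast_of_lt (by omega), ZMod.val_natCast_of_lt (by omega)]
    refine ⟨hP, hP', ?_⟩
    rw [h3, ZMod.val_natCast_of_lt (by omega)]
  have hrep : rep (AA q) x = (((AA q).filter (fun p => x - p ∈ AA q)).card : ℝ) := by
    unfold rep
    rw [Finset.card_filter]
    push_cast
    rfl
  obtain ⟨p, hp⟩ : ((AA q).filter (fun p => x - p ∈ AA q)).Nonempty := by
    rw [← Finset.card_pos]
    rw [hrep] at hx
    exact_mod_cast hx
  rw [mem_filter] at hp
  obtain ⟨h1, h2, h3⟩ := key p hp.1 hp.2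
  have h1' := mem_P4.1 h1
  have h2' := mem_P4.1 h2
  refine ⟨?_, by omega, by omega, ?_⟩
  · rw [h3]
    exact (h1'.2.odd_of_ne_two (by omega)).add_odd (h2'.2.odd_of_ne_two (by omega))
  · rw [hrep]
    unfold g
    have hcard : ((AA q).filter (fun p => x - p ∈ AA q)).card ≤
        ((Finset.range (x.val + 1)).filter
          (fun p => Nat.Prime p ∧ Nat.Prime (x.val - p))).card := by
      refine Finset.card_le_card_of_injOn (fun p => p.val) ?_ ?_
      · intro p hp
        have hp := mem_filter.1 (Finset.mem_coe.1 hp)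
        obtain ⟨k1, k2, k3⟩ := key p hp.1 hp.2
        have k1' := mem_P4.1 k1
        have k2' := mem_P4.1 k2
        refine Finset.mem_coe.2 (mem_filter.2 ⟨mem_range.2 (by show p.val < x.val + 1; omega),
          k1'.2, ?_⟩)
        rw [show x.val - p.val = (x - p).val by omega]
        exact k2'.2
      · intro a _ b _ hab
        exact ZMod.val_injective q hab
    exact_mod_cast hcard

/-- `q` is large enough for the Chebyshev bound. -/
def Large (q : ℕ) : Prop := 100 ≤ q ∧ (q : ℝ) / (10 * Real.log q) ≤ (P4 ((q - 1) / 2)).card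

theorem eventually_large : ∀ᶠ q : ℕ in Filter.atTop, Large q := by
  obtain ⟨Y0, hY0⟩ := Filter.eventually_atTop.mp card_P4
  filter_upwards [Filter.eventually_ge_atTop (2 * Y0 + 100)] with q hq
  refine ⟨by omega, ?_⟩
  have h := hY0 ((q - 1) / 2) (by omega)
  have hYq : (q - 1) / 2 ≤ q := by omega
  have hY2 : q ≤ 2 * ((q - 1) / 2) + 2 := by omega
  set Y := (q - 1) / 2 with hY
  have hqr : (100 : ℝ) ≤ q := by exact_mod_cast (show 100 ≤ q by omega)
  have hYr : (Y : ℝ) ≤ q := by exact_mod_cast hYq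
  have hYr2 : (q : ℝ) ≤ 2 * Y + 2 := by exact_mod_cast hY2
  have hY1 : (1 : ℝ) ≤ Y := by linarith
  have hlog : Real.log Y ≤ Real.log q := Real.log_le_log (by linarith) hYr
  have hlogq : 0 < Real.log q := Real.log_pos (by linarith)
  rw [div_le_iff₀ (by positivity)]
  have h2 : ((P4 Y).card : ℝ) * Real.log Y ≤ (P4 Y).card * Real.log q :=
    mul_le_mul_of_nonneg_left hlog (Nat.cast_nonneg _)
  nlinarith

/-- A residue with many representations is good. -/
theorem good_of_rep (hL : Large q) (x : ZMod q)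
    (hx : ((AA q).card : ℝ) ^ 2 / (4 * q) ≤ rep (AA q) x) : Good (1 / 1600) x.val := by
  obtain ⟨hq100, hcard⟩ := hL
  have hq0 : (100 : ℝ) ≤ q := by exact_mod_cast hq100
  have hlogq : 0 < Real.log q := Real.log_pos (by linarith)
  rw [← card_AA (q := q)] at hcard
  have hcard0 : 0 < (q : ℝ) / (10 * Real.log q) := by positivity
  have hApos : (0 : ℝ) < (AA q).card := lt_of_lt_of_le hcard0 hcard
  have hpos : 0 < rep (AA q) x := lt_of_lt_of_le (by positivity) hx
  obtain ⟨h1, h2, h3, h4⟩ := rep_g (by omega) x hpos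
  refine ⟨h1, h2, ?_⟩
  have hq : 0 < q := (Fact.out : q.Prime).pos
  have : NeZero q := ⟨hq.ne'⟩
  have hxq : (x.val : ℝ) ≤ q := by exact_mod_cast (ZMod.val_lt x).le
  have hx4 : (q : ℝ) ≤ 4 * x.val + 2 := by exact_mod_cast (show q ≤ 4 * x.val + 2 by omega)
  -- log of the integer
  have hlogn : Real.log q / 2 ≤ Real.log (x.val : ℝ) := by
    rw [← Real.log_sqrt (by positivity)]
    refine Real.log_le_log (Real.sqrt_pos.mpr (by linarith)) ?_
    rw [Real.sqrt_le_left (by positivity)]
    nlinarith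
  have h5 : (Real.log q) ^ 2 / 4 ≤ (Real.log (x.val : ℝ)) ^ 2 := by nlinarith
  have h6 : ((q : ℝ) / (10 * Real.log q)) ^ 2 ≤ ((AA q).card : ℝ) ^ 2 :=
    pow_le_pow_left₀ hcard0.le hcard 2
  calc (1 / 1600 : ℝ) * (x.val : ℝ) / (Real.log (x.val : ℝ)) ^ 2
      ≤ (1 / 1600 : ℝ) * q / ((Real.log q) ^ 2 / 4) := by
        refine div_le_div₀ (by positivity) ?_ (by positivity) h5
        exact mul_le_mul_of_nonneg_left hxq (by positivity)
    _ = ((q : ℝ) / (10 * Real.log q)) ^ 2 / (4 * q) := by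
        field_simp
        norm_num
    _ ≤ ((AA q).card : ℝ) ^ 2 / (4 * q) := div_le_div_of_nonneg_right h6 (by positivity)
    _ ≤ rep (AA q) x := hx
    _ ≤ _ := h4

/-- If the average number of representations over a multiset of residues is large, then at least
a `c/log q` proportion of them is good. -/
theorem many_good {ι : Type*} (S : Finset ι) (f : ι → ZMod q) (hL : Large q)
    (h : S.card * ((AA q).card : ℝ) ^ 2 / q / 2 ≤ ∑ s ∈ S, rep (AA q) (f s)) :
    (S.card : ℝ) / (40 * Real.log q) ≤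
      (({s ∈ (S : Set ι) | Good (1 / 1600) (f s).val} : Set ι).ncard : ℝ) := by
  classical
  have hL' := hL
  obtain ⟨hq100, hcard⟩ := hL'
  have hq0 : (100 : ℝ) ≤ q := by exact_mod_cast hq100
  have hlogq : 0 < Real.log q := Real.log_pos (by linarith)
  rw [← card_AA (q := q)] at hcard
  have hcard0 : 0 < (q : ℝ) / (10 * Real.log q) := by positivity
  have hApos : (0 : ℝ) < (AA q).card := lt_of_lt_of_le hcard0 hcard
  set τ : ℝ := ((AA q).card : ℝ) ^ 2 / (4 * q) with hτ
  have hsplit := Finset.sum_filter_add_sum_filter_not S (fun s => τ ≤ rep (AA q) (f s))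
    (fun s => rep (AA q) (f s))
  have h1 : ∑ s ∈ S.filter (fun s => τ ≤ rep (AA q) (f s)), rep (AA q) (f s) ≤
      (S.filter (fun s => τ ≤ rep (AA q) (f s))).card * (AA q).card := by
    rw [← nsmul_eq_mul]
    exact Finset.sum_le_card_nsmul _ _ _ fun s _ => rep_le_card _ _
  have h2 : ∑ s ∈ S.filter (fun s => ¬ τ ≤ rep (AA q) (f s)), rep (AA q) (f s) ≤
      S.card * τ := by
    refine (Finset.sum_le_card_nsmul _ _ τ fun s hs => ?_).trans ?_
    · have := (mem_filter.1 hs).2
      push Not at this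
      exact this.le
    · rw [nsmul_eq_mul]
      refine mul_le_mul_of_nonneg_right ?_ (by positivity)
      exact_mod_cast Finset.card_filter_le _ _
  have h3 : (S.card : ℝ) * ((AA q).card : ℝ) ^ 2 / q / 2 = 2 * (S.card * τ) := by
    rw [hτ]; field_simp; ring
  have h4 : (S.card : ℝ) * τ ≤
      (S.filter (fun s => τ ≤ rep (AA q) (f s))).card * (AA q).card := by linarith
  have h5 : (S.card : ℝ) * ((AA q).card / (4 * q)) ≤
      (S.filter (fun s => τ ≤ rep (AA q) (f s))).card := by
    have e : (S.card : ℝ) * τ = (S.card * ((AA q).card / (4 * q))) * (AA q).card := by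
      rw [hτ]; ring
    rw [e] at h4
    exact le_of_mul_le_mul_right h4 hApos
  have h6 : (S.card : ℝ) / (40 * Real.log q) ≤ S.card * ((AA q).card / (4 * q)) := by
    have : 1 / (40 * Real.log q) ≤ ((AA q).card : ℝ) / (4 * q) := by
      calc 1 / (40 * Real.log q) = (q : ℝ) / (10 * Real.log q) / (4 * q) := by
            field_simp; norm_num
        _ ≤ _ := div_le_div_of_nonneg_right hcard (by positivity)
    calc (S.card : ℝ) / (40 * Real.log q) = S.card * (1 / (40 * Real.log q)) := by ring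
      _ ≤ _ := mul_le_mul_of_nonneg_left this (Nat.cast_nonneg _)
  refine h6.trans (h5.trans ?_)
  have hfin : ({s ∈ (S : Set ι) | Good (1 / 1600) (f s).val} : Set ι).Finite :=
    S.finite_toSet.subset (Set.sep_subset _ _)
  have hle : (S.filter (fun s => τ ≤ rep (AA q) (f s))).card ≤
      ({s ∈ (S : Set ι) | Good (1 / 1600) (f s).val} : Set ι).ncard := by
    rw [← Set.ncard_coe_finset]
    refine Set.ncard_le_ncard (fun s hs => ?_) hfin
    have hs' := mem_filter.1 (Finset.mem_coe.1 hs)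
    exact ⟨Finset.mem_coe.2 hs'.1, good_of_rep hL _ hs'.2⟩
  exact_mod_cast hle

end Pool.Agent.Lib.MP_dd84fd_nt.PrimesMod
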