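import Mathlib

/-!
# Weyl's inequality for polynomials modulo a prime
-/

set_option autoImplicit false

namespace Pool.Agent.Lib.MP_dd84fd_nt.Weyl

open Finset Complex

/-- correlations -/
noncomputable def cor (F : ℕ → ℂ) (n : ℕ) : ℂ :=
  ∑ h ∈ Ico 1 n, ∑ x ∈ range (n - h), F (x + h) * (starRingEnd ℂ) (F x)

theorem cor_succ (F : ℕ → ℂ) (n : ℕ) :
    cor F (n + 1) = cor F n + F n * (starRingEnd ℂ) (∑ x ∈ range n, F x) := by
  unfold cor
  have h1 : ∀ h ∈ Ico 1 (n + 1), ∑ x ∈ range (n + 1 - h), F (x + h) * (starRingEnd ℂ) (F x) =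
      ∑ x ∈ range (n - h), F (x + h) * (starRingEnd ℂ) (F x) +
        F n * (starRingEnd ℂ) (F (n - h)) := by
    intro h hh
    rw [mem_Ico] at hh
    rw [show n + 1 - h = (n - h) + 1 by omega, sum_range_succ, show n - h + h = n by omega]
  rw [sum_congr rfl h1, sum_add_distrib]
  congr 1
  · rcases Nat.eq_zero_or_pos n with rfl | hn
    · simp
    · rw [sum_Ico_succ_top (by omega)]
      simp
  · rw [← mul_sum, map_sum]
    congr 1
    refine sum_bij' (fun h _ => n - h) (fun x _ => n - x) ?_ ?_ ?_ ?_ ?_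
    · intro h hh; rw [mem_Ico] at hh; rw [mem_range]; omega
    · intro x hx; rw [mem_range] at hx; rw [mem_Ico]; omega
    · intro h hh; rw [mem_Ico] at hh; show n - (n - h) = h; omega
    · intro x hx; rw [mem_range] at hx; show n - (n - x) = x; omega
    · intro h _; rfl

theorem norm_sq_eq (F : ℕ → ℂ) (n : ℕ) :
    ‖∑ x ∈ range n, F x‖ ^ 2 = ∑ x ∈ range n, ‖F x‖ ^ 2 + 2 * (cor F n).re := by
  induction n with
  | zero => simp [cor]
  | succ n ih =>
    rw [sum_range_succ, sum_range_succ, cor_succ, Complex.add_re]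
    have h : ‖∑ x ∈ range n, F x + F n‖ ^ 2 = ‖∑ x ∈ range n, F x‖ ^ 2 + ‖F n‖ ^ 2 +
        2 * (F n * (starRingEnd ℂ) (∑ x ∈ range n, F x)).re := by
      rw [← Complex.normSq_eq_norm_sq, ← Complex.normSq_eq_norm_sq, ← Complex.normSq_eq_norm_sq,
        add_comm (∑ x ∈ range n, F x) (F n), Complex.normSq_add]
      ring
    rw [h, ih]
    ring

variable {q : ℕ} [NeZero q]

/-- the exponential sum with phase `f` -/
noncomputable def T (f : ℕ → ZMod q) (n : ℕ) : ℝ := ‖∑ x ∈ range n, ZMod.stdAddChar (f x)‖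

theorem norm_e (x : ZMod q) : ‖(ZMod.stdAddChar x : ℂ)‖ = 1 := by
  rw [ZMod.stdAddChar_apply]; exact Circle.norm_coe _

theorem T_nonneg (f : ℕ → ZMod q) (n : ℕ) : 0 ≤ T f n := norm_nonneg _

theorem T_le (f : ℕ → ZMod q) (n : ℕ) : T f n ≤ n := by
  refine (norm_sum_le _ _).trans ?_
  rw [sum_congr rfl fun x _ => norm_e _]
  simp

theorem conj_e (x : ZMod q) : (starRingEnd ℂ) (ZMod.stdAddChar x : ℂ) = ZMod.stdAddChar (-x) := by
  rw [AddChar.map_neg_eq_inv, ← Complex.inv_eq_conj (norm_e x)]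

/-- van der Corput / Weyl differencing -/
theorem T_sq_le (f : ℕ → ZMod q) (n : ℕ) :
    T f n ^ 2 ≤ 2 * ∑ h ∈ range n, T (fun x => f (x + h) - f x) (n - h) := by
  unfold T
  rw [norm_sq_eq]
  have h1 : ∑ x ∈ range n, ‖(ZMod.stdAddChar (f x) : ℂ)‖ ^ 2 = n := by
    rw [sum_congr rfl fun x _ => by rw [norm_e, one_pow]]
    simp
  have h2 : (cor (fun x => (ZMod.stdAddChar (f x) : ℂ)) n).re ≤
      ∑ h ∈ Ico 1 n, ‖∑ x ∈ range (n - h), (ZMod.stdAddChar (f (x + h) - f x) : ℂ)‖ := by
    refine (Complex.re_le_norm _).trans ((norm_sum_le _ _).trans (le_of_eq ?_))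
    refine sum_congr rfl fun h _ => ?_
    congr 1
    refine sum_congr rfl fun x _ => ?_
    rw [conj_e, ← AddChar.map_add_eq_mul, sub_eq_add_neg]
  rcases Nat.eq_zero_or_pos n with rfl | hn
  · simp [cor]
  · have h3 : ∑ h ∈ range n, ‖∑ x ∈ range (n - h), (ZMod.stdAddChar (f (x + h) - f x) : ℂ)‖ =
        n + ∑ h ∈ Ico 1 n, ‖∑ x ∈ range (n - h), (ZMod.stdAddChar (f (x + h) - f x) : ℂ)‖ := by
      rw [range_eq_Ico, sum_eq_sum_Ico_succ_bot hn]
      congr 1
      simp
    rw [h3, h1]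
    have : (0 : ℝ) ≤ n := Nat.cast_nonneg _
    linarith

/-- iterated differences -/
noncomputable def R : ℕ → (ℕ → ZMod q) → ℕ → ℝ
  | 0, f, n => T f n
  | k + 1, f, n => 2 * ∑ h ∈ range n, R k (fun x => f (x + h) - f x) (n - h)

theorem two_pow_ge (k : ℕ) : k + 1 ≤ 2 ^ k := Nat.lt_two_pow_self

/-- Weyl's inequality before evaluation of the differences. -/
theorem weyl (N k : ℕ) (f : ℕ → ZMod q) (n : ℕ) (hn : n ≤ N) :
    T f n ^ (2 ^ k) ≤ (2 * (N : ℝ)) ^ (2 ^ k - k - 1) * R k f n := by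
  induction k generalizing f n with
  | zero => simp [R]
  | succ k ih =>
    rcases Nat.eq_zero_or_pos n with rfl | hn0
    · simp [T, R]
    have hN : (0 : ℝ) < N := by exact_mod_cast lt_of_lt_of_le hn0 hn
    have h1 : T f n ^ (2 ^ (k + 1)) = (T f n ^ 2) ^ (2 ^ k) := by rw [← pow_mul, pow_succ']
    rw [h1]
    have h2 : (T f n ^ 2) ^ (2 ^ k) ≤
        (2 * ∑ h ∈ range n, T (fun x => f (x + h) - f x) (n - h)) ^ (2 ^ k) :=
      pow_le_pow_left₀ (sq_nonneg _) (T_sq_le f n) _
    refine h2.trans ?_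
    obtain ⟨m, hm⟩ : ∃ m, 2 ^ k = m + 1 := ⟨2 ^ k - 1, by have := two_pow_ge k; omega⟩
    have h3 : (∑ h ∈ range n, T (fun x => f (x + h) - f x) (n - h)) ^ (m + 1) ≤
        (n : ℝ) ^ m * ∑ h ∈ range n, T (fun x => f (x + h) - f x) (n - h) ^ (m + 1) := by
      have h4 := pow_sum_div_card_le_sum_pow (s := range n)
        (f := fun h => T (fun x => f (x + h) - f x) (n - h)) (fun _ _ => T_nonneg _ _) m
      rw [card_range, div_le_iff₀ (by positivity)] at h4
      rw [mul_comm ((n : ℝ) ^ m)]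
      exact h4
    have h5 : ∑ h ∈ range n, T (fun x => f (x + h) - f x) (n - h) ^ (m + 1) ≤
        ∑ h ∈ range n, (2 * (N : ℝ)) ^ (2 ^ k - k - 1) * R k (fun x => f (x + h) - f x) (n - h) := by
      refine sum_le_sum fun h _ => ?_
      rw [← hm]
      exact ih _ _ (by omega)
    rw [← mul_sum] at h5
    have h0 : 0 ≤ ∑ h ∈ range n, T (fun x => f (x + h) - f x) (n - h) ^ (m + 1) :=
      sum_nonneg fun _ _ => pow_nonneg (T_nonneg _ _) _
    have e1 : 2 ^ (k + 1) - (k + 1) - 1 = m + (2 ^ k - k - 1) := by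
      have := two_pow_ge k
      rw [pow_succ]; omega
    rw [hm, mul_pow, e1, pow_add (2 * (N : ℝ)), R]
    calc 2 ^ (m + 1) * (∑ h ∈ range n, T (fun x => f (x + h) - f x) (n - h)) ^ (m + 1)
        ≤ 2 ^ (m + 1) * ((n : ℝ) ^ m *
          ∑ h ∈ range n, T (fun x => f (x + h) - f x) (n - h) ^ (m + 1)) :=
          mul_le_mul_of_nonneg_left h3 (by positivity)
      _ ≤ 2 ^ (m + 1) * ((N : ℝ) ^ m * ((2 * (N : ℝ)) ^ (2 ^ k - k - 1) *
          ∑ h ∈ range n, R k (fun x => f (x + h) - f x) (n - h))) := by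
          refine mul_le_mul_of_nonneg_left ?_ (by positivity)
          refine mul_le_mul ?_ h5 h0 (by positivity)
          exact pow_le_pow_left₀ (Nat.cast_nonneg _) (by exact_mod_cast hn) _
      _ = (2 * (N : ℝ)) ^ m * (2 * (N : ℝ)) ^ (2 ^ k - k - 1) *
          (2 * ∑ h ∈ range n, R k (fun x => f (x + h) - f x) (n - h)) := by
          rw [mul_pow 2 (N : ℝ) m, pow_succ]; ring

/-! ### Polynomial phases -/

open Polynomial in
omit [NeZero q] in
theorem diff_lead (P : Polynomial (ZMod q)) (k : ℕ) (hP : P.natDegree ≤ k + 1) (h : ZMod q) :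
    (taylor h P - P).natDegree ≤ k ∧
      (taylor h P - P).coeff k = ((k + 1 : ℕ) : ZMod q) * P.coeff (k + 1) * h := by
  have hk : ∀ j, (taylor h P).coeff j = (hasseDeriv j P).eval h := fun j => taylor_coeff h P j
  constructor
  · rw [natDegree_le_iff_coeff_eq_zero]
    intro j hj
    rw [coeff_sub, hk]
    rcases Nat.lt_or_ge (k + 1) j with h1 | h1
    · have h2 : (hasseDeriv j P) = 0 := hasseDeriv_eq_zero_of_lt_natDegree _ _ (by omega)
      rw [h2, eval_zero, coeff_eq_zero_of_natDegree_lt (by omega), sub_zero]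
    · have h2 : j = k + 1 := by omega
      subst h2
      have h3 : (hasseDeriv (k + 1) P).natDegree ≤ 0 := by
        refine (natDegree_hasseDeriv_le P (k + 1)).trans ?_
        omega
      rw [eq_C_of_natDegree_le_zero h3, eval_C, hasseDeriv_coeff]
      simp
  · rw [coeff_sub, hk]
    have h3 : (hasseDeriv k P).natDegree < 2 := by
      refine lt_of_le_of_lt (natDegree_hasseDeriv_le P k) ?_
      omega
    rw [eval_eq_sum_range' h3, sum_range_succ, sum_range_one, hasseDeriv_coeff, hasseDeriv_coeff]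
    have h4 : (1 + k).choose k = k + 1 := by
      rw [add_comm, Nat.choose_succ_self_right]
    simp only [zero_add, Nat.choose_self, Nat.cast_one, one_mul, pow_zero, mul_one, pow_one, h4]
    rw [add_comm 1 k]
    ring

/-- bound for linear sums -/
noncomputable def G (N : ℕ) (β : ZMod q) : ℝ :=
  if β = 0 then (N : ℝ) else 2 / ‖1 - (ZMod.stdAddChar β : ℂ)‖

theorem G_nonneg (N : ℕ) (β : ZMod q) : 0 ≤ G N β := by
  unfold G; split_ifs <;> positivity

theorem e_ne_one {β : ZMod q} (hβ : β ≠ 0) : (ZMod.stdAddChar β : ℂ) ≠ 1 := by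
  intro h
  apply hβ
  apply ZMod.injective_stdAddChar
  rw [h, AddChar.map_zero_eq_one]

theorem T_lin (N n : ℕ) (hn : n ≤ N) (b c : ZMod q) :
    T (fun x => c + b * (x : ZMod q)) n ≤ G N b := by
  unfold G
  split_ifs with hb
  · exact (T_le _ _).trans (by exact_mod_cast hn)
  · unfold T
    have h1 : ∀ x ∈ range n, (ZMod.stdAddChar (c + b * (x : ZMod q)) : ℂ) =
        ZMod.stdAddChar c * (ZMod.stdAddChar b) ^ x := by
      intro x _
      rw [AddChar.map_add_eq_mul, ← AddChar.map_nsmul_eq_pow, nsmul_eq_mul, mul_comm b]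
    rw [sum_congr rfl h1, ← mul_sum, norm_mul, norm_e, one_mul]
    have h2 := e_ne_one hb
    rw [geom_sum_eq h2, norm_div]
    have h3 : ‖(ZMod.stdAddChar b : ℂ) - 1‖ = ‖1 - (ZMod.stdAddChar b : ℂ)‖ := norm_sub_rev _ _
    rw [h3]
    refine div_le_div_of_nonneg_right ?_ (norm_nonneg _)
    refine (norm_sub_le _ _).trans ?_
    rw [norm_pow, norm_e]
    norm_num

theorem R_le (N k : ℕ) (P : Polynomial (ZMod q)) (hP : P.natDegree ≤ k + 1) (n : ℕ) (hn : n ≤ N) :
    R k (fun x => P.eval (x : ZMod q)) n ≤ 2 ^ k * ∑ h : Fin k → Fin N,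
      G N (((k + 1).factorial : ZMod q) * P.coeff (k + 1) * ((∏ i, (h i : ℕ) : ℕ) : ZMod q)) := by
  induction k generalizing P n with
  | zero =>
    have h1 : (fun x : ℕ => P.eval (x : ZMod q)) =
        (fun x : ℕ => P.coeff 0 + P.coeff 1 * (x : ZMod q)) := by
      funext x
      rw [Polynomial.eval_eq_sum_range' (show P.natDegree < 2 by omega)]
      simp [sum_range_succ]
    rw [R, h1]
    simpa using T_lin N n hn (P.coeff 1) (P.coeff 0)
  | succ k ih =>
    rw [R]
    have h1 : ∀ h ∈ range n, R k (fun x => P.eval ((x + h : ℕ) : ZMod q) -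
        P.eval (x : ZMod q)) (n - h) ≤ 2 ^ k * ∑ h' : Fin k → Fin N,
        G N (((k + 2).factorial : ZMod q) * P.coeff (k + 2) *
          ((h * ∏ i, (h' i : ℕ) : ℕ) : ZMod q)) := by
      intro h _
      have h2 := diff_lead P (k + 1) hP (h : ZMod q)
      have h3 := ih (Polynomial.taylor (h : ZMod q) P - P) h2.1 (n - h) (by omega)
      have e1 : (fun x : ℕ => (Polynomial.taylor (h : ZMod q) P - P).eval (x : ZMod q)) =
          (fun x : ℕ => P.eval ((x + h : ℕ) : ZMod q) - P.eval (x : ZMod q)) := by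
        funext x
        rw [Polynomial.eval_sub, Polynomial.taylor_eval]
        push_cast
        ring_nf
      rw [e1] at h3
      refine h3.trans (le_of_eq ?_)
      congr 1
      refine sum_congr rfl fun h' _ => ?_
      congr 1
      rw [h2.2, Nat.factorial_succ (k + 1)]
      push_cast
      ring
    have h4 : ∑ h ∈ range n, ∑ h' : Fin k → Fin N,
        G N (((k + 2).factorial : ZMod q) * P.coeff (k + 2) *
          ((h * ∏ i, (h' i : ℕ) : ℕ) : ZMod q)) ≤ ∑ h : Fin (k + 1) → Fin N,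
        G N (((k + 2).factorial : ZMod q) * P.coeff (k + 2) *
          ((∏ i, (h i : ℕ) : ℕ) : ZMod q)) := by
      have h5 : ∑ h : Fin (k + 1) → Fin N,
          G N (((k + 2).factorial : ZMod q) * P.coeff (k + 2) *
            ((∏ i, (h i : ℕ) : ℕ) : ZMod q)) =
          ∑ h ∈ range N, ∑ h' : Fin k → Fin N,
            G N (((k + 2).factorial : ZMod q) * P.coeff (k + 2) *
              ((h * ∏ i, (h' i : ℕ) : ℕ) : ZMod q)) := by
        rw [← Fin.sum_univ_eq_sum_range (fun h => ∑ h' : Fin k → Fin N,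
            G N (((k + 2).factorial : ZMod q) * P.coeff (k + 2) *
              ((h * ∏ i, (h' i : ℕ) : ℕ) : ZMod q))) N, ← Fintype.sum_prod_type',
          ← Fintype.sum_equiv (Fin.consEquiv (fun _ : Fin (k + 1) => Fin N))
            (fun p => G N (((k + 2).factorial : ZMod q) * P.coeff (k + 2) *
              ((((p.1 : Fin N) : ℕ) * ∏ i, ((p.2 i : Fin N) : ℕ) : ℕ) : ZMod q))) _ (fun p => ?_)]
        rw [Fin.prod_univ_succ]
        rfl
      rw [h5]
      exact sum_le_sum_of_subset_of_nonneg (range_subset_range.2 hn)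
        fun _ _ _ => sum_nonneg fun _ _ => G_nonneg _ _
    calc 2 * ∑ h ∈ range n, R k (fun x => P.eval ((x + h : ℕ) : ZMod q) -
          P.eval (x : ZMod q)) (n - h)
        ≤ 2 * ∑ h ∈ range n, 2 ^ k * ∑ h' : Fin k → Fin N,
          G N (((k + 2).factorial : ZMod q) * P.coeff (k + 2) *
            ((h * ∏ i, (h' i : ℕ) : ℕ) : ZMod q)) :=
          mul_le_mul_of_nonneg_left (sum_le_sum h1) (by norm_num)
      _ = 2 ^ (k + 1) * ∑ h ∈ range n, ∑ h' : Fin k → Fin N,
          G N (((k + 2).factorial : ZMod q) * P.coeff (k + 2) *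
            ((h * ∏ i, (h' i : ℕ) : ℕ) : ZMod q)) := by
          rw [← mul_sum, pow_succ]; ring
      _ ≤ _ := mul_le_mul_of_nonneg_left h4 (by positivity)

/-! ### The sum of the linear bounds -/

omit [NeZero q] in
theorem card_prod_zero (k N : ℕ) :
    (univ.filter (fun h : Fin k → Fin N => ∏ i, (h i : ℕ) = 0)).card * N ≤ k * N ^ k := by
  classical
  have h1 : univ.filter (fun h : Fin k → Fin N => ∏ i, (h i : ℕ) = 0) ⊆
      univ.biUnion (fun i : Fin k => univ.filter (fun h : Fin k → Fin N => (h i : ℕ) = 0)) := by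
    intro h hh
    rw [mem_filter] at hh
    obtain ⟨i, _, hi⟩ := Finset.prod_eq_zero_iff.1 hh.2
    exact mem_biUnion.2 ⟨i, mem_univ _, mem_filter.2 ⟨mem_univ _, hi⟩⟩
  have h2 : ∀ i : Fin k, (univ.filter (fun h : Fin k → Fin N => (h i : ℕ) = 0)).card * N ≤
      N ^ k := by
    intro i
    have h3 : (univ.filter (fun h : Fin k → Fin N => (h i : ℕ) = 0) ×ˢ
        (univ : Finset (Fin N))).card ≤ (univ : Finset (Fin k → Fin N)).card := by
      refine card_le_card_of_injOn (fun p => Function.update p.1 i p.2) (fun _ _ => mem_univ _) ?_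
      rintro ⟨a, x⟩ ha ⟨b, y⟩ hb hab
      have ha' := (mem_filter.1 (mem_product.1 (mem_coe.1 ha)).1).2
      have hb' := (mem_filter.1 (mem_product.1 (mem_coe.1 hb)).1).2
      dsimp only at hab ha' hb'
      have hxy : x = y := by
        have := congrFun hab i
        simpa using this
      subst hxy
      refine Prod.ext (funext fun j => ?_) rfl
      by_cases hj : j = i
      · subst hj
        exact Fin.ext (ha'.trans hb'.symm)
      · have := congrFun hab j
        simpa [hj] using this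
    rw [card_product, card_univ, card_univ, Fintype.card_fin, Fintype.card_fun, Fintype.card_fin,
      Fintype.card_fin] at h3
    exact h3
  calc (univ.filter (fun h : Fin k → Fin N => ∏ i, (h i : ℕ) = 0)).card * N
      ≤ (∑ i : Fin k, (univ.filter (fun h : Fin k → Fin N => (h i : ℕ) = 0)).card) * N :=
        Nat.mul_le_mul_right _ ((card_le_card h1).trans card_biUnion_le)
    _ = ∑ i : Fin k, (univ.filter (fun h : Fin k → Fin N => (h i : ℕ) = 0)).card * N := by
        rw [sum_mul]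
    _ ≤ ∑ i : Fin k, N ^ k := sum_le_sum fun i _ => h2 i
    _ = k * N ^ k := by simp

theorem card_prod_eq (k N m : ℕ) (hm : m ≠ 0) :
    (univ.filter (fun h : Fin k → Fin N => ∏ i, (h i : ℕ) = m)).card ≤ m.divisors.card ^ k := by
  classical
  have h1 : (Fintype.piFinset (fun _ : Fin k => m.divisors)).card = m.divisors.card ^ k := by
    rw [Fintype.card_piFinset]; simp
  rw [← h1]
  refine card_le_card_of_injOn (fun h i => (h i : ℕ)) ?_ ?_
  · intro h hh
    have hh' := (mem_filter.1 (mem_coe.1 hh)).2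
    rw [mem_coe, Fintype.mem_piFinset]
    intro i
    rw [Nat.mem_divisors]
    exact ⟨hh' ▸ Finset.dvd_prod_of_mem _ (mem_univ i), hm⟩
  · intro a _ b _ hab
    funext i
    exact Fin.ext (congrFun hab i)

theorem sum_range_cast (f : ZMod q → ℝ) : ∑ i ∈ range q, f (i : ZMod q) = ∑ x, f x := by
  refine sum_bij' (fun i _ => (i : ZMod q)) (fun x _ => x.val) ?_ ?_ ?_ ?_ ?_
  · intro i _; exact mem_univ _
  · intro x _; exact mem_range.2 (ZMod.val_lt x)
  · intro i hi; exact ZMod.val_natCast_of_lt (mem_range.1 hi)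
  · intro x _; exact ZMod.natCast_zmod_val x
  · intro i _; rfl

theorem sum_blocks (f : ZMod q → ℝ) (J : ℕ) :
    ∑ m ∈ range (q * J), f (m : ZMod q) = J * ∑ x, f x := by
  induction J with
  | zero => simp
  | succ J ih =>
    rw [Nat.mul_succ, sum_range_add, ih]
    have : ∀ i ∈ range q, f ((q * J + i : ℕ) : ZMod q) = f (i : ZMod q) := by
      intro i _
      push_cast
      simp
    rw [sum_congr rfl this, sum_range_cast]
    push_cast
    ring

theorem sum_mul_G [Fact q.Prime] (N K : ℕ) (b : ZMod q) (hb : b ≠ 0) :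
    ∑ m ∈ Icc 1 K, G N (b * (m : ZMod q)) ≤ ((K : ℝ) / q + 1) * ∑ β : ZMod q, G N β := by
  have hq : 0 < q := Nat.pos_of_ne_zero (NeZero.ne q)
  have h1 : ∑ m ∈ Icc 1 K, G N (b * (m : ZMod q)) ≤
      ∑ m ∈ range (q * (K / q + 1)), G N (b * (m : ZMod q)) := by
    refine sum_le_sum_of_subset_of_nonneg (fun m hm => ?_) fun _ _ _ => G_nonneg _ _
    rw [mem_Icc] at hm
    rw [mem_range]
    exact lt_of_le_of_lt hm.2 (Nat.lt_mul_div_succ K hq)
  refine h1.trans ?_
  rw [sum_blocks (fun x => G N (b * x)), Fintype.sum_equiv (Equiv.mulLeft₀ b hb)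
    (fun x => G N (b * x)) (fun x => G N x) (fun _ => rfl)]
  refine mul_le_mul_of_nonneg_right ?_ (sum_nonneg fun _ _ => G_nonneg _ _)
  push_cast
  have := @Nat.cast_div_le ℝ _ _ _ K q
  linarith

/-- lower bound for the distance to `1` -/
theorem norm_one_sub_e (β : ZMod q) (hβ : β ≠ 0) :
    2 / ‖1 - (ZMod.stdAddChar β : ℂ)‖ ≤ (q : ℝ) / 2 * (1 / (β.val : ℝ) + 1 / ((q : ℝ) - β.val)) := by
  have hq : (0 : ℝ) < q := by exact_mod_cast Nat.pos_of_ne_zero (NeZero.ne q)
  set v := β.val with hv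
  have hvq : (v : ℝ) < q := by exact_mod_cast ZMod.val_lt β
  have hv0 : (0 : ℝ) < v := by
    have : v ≠ 0 := by rw [hv]; simpa using hβ
    exact_mod_cast Nat.pos_of_ne_zero this
  have h1 : ‖1 - (ZMod.stdAddChar β : ℂ)‖ = 2 * Real.sin (Real.pi * v / q) := by
    have h2 : (ZMod.stdAddChar β : ℂ) = Complex.exp (Complex.I * ((2 * Real.pi * v / q : ℝ) : ℂ)) := by
      have h3 : β = ((v : ℤ) : ZMod q) := by rw [hv]; simp
      rw [h3, ZMod.stdAddChar_coe]
      congr 1
      push_cast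
      ring
    rw [norm_sub_rev, h2, Complex.norm_exp_I_mul_ofReal_sub_one]
    have h4 : 2 * Real.pi * v / q / 2 = Real.pi * v / q := by ring
    rw [h4, Real.norm_of_nonneg]
    refine mul_nonneg (by norm_num) (Real.sin_nonneg_of_nonneg_of_le_pi (by positivity) ?_)
    rw [div_le_iff₀ hq]
    exact mul_le_mul_of_nonneg_left hvq.le Real.pi_pos.le
  have h5 : 2 * (min (v : ℝ) (q - v) / q) ≤ Real.sin (Real.pi * v / q) := by
    rcases le_total ((v : ℝ)) (q - v) with h | h
    · rw [min_eq_left h]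
      have h6 : Real.pi * v / q ≤ Real.pi / 2 := by
        rw [div_le_div_iff₀ hq (by norm_num)]
        nlinarith [Real.pi_pos]
      have h7 := Real.mul_le_sin (x := Real.pi * v / q) (by positivity) h6
      refine le_trans (le_of_eq ?_) h7
      field_simp
    · rw [min_eq_right h]
      have h6 : Real.sin (Real.pi * v / q) = Real.sin (Real.pi * (q - v) / q) := by
        rw [← Real.sin_pi_sub]
        congr 1
        field_simp
      rw [h6]
      have h8 : Real.pi * (q - v) / q ≤ Real.pi / 2 := by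
        rw [div_le_div_iff₀ hq (by norm_num)]
        nlinarith [Real.pi_pos]
      have h7 := Real.mul_le_sin (x := Real.pi * (q - v) / q)
        (div_nonneg (mul_nonneg Real.pi_pos.le (by linarith)) hq.le) h8
      refine le_trans (le_of_eq ?_) h7
      field_simp
  have hm : 0 < min (v : ℝ) (q - v) := lt_min hv0 (by linarith)
  rw [h1]
  have h9 : 0 < Real.sin (Real.pi * v / q) := lt_of_lt_of_le (by positivity) h5
  calc 2 / (2 * Real.sin (Real.pi * v / q)) = 1 / Real.sin (Real.pi * v / q) := by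
        field_simp
    _ ≤ 1 / (2 * (min (v : ℝ) (q - v) / q)) := one_div_le_one_div_of_le (by positivity) h5
    _ = (q : ℝ) / 2 * (1 / min (v : ℝ) (q - v)) := by field_simp
    _ ≤ _ := by
        refine mul_le_mul_of_nonneg_left ?_ (by positivity)
        rcases le_total ((v : ℝ)) (q - v) with h | h
        · rw [min_eq_left h]
          have : 0 ≤ 1 / ((q : ℝ) - v) := by
            apply one_div_nonneg.2; linarith
          linarith
        · rw [min_eq_right h]
          have : 0 ≤ 1 / (v : ℝ) := by positivity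
          linarith

theorem sum_G (N : ℕ) : ∑ β : ZMod q, G N β ≤ N + q * (1 + Real.log q) := by
  have hq : 0 < q := Nat.pos_of_ne_zero (NeZero.ne q)
  rw [← sum_range_cast, sum_range_eq_add_Ico _ hq]
  have h0 : G N ((0 : ℕ) : ZMod q) = N := by simp [G]
  rw [h0]
  have h1 : ∀ i ∈ Ico 1 q, G N ((i : ℕ) : ZMod q) ≤
      (q : ℝ) / 2 * (1 / (i : ℝ)) + (q : ℝ) / 2 * (1 / ((q - i : ℕ) : ℝ)) := by
    intro i hi
    rw [mem_Ico] at hi
    have hval : ((i : ℕ) : ZMod q).val = i := ZMod.val_natCast_of_lt hi.2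
    have hne : ((i : ℕ) : ZMod q) ≠ 0 := by
      intro h
      rw [h, ZMod.val_zero] at hval
      omega
    unfold G
    rw [if_neg hne]
    refine (norm_one_sub_e _ hne).trans (le_of_eq ?_)
    rw [hval, Nat.cast_sub hi.2.le]
    ring
  have h2 : ∑ i ∈ Ico 1 q, (q : ℝ) / 2 * (1 / ((q - i : ℕ) : ℝ)) =
      ∑ i ∈ Ico 1 q, (q : ℝ) / 2 * (1 / (i : ℝ)) := by
    refine sum_bij' (fun i _ => q - i) (fun i _ => q - i) ?_ ?_ ?_ ?_ ?_
    · intro i hi; rw [mem_Ico] at hi ⊢; omega
    · intro i hi; rw [mem_Ico] at hi ⊢; omega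
    · intro i hi; rw [mem_Ico] at hi; show q - (q - i) = i; omega
    · intro i hi; rw [mem_Ico] at hi; show q - (q - i) = i; omega
    · intro i _; rfl
  have h3 : ∑ i ∈ Ico 1 q, (1 / (i : ℝ)) ≤ 1 + Real.log q := by
    have h4 := harmonic_le_one_add_log q
    refine le_trans ?_ h4
    rw [harmonic_eq_sum_Icc]
    push_cast
    refine le_trans (le_of_eq (sum_congr rfl fun i _ => one_div _)) ?_
    refine sum_le_sum_of_subset_of_nonneg (fun i hi => ?_) fun _ _ _ => by positivity
    rw [mem_Ico] at hi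
    rw [mem_Icc]
    omega
  have h5 := sum_le_sum h1
  rw [sum_add_distrib, h2, ← mul_sum] at h5
  have h6 : (q : ℝ) / 2 * ∑ i ∈ Ico 1 q, (1 / (i : ℝ)) ≤ (q : ℝ) / 2 * (1 + Real.log q) :=
    mul_le_mul_of_nonneg_left h3 (by positivity)
  linarith

/-- **Weyl's inequality** modulo a prime. -/
theorem weyl_bound [Fact q.Prime] (N k D : ℕ) (P : Polynomial (ZMod q))
    (hP : P.natDegree ≤ k + 1) (hb : ((k + 1).factorial : ZMod q) * P.coeff (k + 1) ≠ 0)
    (hD : ∀ m, m ≠ 0 → m ≤ N ^ k → m.divisors.card ≤ D) :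
    T (fun x => P.eval (x : ZMod q)) N ^ (2 ^ k) ≤
      (2 * (N : ℝ)) ^ (2 ^ k - k - 1) * (2 ^ k * (k * (N : ℝ) ^ k +
        (D : ℝ) ^ k * (((N : ℝ) ^ k / q + 1) * (N + q * (1 + Real.log q))))) := by
  classical
  refine (weyl N k _ N le_rfl).trans ?_
  refine mul_le_mul_of_nonneg_left ?_ (by positivity)
  refine (R_le N k P hP N le_rfl).trans ?_
  refine mul_le_mul_of_nonneg_left ?_ (by positivity)
  set b : ZMod q := ((k + 1).factorial : ZMod q) * P.coeff (k + 1) with hbdef
  have hle : ∀ h : Fin k → Fin N, ∏ i, (h i : ℕ) ≤ N ^ k := by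
    intro h
    calc ∏ i, (h i : ℕ) ≤ ∏ _i : Fin k, N := prod_le_prod' fun i _ => (h i).2.le
      _ = N ^ k := by simp
  have h1 : ∑ h : Fin k → Fin N, G N (b * ((∏ i, (h i : ℕ) : ℕ) : ZMod q)) =
      ∑ m ∈ range (N ^ k + 1), ((univ.filter (fun h : Fin k → Fin N =>
        ∏ i, (h i : ℕ) = m)).card : ℝ) * G N (b * (m : ZMod q)) := by
    rw [← sum_fiberwise_of_maps_to (s := univ) (t := range (N ^ k + 1))
      (g := fun h : Fin k → Fin N => ∏ i, (h i : ℕ))
      (fun h _ => mem_range.2 (Nat.lt_succ_of_le (hle h)))]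
    refine sum_congr rfl fun m _ => ?_
    rw [sum_congr rfl (g := fun _ => G N (b * (m : ZMod q))) (fun h hh => by
      rw [(mem_filter.1 hh).2]), sum_const, nsmul_eq_mul]
  rw [h1, sum_range_eq_add_Ico _ (Nat.succ_pos _)]
  refine add_le_add ?_ ?_
  · have h2 : G N (b * ((0 : ℕ) : ZMod q)) = N := by simp [G]
    rw [h2]
    exact_mod_cast card_prod_zero k N
  · have h3 : ∀ m ∈ Ico 1 (N ^ k + 1), ((univ.filter (fun h : Fin k → Fin N =>
        ∏ i, (h i : ℕ) = m)).card : ℝ) * G N (b * (m : ZMod q)) ≤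
        (D : ℝ) ^ k * G N (b * (m : ZMod q)) := by
      intro m hm
      rw [mem_Ico] at hm
      refine mul_le_mul_of_nonneg_right ?_ (G_nonneg _ _)
      have h4 := (card_prod_eq k N m (by omega)).trans
        (Nat.pow_le_pow_left (hD m (by omega) (by omega)) k)
      exact_mod_cast h4
    refine (sum_le_sum h3).trans ?_
    rw [← mul_sum]
    refine mul_le_mul_of_nonneg_left ?_ (by positivity)
    have h5 := sum_mul_G N (N ^ k) b hb
    have h6 : Ico 1 (N ^ k + 1) = Icc 1 (N ^ k) := by ext; simp [Nat.lt_succ_iff]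
    rw [h6]
    refine h5.trans ?_
    push_cast
    exact mul_le_mul_of_nonneg_left (sum_G N) (by positivity)

end Pool.Agent.Lib.MP_dd84fd_nt.Weyl
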